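import Mathlib

/-! Counting power preimages in finite cyclic groups. -/

set_option autoImplicit false

namespace Pool.Agent.Zk86.Q2

open Finset

section Grp

variable {G : Type*} [CommGroup G] [Fintype G]

open Classical in
/-- the number of `c` with `c ^ j = u`. -/
noncomputable def rc (j : ℕ) (u : G) : ℕ := (univ.filter fun c : G => c ^ j = u).card

theorem rc_not (j : ℕ) (u : G) (h : u ∉ (powMonoidHom j : G →* G).range) : rc j u = 0 := by
  classical
  unfold rc
  rw [Finset.card_eq_zero, Finset.filter_eq_empty_iff]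
  intro c _ hc
  exact h ⟨c, hc⟩

theorem rc_mem [IsCyclic G] (j : ℕ) (u : G) (h : u ∈ (powMonoidHom j : G →* G).range) :
    rc j u = (Nat.card G).gcd j := by
  classical
  obtain ⟨c0, hc0⟩ := h
  have hc0' : c0 ^ j = u := hc0
  rw [← IsCyclic.card_powMonoidHom_ker (G := G) j, Nat.card_eq_fintype_card]
  unfold rc
  rw [Fintype.card_subtype]
  refine Finset.card_bij' (fun c _ => c0⁻¹ * c) (fun c _ => c0 * c) ?_ ?_ ?_ ?_
  · intro c hc
    simp only [mem_filter, mem_univ, true_and] at hc ⊢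
    show (c0⁻¹ * c) ^ j = 1
    rw [mul_pow, inv_pow, hc0', hc, inv_mul_cancel]
  · intro c hc
    simp only [mem_filter, mem_univ, true_and] at hc ⊢
    have hc1 : c ^ j = 1 := hc
    rw [mul_pow, hc0', hc1, mul_one]
  · intro c _
    simp
  · intro c _
    simp

theorem rc_coprime [IsCyclic G] (j : ℕ) (hj : (Nat.card G).gcd j = 1) (u : G) : rc j u = 1 := by
  have h : (powMonoidHom j : G →* G).range = ⊤ := by
    apply Subgroup.index_eq_one.1
    rw [IsCyclic.index_powMonoidHom_range, hj]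
  rw [rc_mem j u (by rw [h]; trivial), hj]

theorem range_eq [IsCyclic G] (j : ℕ) (h3 : 3 ∣ Nat.card G) (hj : (Nat.card G).gcd j = 3) :
    (powMonoidHom j : G →* G).range = (powMonoidHom 3 : G →* G).range := by
  have h3j : 3 ∣ j := by rw [← hj]; exact Nat.gcd_dvd_right _ _
  obtain ⟨m, rfl⟩ := h3j
  apply Subgroup.eq_of_le_of_card_ge
  · rintro x ⟨c, rfl⟩
    refine ⟨c ^ m, ?_⟩
    show (c ^ m) ^ 3 = c ^ (3 * m)
    rw [← pow_mul, mul_comm]
  · rw [IsCyclic.card_powMonoidHom_range, IsCyclic.card_powMonoidHom_range, hj,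
      Nat.gcd_eq_right h3]

theorem rc_three [IsCyclic G] (j : ℕ) (h3 : 3 ∣ Nat.card G) (hj : (Nat.card G).gcd j = 3) (u : G) :
    rc j u = rc 3 u := by
  have hr := range_eq (G := G) j h3 hj
  by_cases h : u ∈ (powMonoidHom 3 : G →* G).range
  · rw [rc_mem 3 u h, rc_mem j u (by rw [hr]; exact h), hj, Nat.gcd_eq_right h3]
  · rw [rc_not 3 u h, rc_not j u (by rw [hr]; exact h)]

theorem quot3 {Q : Type*} [CommGroup Q] [Finite Q] (hQ : Nat.card Q = 3) (a b : Q) (ha : a ≠ 1)
    (hb : b ≠ 1) : (a * b = 1 ∧ a * b⁻¹ ≠ 1) ∨ (a * b ≠ 1 ∧ a * b⁻¹ = 1) := by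
  classical
  have := Fintype.ofFinite Q
  have hcube : ∀ x : Q, x ^ 3 = 1 := by
    intro x
    rw [← hQ]
    exact pow_card_eq_one'
  have hsq : ∀ x : Q, x * x = 1 → x = 1 := by
    intro x hx
    have := hcube x
    rw [pow_succ, pow_two, hx, one_mul] at this
    exact this
  have hcard : Fintype.card Q = 3 := by rw [← Nat.card_eq_fintype_card, hQ]
  have hainv : a ≠ a⁻¹ := by
    intro h
    apply ha
    apply hsq
    calc a * a = a * a⁻¹ := by rw [← h]
      _ = 1 := mul_inv_cancel a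
  have hb2 : b = a ∨ b = a⁻¹ := by
    by_contra hcon
    push Not at hcon
    have h4 : ({1, a, a⁻¹, b} : Finset Q).card = 4 := by
      rw [Finset.card_insert_of_notMem, Finset.card_insert_of_notMem,
        Finset.card_insert_of_notMem, Finset.card_singleton]
      · simp only [Finset.mem_singleton]
        exact Ne.symm hcon.2
      · simp only [Finset.mem_insert, Finset.mem_singleton, not_or]
        exact ⟨hainv, Ne.symm hcon.1⟩
      · simp only [Finset.mem_insert, Finset.mem_singleton, not_or]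
        exact ⟨Ne.symm ha, fun h => ha (by rw [← inv_inv a, ← h, inv_one]), Ne.symm hb⟩
    have := Finset.card_le_univ ({1, a, a⁻¹, b} : Finset Q)
    omega
  rcases hb2 with h | h
  · right
    subst h
    exact ⟨fun h => ha (hsq _ h), mul_inv_cancel b⟩
  · left
    subst h
    refine ⟨mul_inv_cancel a, ?_⟩
    rw [inv_inv]
    exact fun h => ha (hsq _ h)

theorem rc_mul [IsCyclic G] (h3 : 3 ∣ Nat.card G) (u v : G) :
    ((rc 3 u : ℤ) - 1) * ((rc 3 v : ℤ) - 1) = rc 3 (u * v) + rc 3 (u * v⁻¹) - 2 := by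
  classical
  set H := (powMonoidHom 3 : G →* G).range with hH
  have hg : (Nat.card G).gcd 3 = 3 := Nat.gcd_eq_right h3
  have hr : ∀ x : G, (rc 3 x : ℤ) = if x ∈ H then 3 else 0 := by
    intro x
    split_ifs with h
    · rw [rc_mem 3 x h, hg]; rfl
    · rw [rc_not 3 x h]; rfl
  have hQ : Nat.card (G ⧸ H) = 3 := by
    have := IsCyclic.index_powMonoidHom_range (G := G) 3
    rw [hg] at this
    exact this
  have hq : ∀ x : G, x ∈ H ↔ (QuotientGroup.mk x : G ⧸ H) = 1 := by
    intro x
    rw [QuotientGroup.eq_one_iff]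
  rw [hr, hr, hr, hr]
  by_cases hu : u ∈ H
  · by_cases hv : v ∈ H
    · rw [if_pos hu, if_pos hv, if_pos (H.mul_mem hu hv), if_pos (H.mul_mem hu (H.inv_mem hv))]
      norm_num
    · have h1 : u * v ∉ H := fun h => hv ((H.mul_mem_cancel_left hu).1 h)
      have h2 : u * v⁻¹ ∉ H := fun h => hv (by
        have := (H.mul_mem_cancel_left hu).1 h
        simpa using H.inv_mem this)
      rw [if_pos hu, if_neg hv, if_neg h1, if_neg h2]
      norm_num
  · by_cases hv : v ∈ H
    · have h1 : u * v ∉ H := fun h => hu ((H.mul_mem_cancel_right hv).1 h)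
      have h2 : u * v⁻¹ ∉ H := fun h => hu ((H.mul_mem_cancel_right (H.inv_mem hv)).1 h)
      rw [if_neg hu, if_pos hv, if_neg h1, if_neg h2]
      norm_num
    · have h := quot3 hQ (QuotientGroup.mk u : G ⧸ H) (QuotientGroup.mk v)
        (fun h => hu ((hq u).2 h)) (fun h => hv ((hq v).2 h))
      have e1 : (QuotientGroup.mk u : G ⧸ H) * QuotientGroup.mk v = QuotientGroup.mk (u * v) := rfl
      have e2 : (QuotientGroup.mk u : G ⧸ H) * (QuotientGroup.mk v)⁻¹ =
        QuotientGroup.mk (u * v⁻¹) := rfl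
      rw [e1, e2] at h
      simp only [ne_eq, ← hq] at h
      rcases h with ⟨h1, h2⟩ | ⟨h1, h2⟩
      · rw [if_neg hu, if_neg hv, if_pos h1, if_neg h2]
        norm_num
      · rw [if_neg hu, if_neg hv, if_neg h1, if_pos h2]
        norm_num

end Grp

end Pool.Agent.Zk86.Q2
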