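import Mathlib
import Pool.Agent.Zk86.Q2.Grp

/-! Elements of a finite field of characteristic two written as `c + c⁻¹`. -/

set_option autoImplicit false
set_option linter.unusedSectionVars false

namespace Pool.Agent.Zk86.Q2

open Finset Polynomial

section Ext

variable {F : Type*} [Field F] [Fintype F] [DecidableEq F] [CharP F 2]

/-- the algebraic closure. -/
abbrev KA (F : Type*) [Field F] := AlgebraicClosure F

theorem mem_of_pow_card (x : KA F) (hx : x ^ Fintype.card F = x) :
    ∃ a : F, algebraMap F (KA F) a = x := by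
  have hs : (X ^ Fintype.card F - X : F[X]).Splits := by
    rw [splits_iff_card_roots, FiniteField.roots_X_pow_card_sub_X, ← Finset.card_def,
      Finset.card_univ, FiniteField.X_pow_card_sub_X_natDegree_eq _ Fintype.one_lt_card]
  have h1 := hs.roots_map (algebraMap F (KA F))
  rw [FiniteField.roots_X_pow_card_sub_X] at h1
  have h2 : x ∈ ((X ^ Fintype.card F - X : F[X]).map (algebraMap F (KA F))).roots := by
    rw [mem_roots']
    constructor
    · rw [Polynomial.map_sub, Polynomial.map_pow, map_X]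
      exact FiniteField.X_pow_card_sub_X_ne_zero _ Fintype.one_lt_card
    · rw [Polynomial.map_sub, Polynomial.map_pow, map_X, IsRoot.def, eval_sub, eval_pow, eval_X,
        hx, sub_self]
  rw [h1, Multiset.mem_map] at h2
  obtain ⟨a, _, ha⟩ := h2
  exact ⟨a, ha⟩

theorem two_pow_card : ∃ n : ℕ, Fintype.card F = 2 ^ n := by
  obtain ⟨n, _, hn⟩ := FiniteField.card F 2
  exact ⟨n, hn⟩

theorem add_pow_card (x y : KA F) :
    (x + y) ^ Fintype.card F = x ^ Fintype.card F + y ^ Fintype.card F := by
  obtain ⟨n, hn⟩ := two_pow_card (F := F)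
  have : CharP (KA F) 2 := charP_of_injective_algebraMap (algebraMap F (KA F)).injective 2
  rw [hn]
  exact add_pow_char_pow x y 2 n

theorem alg_pow_card (a : F) :
    (algebraMap F (KA F) a) ^ Fintype.card F = algebraMap F (KA F) a := by
  rw [← map_pow, FiniteField.pow_card]

theorem exists_c (g : F) : ∃ c : (KA F)ˣ, (c : KA F) + (c : KA F)⁻¹ = algebraMap F (KA F) g := by
  have : CharP (KA F) 2 := charP_of_injective_algebraMap (algebraMap F (KA F)).injective 2
  have hd : (X ^ 2 + C (algebraMap F (KA F) g) * X + 1 : (KA F)[X]).degree ≠ 0 := by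
    have : (X ^ 2 + C (algebraMap F (KA F) g) * X + 1 : (KA F)[X]).degree = 2 := by
      compute_degree!
    rw [this]
    decide
  obtain ⟨c, hc⟩ := IsAlgClosed.exists_root _ hd
  simp only [IsRoot.def, eval_add, eval_pow, eval_X, eval_mul, eval_C, eval_one] at hc
  have hc0 : c ≠ 0 := by
    rintro rfl
    simp at hc
  refine ⟨Units.mk0 c hc0, ?_⟩
  simp only [Units.val_mk0]
  field_simp
  grind

theorem inv_pair (x y : (KA F)ˣ) (h : (x : KA F) + (x : KA F)⁻¹ = (y : KA F) + (y : KA F)⁻¹) :
    x = y ∨ x = y⁻¹ := by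
  have hx := x.ne_zero
  have hy := y.ne_zero
  have h1 : ((x : KA F) - y) * ((x : KA F) * y - 1) = 0 := by
    field_simp at h
    linear_combination h
  rcases mul_eq_zero.1 h1 with h2 | h2
  · left
    ext
    exact sub_eq_zero.1 h2
  · right
    ext
    rw [Units.val_inv_eq_inv_val]
    exact eq_inv_of_mul_eq_one_left (sub_eq_zero.1 h2)

theorem sq_one (x : (KA F)ˣ) (h : x ^ 2 = 1) : x = 1 := by
  have : CharP (KA F) 2 := charP_of_injective_algebraMap (algebraMap F (KA F)).injective 2
  ext
  have h1 : (x : KA F) ^ 2 = 1 := by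
    rw [← Units.val_pow_eq_pow_val, h, Units.val_one]
  have h2 : ((x : KA F) + 1) ^ 2 = 0 := by
    grind
  have h3 := pow_eq_zero_iff (two_ne_zero) |>.1 h2
  rw [Units.val_one]
  grind

theorem frob_c (c : (KA F)ˣ) (g : F) (h : (c : KA F) + (c : KA F)⁻¹ = algebraMap F (KA F) g) :
    c ^ Fintype.card F = c ∨ c ^ Fintype.card F = c⁻¹ := by
  apply inv_pair
  rw [h, ← alg_pow_card, ← h, add_pow_card, Units.val_pow_eq_pow_val, inv_pow]

theorem mem_c (c : (KA F)ˣ) (h : c ^ Fintype.card F = c ∨ c ^ Fintype.card F = c⁻¹) :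
    ∃ g : F, algebraMap F (KA F) g = (c : KA F) + (c : KA F)⁻¹ := by
  apply mem_of_pow_card
  rw [add_pow_card, inv_pow, ← Units.val_pow_eq_pow_val]
  rcases h with h | h
  · rw [h]
  · rw [h, Units.val_inv_eq_inv_val, inv_inv, add_comm]

theorem two_le_card : 2 ≤ Fintype.card F := Fintype.one_lt_card

/-- the group of `c` with `c ^ q = c` (`b = false`) or `c ^ q = c⁻¹` (`b = true`). -/
def ord (F : Type*) [Fintype F] (b : Bool) : ℕ := cond b (Fintype.card F + 1) (Fintype.card F - 1)

theorem mem_ord_true (c : (KA F)ˣ) :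
    c ∈ rootsOfUnity (ord F true) (KA F) ↔ c ^ Fintype.card F = c⁻¹ := by
  rw [mem_rootsOfUnity]
  show c ^ (Fintype.card F + 1) = 1 ↔ _
  rw [pow_succ, mul_eq_one_iff_eq_inv]

theorem mem_ord_false (c : (KA F)ˣ) :
    c ∈ rootsOfUnity (ord F false) (KA F) ↔ c ^ Fintype.card F = c := by
  rw [mem_rootsOfUnity]
  show c ^ (Fintype.card F - 1) = 1 ↔ _
  have h := two_le_card (F := F)
  have h2 : c ^ Fintype.card F = c ^ (Fintype.card F - 1) * c := by
    rw [← pow_succ]; congr 1; omega
  rw [h2]
  exact (mul_eq_right).symm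

instance (b : Bool) : NeZero (ord F b) := ⟨by
  have h := two_le_card (F := F)
  cases b
  · show Fintype.card F - 1 ≠ 0
    omega
  · show Fintype.card F + 1 ≠ 0
    omega⟩

theorem cast_ord (b : Bool) : ((ord F b : ℕ) : KA F) ≠ 0 := by
  have : CharP (KA F) 2 := charP_of_injective_algebraMap (algebraMap F (KA F)).injective 2
  obtain ⟨n, hn⟩ := two_pow_card (F := F)
  have h := two_le_card (F := F)
  have hn0 : n ≠ 0 := by
    rintro rfl
    rw [hn] at h
    norm_num at h
  have hodd : Odd (ord F b) := by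
    have he : Even (Fintype.card F) := by
      rw [hn]
      exact (Nat.even_pow.2 ⟨even_two, hn0⟩)
    cases b
    · show Odd (Fintype.card F - 1)
      exact Nat.Even.sub_odd (by omega) he odd_one
    · show Odd (Fintype.card F + 1)
      exact he.add_one
  rw [Ne, CharP.cast_eq_zero_iff (KA F) 2]
  intro hd
  exact (Nat.not_even_iff_odd.2 hodd) (even_iff_two_dvd.2 hd)

noncomputable instance fintypeRoots (b : Bool) : Fintype (rootsOfUnity (ord F b) (KA F)) :=
  Fintype.ofFinite _

instance cyclicRoots (b : Bool) : IsCyclic (rootsOfUnity (ord F b) (KA F)) :=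
  rootsOfUnity.isCyclic (KA F) (ord F b)

theorem card_roots (b : Bool) : Nat.card (rootsOfUnity (ord F b) (KA F)) = ord F b := by
  have : NeZero ((ord F b : ℕ) : KA F) := ⟨cast_ord b⟩
  exact HasEnoughRootsOfUnity.natCard_rootsOfUnity (KA F) (ord F b)

end Ext

end Pool.Agent.Zk86.Q2
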