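import Mathlib
import Pool.Agent.Zk86.Q2.Ext

/-! Counting solutions of Dickson type equations. -/

set_option autoImplicit false
set_option linter.unusedSectionVars false

namespace Pool.Agent.Zk86.Q2

open Finset Polynomial

section Dick

variable {F : Type*} [Field F] [Fintype F] [DecidableEq F] [CharP F 2]

/-- `g = c + c⁻¹` and `t = c ^ j + c ^ (-j)` for some `c`. -/
def Dk (j : ℕ) (g t : F) : Prop :=
  ∃ c : (KA F)ˣ, (c : KA F) + (c : KA F)⁻¹ = algebraMap F (KA F) g ∧
    ((c ^ j : (KA F)ˣ) : KA F) + ((c ^ j : (KA F)ˣ) : KA F)⁻¹ = algebraMap F (KA F) t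

theorem mem_ord_iff (b : Bool) (c : (KA F)ˣ) (h : c ∈ rootsOfUnity (ord F b) (KA F)) :
    c ^ Fintype.card F = c ∨ c ^ Fintype.card F = c⁻¹ := by
  cases b
  · exact Or.inl ((mem_ord_false c).1 h)
  · exact Or.inr ((mem_ord_true c).1 h)

/-- if `c ^ j` lies in one of the two groups and is not `1`, then `c` lies in the same group. -/
theorem mem_of_pow_mem (b : Bool) (c : (KA F)ˣ)
    (hc : c ^ Fintype.card F = c ∨ c ^ Fintype.card F = c⁻¹) (j : ℕ)
    (hj : c ^ j ∈ rootsOfUnity (ord F b) (KA F)) (h1 : c ^ j ≠ 1) :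
    c ∈ rootsOfUnity (ord F b) (KA F) := by
  cases b
  · rcases hc with h | h
    · exact (mem_ord_false c).2 h
    · exfalso
      apply h1
      apply sq_one
      have h2 := (mem_ord_false _).1 hj
      rw [← pow_mul, mul_comm, pow_mul, h, inv_pow] at h2
      rw [pow_two]
      nth_rewrite 1 [← h2]
      exact inv_mul_cancel _
  · rcases hc with h | h
    · exfalso
      apply h1
      apply sq_one
      have h2 := (mem_ord_true _).1 hj
      rw [← pow_mul, mul_comm, pow_mul, h] at h2
      rw [pow_two]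
      nth_rewrite 1 [h2]
      exact inv_mul_cancel _
    · exact (mem_ord_true c).2 h

open Classical in
theorem card_D (b : Bool) (j : ℕ) (t : F) (w : rootsOfUnity (ord F b) (KA F)) (hw : w ≠ 1)
    (ht : ((w : (KA F)ˣ) : KA F) + ((w : (KA F)ˣ) : KA F)⁻¹ = algebraMap F (KA F) t) :
    (univ.filter fun g : F => Dk j g t).card = rc j w := by
  symm
  unfold rc
  have hmem : ∀ c : rootsOfUnity (ord F b) (KA F), ∃ g : F, algebraMap F (KA F) g =
      ((c : (KA F)ˣ) : KA F) + ((c : (KA F)ˣ) : KA F)⁻¹ := fun c => mem_c _ (mem_ord_iff b _ c.2)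
  have hw1 : (w : (KA F)ˣ) ≠ 1 := fun h => hw (by ext1; exact h)
  refine Finset.card_bij (fun c _ => Classical.choose (hmem c)) ?_ ?_ ?_
  · intro c hc
    simp only [mem_filter, mem_univ, true_and] at hc ⊢
    refine ⟨c, (Classical.choose_spec (hmem c)).symm, ?_⟩
    have : ((c : (KA F)ˣ) ^ j) = w := by rw [← hc]; rfl
    rw [this, ht]
  · intro c hc c' hc' h
    simp only [mem_filter, mem_univ, true_and] at hc hc'
    have h1 := Classical.choose_spec (hmem c)
    have h2 := Classical.choose_spec (hmem c')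
    have h3 : ((c : (KA F)ˣ) : KA F) + ((c : (KA F)ˣ) : KA F)⁻¹ =
        ((c' : (KA F)ˣ) : KA F) + ((c' : (KA F)ˣ) : KA F)⁻¹ := by
      rw [← h1, ← h2]
      exact congrArg _ h
    rcases inv_pair _ _ h3 with h4 | h4
    · exact Subtype.ext h4
    · exfalso
      have h5 : c = c'⁻¹ := Subtype.ext h4
      rw [h5, inv_pow, hc'] at hc
      apply hw1
      apply sq_one
      have : w ^ 2 = 1 := by
        rw [pow_two]
        nth_rewrite 1 [← hc]
        exact inv_mul_cancel _
      have h6 := congrArg (fun x : rootsOfUnity (ord F b) (KA F) => (x : (KA F)ˣ)) this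
      exact h6
  · intro g hg
    simp only [mem_filter, mem_univ, true_and] at hg
    obtain ⟨c, hc1, hc2⟩ := hg
    -- replace `c` by its inverse if needed
    obtain ⟨c, hc1, hc2⟩ : ∃ c : (KA F)ˣ, (c : KA F) + (c : KA F)⁻¹ = algebraMap F (KA F) g ∧
        c ^ j = w := by
      rw [← ht] at hc2
      rcases inv_pair _ _ hc2 with h | h
      · exact ⟨c, hc1, h⟩
      · refine ⟨c⁻¹, ?_, ?_⟩
        · rw [Units.val_inv_eq_inv_val, inv_inv, add_comm, hc1]
        · rw [inv_pow, h, inv_inv]
    have hcm : c ∈ rootsOfUnity (ord F b) (KA F) := by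
      apply mem_of_pow_mem b c (frob_c c g hc1) j
      · rw [hc2]; exact w.2
      · rw [hc2]; exact hw1
    refine ⟨⟨c, hcm⟩, ?_, ?_⟩
    · simp only [mem_filter, mem_univ, true_and]
      exact Subtype.ext hc2
    · apply (algebraMap F (KA F)).injective
      rw [Classical.choose_spec (hmem ⟨c, hcm⟩)]
      exact hc1

/-- number of roots of `y ^ 3 + y = t`. -/
def cub (t : F) : ℕ := (univ.filter fun y : F => y ^ 3 + y = t).card

theorem Dk_three (g t : F) : Dk 3 g t ↔ g ^ 3 + g = t := by
  have : CharP (KA F) 2 := charP_of_injective_algebraMap (algebraMap F (KA F)).injective 2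
  have key : ∀ c : (KA F)ˣ, (c : KA F) + (c : KA F)⁻¹ = algebraMap F (KA F) g →
      ((c ^ 3 : (KA F)ˣ) : KA F) + ((c ^ 3 : (KA F)ˣ) : KA F)⁻¹ =
        algebraMap F (KA F) (g ^ 3 + g) := by
    intro c hc
    have hc0 := c.ne_zero
    rw [map_add, map_pow, ← hc, Units.val_pow_eq_pow_val]
    field_simp
    grind
  constructor
  · rintro ⟨c, hc, hc2⟩
    rw [key c hc] at hc2
    exact (algebraMap F (KA F)).injective hc2
  · intro h
    obtain ⟨c, hc⟩ := exists_c g
    exact ⟨c, hc, by rw [key c hc, h]⟩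

theorem cub_eq (b : Bool) (t : F) (w : rootsOfUnity (ord F b) (KA F)) (hw : w ≠ 1)
    (ht : ((w : (KA F)ˣ) : KA F) + ((w : (KA F)ˣ) : KA F)⁻¹ = algebraMap F (KA F) t) :
    cub t = rc 3 w := by
  classical
  rw [← card_D b 3 t w hw ht]
  unfold cub
  congr 1
  ext g
  simp only [mem_filter, mem_univ, true_and]
  rw [Dk_three]

theorem cub_zero : cub (0 : F) = 2 := by
  unfold cub
  have h01 : (0 : F) ≠ 1 := zero_ne_one
  have : (univ.filter fun y : F => y ^ 3 + y = 0) = {0, 1} := by
    ext y
    simp only [mem_filter, mem_univ, true_and, mem_insert, mem_singleton]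
    constructor
    · intro h
      have h2 : y * (y + 1) ^ 2 = 0 := by grind
      rcases mul_eq_zero.1 h2 with h3 | h3
      · exact Or.inl h3
      · right
        have := pow_eq_zero_iff (two_ne_zero) |>.1 h3
        grind
    · rintro (h | h)
      · rw [h]; ring
      · rw [h]; grind
  rw [this, Finset.card_insert_of_notMem (by simpa using h01), Finset.card_singleton]

end Dick

end Pool.Agent.Zk86.Q2
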