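import Mathlib
import Pool.Agent.Zk86.Q2.Dick
import Pool.Agent.R478.BES.CharSum

/-! The function `nu t = #{y : y ^ 3 + y = t} - 1` on a finite field of characteristic two. -/

set_option autoImplicit false
set_option linter.unusedSectionVars false

namespace Pool.Agent.Zk86.Q2

open Finset Polynomial Pool.Agent.R478.BES

section Nu

variable {F : Type*} [Field F] [Fintype F] [DecidableEq F] [CharP F 2]

theorem sq_inj {x y : F} (h : x ^ 2 = y ^ 2) : x = y := by
  have : (x + y) ^ 2 = 0 := by rw [CharTwo.add_sq, h, CharTwo.add_self_eq_zero]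
  exact CharTwo.add_eq_zero.1 (pow_eq_zero_iff (two_ne_zero) |>.1 this)

theorem sq_surj (x : F) : ∃ a : F, x = a ^ 2 := by
  obtain ⟨a, ha⟩ := (FiniteField.isSquare_of_char_two (ringChar.eq F 2) x)
  exact ⟨a, by rw [ha, sq]⟩

theorem sq_bij : Function.Bijective (fun x : F => x ^ 2) :=
  ⟨fun _ _ h => sq_inj h, fun x => by obtain ⟨a, ha⟩ := sq_surj x; exact ⟨a, ha.symm⟩⟩

variable (e : AddChar F ℂ)

theorem count_as (hne : e ≠ 1) (hsq : ∀ x, e (x ^ 2) = e x) (s : F) :
    ∑ v : F, (if v ^ 2 + v = s then (1 : ℂ) else 0) = 1 + e s := by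
  have hq : (Fintype.card F : ℂ) ≠ 0 := by
    exact_mod_cast Fintype.card_ne_zero
  have h1 : ∀ v : F, (Fintype.card F : ℂ) * (if v ^ 2 + v = s then (1 : ℂ) else 0) =
      ∑ a : F, e (a * (v ^ 2 + v + s)) := by
    intro v
    have := sum_e e hne (v ^ 2 + v + s)
    simp_rw [mul_comm] at this ⊢
    rw [this]
    have h2 : (v ^ 2 + v + s = 0) ↔ (v ^ 2 + v = s) := CharTwo.add_eq_zero
    simp only [h2]
    split_ifs <;> simp
  have h3 : (Fintype.card F : ℂ) * ∑ v : F, (if v ^ 2 + v = s then (1 : ℂ) else 0) =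
      (Fintype.card F : ℂ) * (1 + e s) := by
    rw [Finset.mul_sum, Finset.sum_congr rfl fun v _ => h1 v, Finset.sum_comm]
    have h4 : ∑ a : F, ∑ v : F, e (a * (v ^ 2 + v + s)) =
        ∑ b : F, ∑ v : F, e (b ^ 2 * (v ^ 2 + v + s)) := by
      symm
      exact Function.Bijective.sum_comp sq_bij (fun a : F => ∑ v : F, e (a * (v ^ 2 + v + s)))
    rw [h4]
    have h5 : ∀ b : F, ∑ v : F, e (b ^ 2 * (v ^ 2 + v + s)) =
        e (b ^ 2 * s) * (if b = 0 ∨ b = 1 then (Fintype.card F : ℂ) else 0) := by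
      intro b
      have h6 : ∀ v : F, e (b ^ 2 * (v ^ 2 + v + s)) = e (b ^ 2 * s) * e ((b + b ^ 2) * v) := by
        intro v
        have e1 : b ^ 2 * (v ^ 2 + v + s) = b ^ 2 * s + ((b * v) ^ 2 + b ^ 2 * v) := by ring
        rw [e1, AddChar.map_add_eq_mul, AddChar.map_add_eq_mul e ((b * v) ^ 2), hsq,
          ← AddChar.map_add_eq_mul]
        congr 2; ring
      rw [Finset.sum_congr rfl fun v _ => h6 v, ← Finset.mul_sum, sum_e e hne]
      have h7 : (b + b ^ 2 = 0) ↔ (b = 0 ∨ b = 1) := by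
        constructor
        · intro h
          have : b * (b + 1) = 0 := by rw [← h]; ring
          rcases mul_eq_zero.1 this with h | h
          · exact Or.inl h
          · exact Or.inr (CharTwo.add_eq_zero.1 h)
        · rintro (h | h)
          · rw [h]; ring
          · rw [h]; grind
      simp only [h7]
    rw [Finset.sum_congr rfl fun b _ => h5 b]
    have h8 : ∀ b : F, e (b ^ 2 * s) * (if b = 0 ∨ b = 1 then (Fintype.card F : ℂ) else 0) =
        (if b = 0 then (Fintype.card F : ℂ) else 0) +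
          (if b = 1 then (Fintype.card F : ℂ) * e s else 0) := by
      intro b
      by_cases h0 : b = 0
      · subst h0; simp
      · by_cases h1 : b = 1
        · subst h1; simp [mul_comm]
        · simp [h0, h1]
    rw [Finset.sum_congr rfl fun b _ => h8 b, Finset.sum_add_distrib]
    simp only [Finset.sum_ite_eq', mem_univ, if_true]
    ring
  exact mul_left_cancel₀ hq h3

theorem exists_as (hne : e ≠ 1) (hsq : ∀ x, e (x ^ 2) = e x) (s : F) (hs : e s = 1) :
    ∃ v : F, v ^ 2 + v = s := by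
  by_contra h
  push Not at h
  have := count_as e hne hsq s
  rw [Finset.sum_eq_zero (fun v _ => if_neg (h v)), hs] at this
  norm_num at this

theorem e_as (hsq : ∀ x, e (x ^ 2) = e x) (v : F) : e (v ^ 2 + v) = 1 := by
  rw [AddChar.map_add_eq_mul, hsq, e_self]

/-- two arguments that differ by `h ^ 2 + h` have equal character values. -/
theorem e_congr (hsq : ∀ x, e (x ^ 2) = e x) (h u v : F) (huv : u + v = h ^ 2 + h) :
    e u = e v := by
  have h1 : u = v + (h ^ 2 + h) := by grind
  rw [h1, AddChar.map_add_eq_mul, e_as e hsq, mul_one]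

theorem split_true (hne : e ≠ 1) (hsq : ∀ x, e (x ^ 2) = e x) (t : F) (ht : t ≠ 0)
    (he : e t⁻¹ = 1) (w : (KA F)ˣ) (hw : (w : KA F) + (w : KA F)⁻¹ = algebraMap F (KA F) t) :
    w ∈ rootsOfUnity (ord F false) (KA F) := by
  rw [mem_ord_false]
  obtain ⟨v, hv⟩ := exists_as e hne hsq ((t⁻¹) ^ 2) (by rw [hsq, he])
  have hw0 : t * v ≠ 0 := by
    intro h
    have : v = 0 := (mul_eq_zero.1 h).resolve_left ht
    rw [this] at hv
    have h2 : (t⁻¹) ^ 2 = 0 := by rw [← hv]; ring
    exact inv_ne_zero ht (pow_eq_zero_iff (two_ne_zero) |>.1 h2)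
  have hw1 : (t * v) + (t * v)⁻¹ = t := by
    have h3 : (t * v) ^ 2 + t * (t * v) = 1 := by
      have : (t * v) ^ 2 + t * (t * v) = t ^ 2 * (v ^ 2 + v) := by ring
      rw [this, hv, ← mul_pow, mul_inv_cancel₀ ht, one_pow]
    field_simp
    grind
  have hK0 : algebraMap F (KA F) (t * v) ≠ 0 := by
    rw [Ne, map_eq_zero]; exact hw0
  have h4 : (w : KA F) + (w : KA F)⁻¹ =
      ((Units.mk0 _ hK0 : (KA F)ˣ) : KA F) + ((Units.mk0 _ hK0 : (KA F)ˣ) : KA F)⁻¹ := by
    rw [hw, Units.val_mk0, ← map_inv₀, ← map_add, hw1]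
  have h5 : (Units.mk0 _ hK0 : (KA F)ˣ) ^ Fintype.card F = Units.mk0 _ hK0 := by
    ext
    rw [Units.val_pow_eq_pow_val, Units.val_mk0, alg_pow_card]
  rcases inv_pair _ _ h4 with h | h
  · rw [h, h5]
  · rw [h, inv_pow, h5]

theorem split_false (hne : e ≠ 1) (hsq : ∀ x, e (x ^ 2) = e x) (t : F) (ht : t ≠ 0)
    (he : e t⁻¹ = -1) (w : (KA F)ˣ) (hw : (w : KA F) + (w : KA F)⁻¹ = algebraMap F (KA F) t) :
    w ∈ rootsOfUnity (ord F true) (KA F) := by
  rw [mem_ord_true]
  rcases frob_c w t hw with h | h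
  · exfalso
    have h1 : (w : KA F) ^ Fintype.card F = w := by
      rw [← Units.val_pow_eq_pow_val, h]
    obtain ⟨a, ha⟩ := mem_of_pow_card (w : KA F) h1
    have ha0 : a ≠ 0 := by
      rintro rfl
      rw [map_zero] at ha
      exact w.ne_zero ha.symm
    have h2 : a + a⁻¹ = t := by
      apply (algebraMap F (KA F)).injective
      rw [map_add, map_inv₀, ha, hw]
    have h3 : (a / t) ^ 2 + a / t = (t⁻¹) ^ 2 := by
      rw [← h2]
      have h4 : a + a⁻¹ ≠ 0 := by rw [h2]; exact ht
      field_simp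
      have h5 : a ^ 2 + 1 ≠ 0 := by
        intro h6
        apply h4
        field_simp
        rw [mul_zero]
        exact h6
      field_simp
      grind
    have h4 := e_as e hsq (a / t)
    rw [h3, hsq, he] at h4
    norm_num at h4
  · exact h

/-- the class function `nu`. -/
noncomputable def nu (t : F) : ℂ := (cub t : ℂ) - 1

theorem nu_zero : nu (0 : F) = 1 := by
  unfold nu
  rw [cub_zero]; norm_num

theorem nu_equiv (φ : F ≃+* F) (t : F) : nu (φ t) = nu t := by
  unfold nu cub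
  congr 2
  symm
  refine Finset.card_bij (fun y _ => φ y) ?_ ?_ ?_
  · intro y hy
    simp only [mem_filter, mem_univ, true_and] at hy ⊢
    rw [← map_pow, ← map_add, hy]
  · intro y _ y' _ h
    exact φ.injective h
  · intro y hy
    simp only [mem_filter, mem_univ, true_and] at hy
    refine ⟨φ.symm y, ?_, by simp⟩
    simp only [mem_filter, mem_univ, true_and]
    apply φ.injective
    rw [map_add, map_pow, RingEquiv.apply_symm_apply, hy]

theorem nu_sq (t : F) : nu (t ^ 2) = nu t := by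
  have h := nu_equiv (frobeniusEquiv F 2) t
  rw [frobeniusEquiv_def] at h
  exact h

theorem nu_conj (t : F) : (starRingEnd ℂ) (nu t) = nu t := by
  unfold nu
  rw [map_sub, map_natCast, map_one]

theorem nu_sum : ∑ t : F, nu t = 0 := by
  unfold nu
  rw [Finset.sum_sub_distrib]
  have h : ∑ t : F, (cub t : ℂ) = Fintype.card F := by
    rw [← Nat.cast_sum]
    congr 1
    unfold cub
    have := Finset.card_eq_sum_card_fiberwise (f := fun y : F => y ^ 3 + y) (s := univ)
      (t := univ) (fun _ _ => Finset.mem_univ _)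
    rw [Finset.card_univ] at this
    exact this.symm
  rw [h]
  simp

theorem gcd_false (h3 : Fintype.card F % 3 = 2) : (Nat.card (rootsOfUnity (ord F false) (KA F))).gcd 3 = 1 := by
  rw [card_roots]
  show (Fintype.card F - 1).gcd 3 = 1
  have : ¬ (3 ∣ Fintype.card F - 1) := by omega
  rw [Nat.gcd_comm]
  exact (Nat.Prime.coprime_iff_not_dvd Nat.prime_three).2 this

theorem dvd_true (h3 : Fintype.card F % 3 = 2) : 3 ∣ Nat.card (rootsOfUnity (ord F true) (KA F)) := by
  rw [card_roots]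
  show 3 ∣ Fintype.card F + 1
  omega

theorem w_ne_one (b : Bool) (t : F) (ht : t ≠ 0) (w : rootsOfUnity (ord F b) (KA F))
    (hw : ((w : (KA F)ˣ) : KA F) + ((w : (KA F)ˣ) : KA F)⁻¹ = algebraMap F (KA F) t) : w ≠ 1 := by
  have : CharP (KA F) 2 := charP_of_injective_algebraMap (algebraMap F (KA F)).injective 2
  rintro rfl
  apply ht
  apply (algebraMap F (KA F)).injective
  rw [← hw, map_zero, OneMemClass.coe_one, Units.val_one, inv_one, CharTwo.add_self_eq_zero]

theorem nu_split (hne : e ≠ 1) (hsq : ∀ x, e (x ^ 2) = e x) (h3 : Fintype.card F % 3 = 2) (t : F)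
    (ht : t ≠ 0) (he : e t⁻¹ = 1) : nu t = 0 := by
  obtain ⟨w, hw⟩ := exists_c t
  have hm := split_true e hne hsq t ht he w hw
  have h := cub_eq false t ⟨w, hm⟩ (w_ne_one false t ht ⟨w, hm⟩ hw) hw
  rw [rc_coprime 3 (gcd_false h3)] at h
  unfold nu
  rw [h]; norm_num

/-- on values of the second type `nu` is computed in the group of order `q + 1`. -/
theorem nu_nonsplit (t : F) (ht : t ≠ 0) (w : rootsOfUnity (ord F true) (KA F))
    (hw : ((w : (KA F)ˣ) : KA F) + ((w : (KA F)ˣ) : KA F)⁻¹ = algebraMap F (KA F) t) :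
    nu t = (rc 3 w : ℂ) - 1 := by
  unfold nu
  rw [cub_eq true t w (w_ne_one true t ht w hw) hw]

end Nu

end Pool.Agent.Zk86.Q2
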