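import Mathlib
import Pool.Agent.Zk86.Q2.Nu
import Pool.Agent.R478.BES.Final

/-! The product formula for `nu`. -/

set_option autoImplicit false
set_option linter.unusedSectionVars false

namespace Pool.Agent.Zk86.Q2

open Finset Polynomial Pool.Agent.R478.BES

section PF

variable {F : Type*} [Field F] [Fintype F] [DecidableEq F] [CharP F 2]

variable (e : AddChar F ℂ)

theorem pf_zero (B : F) : nu (0 : F) * nu B =
    ∑ C : F, (if C ^ 2 + 0 * B * C + 0 ^ 2 + B ^ 2 = 0 then nu C else 0) := by
  have h : ∀ C : F, (C ^ 2 + 0 * B * C + 0 ^ 2 + B ^ 2 = 0) ↔ C = B := by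
    intro C
    constructor
    · intro h
      apply sq_inj
      have : C ^ 2 + B ^ 2 = 0 := by rw [← h]; ring
      exact CharTwo.add_eq_zero.1 this
    · rintro rfl
      grind
  simp only [h]
  rw [Finset.sum_ite_eq' Finset.univ B nu, if_pos (mem_univ _), nu_zero, one_mul]

theorem pf_roots (A B : F) (w1 w2 : (KA F)ˣ)
    (h1 : (w1 : KA F) + (w1 : KA F)⁻¹ = algebraMap F (KA F) A)
    (h2 : (w2 : KA F) + (w2 : KA F)⁻¹ = algebraMap F (KA F) B) (C : F) :
    (C ^ 2 + A * B * C + A ^ 2 + B ^ 2 = 0) ↔
      (algebraMap F (KA F) C = ((w1 * w2 : (KA F)ˣ) : KA F) + ((w1 * w2 : (KA F)ˣ) : KA F)⁻¹ ∨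
        algebraMap F (KA F) C =
          ((w1 * w2⁻¹ : (KA F)ˣ) : KA F) + ((w1 * w2⁻¹ : (KA F)ˣ) : KA F)⁻¹) := by
  have hc : CharP (KA F) 2 := charP_of_injective_algebraMap (algebraMap F (KA F)).injective 2
  have hw1 := w1.ne_zero
  have hw2 := w2.ne_zero
  rw [← (algebraMap F (KA F)).injective.eq_iff]
  simp only [map_add, map_mul, map_pow, map_zero, ← h1, ← h2, Units.val_mul,
    Units.val_inv_eq_inv_val]
  generalize algebraMap F (KA F) C = X
  generalize (w1 : KA F) = a at *
  generalize (w2 : KA F) = b at *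
  have key : X ^ 2 + (a + a⁻¹) * (b + b⁻¹) * X + (a + a⁻¹) ^ 2 + (b + b⁻¹) ^ 2 =
      (X + (a * b + (a * b)⁻¹)) * (X + (a * b⁻¹ + (a * b⁻¹)⁻¹)) := by
    field_simp
    grind
  rw [key, mul_eq_zero, CharTwo.add_eq_zero, CharTwo.add_eq_zero]

theorem pf (hne : e ≠ 1) (hsq : ∀ x, e (x ^ 2) = e x) (h3 : Fintype.card F % 3 = 2) (A B : F) :
    nu A * nu B = ∑ C : F, (if C ^ 2 + A * B * C + A ^ 2 + B ^ 2 = 0 then nu C else 0) -
      (if A = B ∧ A ≠ 0 then e A⁻¹ else 0) := by
  have hc : CharP (KA F) 2 := charP_of_injective_algebraMap (algebraMap F (KA F)).injective 2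
  by_cases hA : A = 0
  · subst hA
    rw [pf_zero B]
    simp
  by_cases hB : B = 0
  · subst hB
    rw [mul_comm, pf_zero A]
    have : ¬ (A = 0 ∧ A ≠ 0) := fun h => h.2 h.1
    rw [if_neg this, sub_zero]
    refine Finset.sum_congr rfl fun C _ => ?_
    have h : (C ^ 2 + 0 * A * C + 0 ^ 2 + A ^ 2 = 0) ↔ (C ^ 2 + A * 0 * C + A ^ 2 + 0 ^ 2 = 0) := by
      have : C ^ 2 + 0 * A * C + 0 ^ 2 + A ^ 2 = C ^ 2 + A * 0 * C + A ^ 2 + 0 ^ 2 := by ring
      rw [this]
    simp only [h]
  obtain ⟨w1, hw1⟩ := exists_c A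
  obtain ⟨w2, hw2⟩ := exists_c B
  have hroots := pf_roots A B w1 w2 hw1 hw2
  have hAB : A * B ≠ 0 := mul_ne_zero hA hB
  rcases e_pm e A⁻¹ with heA | heA
  · -- `A` split
    rw [nu_split e hne hsq h3 A hA heA, zero_mul]
    rcases e_pm e B⁻¹ with heB | heB
    · -- both split
      have hm1 := split_true e hne hsq A hA heA w1 hw1
      have hm2 := split_true e hne hsq B hB heB w2 hw2
      have hz : ∀ C : F, (if C ^ 2 + A * B * C + A ^ 2 + B ^ 2 = 0 then nu C else 0) =
          if C = 0 then (if A = B then (1 : ℂ) else 0) else 0 := by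
        intro C
        by_cases hC : C = 0
        · subst hC
          rw [if_pos rfl, nu_zero]
          have : (0 ^ 2 + A * B * 0 + A ^ 2 + B ^ 2 = 0) ↔ A = B := by
            constructor
            · intro h
              apply sq_inj
              have : A ^ 2 + B ^ 2 = 0 := by rw [← h]; ring
              exact CharTwo.add_eq_zero.1 this
            · rintro rfl
              grind
          simp only [this]
        · rw [if_neg hC]
          split_ifs with h
          · apply nu_split e hne hsq h3 C hC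
            rcases e_pm e C⁻¹ with heC | heC
            · exact heC
            · exfalso
              -- the element `w` with `w + w⁻¹ = C` lies in both groups
              have hcon : ∀ w : (KA F)ˣ, w ∈ rootsOfUnity (ord F false) (KA F) →
                  algebraMap F (KA F) C = (w : KA F) + (w : KA F)⁻¹ → False := by
                intro w hwm hwC
                have h5 := split_false e hne hsq C hC heC w hwC.symm
                rw [mem_ord_false] at hwm
                rw [mem_ord_true, hwm] at h5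
                have h6 : w = 1 := by
                  apply sq_one
                  rw [pow_two]
                  nth_rewrite 1 [h5]
                  exact inv_mul_cancel _
                rw [h6, Units.val_one, inv_one, CharTwo.add_self_eq_zero] at hwC
                exact hC ((map_eq_zero _).1 hwC)
              rcases (hroots C).1 h with h7 | h7
              · exact hcon _ (mul_mem hm1 hm2) h7
              · exact hcon _ (mul_mem hm1 (inv_mem hm2)) h7
          · rfl
      rw [Finset.sum_congr rfl fun C _ => hz C]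
      simp only [Finset.sum_ite_eq', mem_univ, if_true]
      by_cases h : A = B
      · rw [if_pos h, if_pos ⟨h, hA⟩, heA, sub_self]
      · rw [if_neg h, if_neg (fun h' => h h'.1), sub_self]
    · -- mixed
      have hne' : A ≠ B := by
        rintro rfl
        rw [heA] at heB
        norm_num at heB
      rw [if_neg (fun h => hne' h.1), sub_zero]
      symm
      apply Finset.sum_eq_zero
      intro C _
      rw [if_neg]
      intro h
      have h5 : (C / (A * B)) ^ 2 + C / (A * B) = (A⁻¹ + B⁻¹) ^ 2 := by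
        field_simp
        grind
      have h6 := e_as e hsq (C / (A * B))
      rw [h5, hsq, AddChar.map_add_eq_mul, heA, heB] at h6
      norm_num at h6
  · rcases e_pm e B⁻¹ with heB | heB
    · rw [nu_split e hne hsq h3 B hB heB, mul_zero]
      have hne' : A ≠ B := by
        rintro rfl
        rw [heA] at heB
        norm_num at heB
      rw [if_neg (fun h => hne' h.1), sub_zero]
      symm
      apply Finset.sum_eq_zero
      intro C _
      rw [if_neg]
      intro h
      have h5 : (C / (A * B)) ^ 2 + C / (A * B) = (A⁻¹ + B⁻¹) ^ 2 := by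
        field_simp
        grind
      have h6 := e_as e hsq (C / (A * B))
      rw [h5, hsq, AddChar.map_add_eq_mul, heA, heB] at h6
      norm_num at h6
    · -- both nonsplit
      have hm1 := split_false e hne hsq A hA heA w1 hw1
      have hm2 := split_false e hne hsq B hB heB w2 hw2
      by_cases hAeqB : A = B
      · subst hAeqB
        rw [if_pos ⟨rfl, hA⟩, heA]
        have hA2 : A ^ 2 ≠ 0 := pow_ne_zero 2 hA
        have hz : ∀ C : F, (if C ^ 2 + A * A * C + A ^ 2 + A ^ 2 = 0 then nu C else 0) =
            (if C = 0 then (1 : ℂ) else 0) + (if C = A ^ 2 then nu C else 0) := by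
          intro C
          by_cases hC : C = 0
          · subst hC
            rw [if_pos rfl, if_neg (Ne.symm hA2), if_pos (by grind), nu_zero, add_zero]
          · rw [if_neg hC, zero_add]
            have : (C ^ 2 + A * A * C + A ^ 2 + A ^ 2 = 0) ↔ C = A ^ 2 := by
              constructor
              · intro h
                have h8 : C * (C + A ^ 2) = 0 := by grind
                exact CharTwo.add_eq_zero.1 ((mul_eq_zero.1 h8).resolve_left hC)
              · rintro rfl
                grind
            simp only [this]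
        rw [Finset.sum_congr rfl fun C _ => hz C, Finset.sum_add_distrib]
        simp only [Finset.sum_ite_eq', mem_univ, if_true]
        rw [nu_sq]
        have hn1 := nu_nonsplit A hA ⟨w1, hm1⟩ hw1
        have hww : (((⟨w1, hm1⟩ * ⟨w1, hm1⟩ : rootsOfUnity (ord F true) (KA F)) : (KA F)ˣ) : KA F) +
            (((⟨w1, hm1⟩ * ⟨w1, hm1⟩ : rootsOfUnity (ord F true) (KA F)) : (KA F)ˣ) : KA F)⁻¹ =
            algebraMap F (KA F) (A ^ 2) := by
          show ((w1 * w1 : (KA F)ˣ) : KA F) + ((w1 * w1 : (KA F)ˣ) : KA F)⁻¹ = _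
          rw [map_pow, ← hw1, Units.val_mul]
          have := w1.ne_zero
          field_simp
          grind
        have hn2 := nu_nonsplit (A ^ 2) hA2 _ hww
        have hr := rc_mul (dvd_true (F := F) h3) ⟨w1, hm1⟩ ⟨w1, hm1⟩
        rw [mul_inv_cancel, rc_mem 3 1 (one_mem _), Nat.gcd_eq_right (dvd_true (F := F) h3)] at hr
        rw [nu_sq] at hn2
        have hr2 : ((rc 3 (⟨w1, hm1⟩ : rootsOfUnity (ord F true) (KA F)) : ℂ) - 1) *
            ((rc 3 (⟨w1, hm1⟩ : rootsOfUnity (ord F true) (KA F)) : ℂ) - 1) =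
            (rc 3 (⟨w1, hm1⟩ * ⟨w1, hm1⟩ : rootsOfUnity (ord F true) (KA F)) : ℂ) + 3 - 2 := by
          exact_mod_cast hr
        rw [← hn1] at hr2
        rw [hr2]
        linear_combination -hn2
      · rw [if_neg (fun h => hAeqB h.1), sub_zero]
        set u1 : rootsOfUnity (ord F true) (KA F) := ⟨w1, hm1⟩ with hu1
        set u2 : rootsOfUnity (ord F true) (KA F) := ⟨w2, hm2⟩ with hu2
        obtain ⟨C1, hC1⟩ := mem_c _ (mem_ord_iff true _ (u1 * u2).2)
        obtain ⟨C2, hC2⟩ := mem_c _ (mem_ord_iff true _ (u1 * u2⁻¹).2)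
        have r1 : C1 ^ 2 + A * B * C1 + A ^ 2 + B ^ 2 = 0 := (hroots C1).2 (Or.inl hC1)
        have r2 : C2 ^ 2 + A * B * C2 + A ^ 2 + B ^ 2 = 0 := (hroots C2).2 (Or.inr hC2)
        have hAB2 : A ^ 2 + B ^ 2 ≠ 0 := by
          intro h
          exact hAeqB (sq_inj (CharTwo.add_eq_zero.1 h))
        have hC10 : C1 ≠ 0 := by
          rintro rfl
          apply hAB2
          rw [← r1]; ring
        have hC20 : C2 ≠ 0 := by
          rintro rfl
          apply hAB2
          rw [← r2]; ring
        have hiff : ∀ C : F, (C ^ 2 + A * B * C + A ^ 2 + B ^ 2 = 0) ↔ (C = C1 ∨ C = C2) := by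
          intro C
          rw [hroots C]
          have e1 : (algebraMap F (KA F) C = ((w1 * w2 : (KA F)ˣ) : KA F) +
              ((w1 * w2 : (KA F)ˣ) : KA F)⁻¹) ↔ C = C1 := by
            rw [show ((w1 * w2 : (KA F)ˣ) : KA F) + ((w1 * w2 : (KA F)ˣ) : KA F)⁻¹ =
              algebraMap F (KA F) C1 from hC1.symm]
            exact (algebraMap F (KA F)).injective.eq_iff
          have e2 : (algebraMap F (KA F) C = ((w1 * w2⁻¹ : (KA F)ˣ) : KA F) +
              ((w1 * w2⁻¹ : (KA F)ˣ) : KA F)⁻¹) ↔ C = C2 := by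
            rw [show ((w1 * w2⁻¹ : (KA F)ˣ) : KA F) + ((w1 * w2⁻¹ : (KA F)ˣ) : KA F)⁻¹ =
              algebraMap F (KA F) C2 from hC2.symm]
            exact (algebraMap F (KA F)).injective.eq_iff
          rw [e1, e2]
        have hC12 : C1 ≠ C2 := by
          rintro rfl
          -- a double root would force `A * B = 0`
          have hs : ((w1 * w2 : (KA F)ˣ) : KA F) + ((w1 * w2 : (KA F)ˣ) : KA F)⁻¹ =
              ((w1 * w2⁻¹ : (KA F)ˣ) : KA F) + ((w1 * w2⁻¹ : (KA F)ˣ) : KA F)⁻¹ := by
            rw [show ((w1 * w2 : (KA F)ˣ) : KA F) + ((w1 * w2 : (KA F)ˣ) : KA F)⁻¹ =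
              algebraMap F (KA F) C1 from hC1.symm]
            exact hC2
          have h9 : algebraMap F (KA F) (A * B) = 0 := by
            have hw10 := w1.ne_zero
            have hw20 := w2.ne_zero
            rw [map_mul, ← hw1, ← hw2]
            rw [Units.val_mul, Units.val_mul, Units.val_inv_eq_inv_val] at hs
            field_simp at hs ⊢
            grind
          exact hAB ((map_eq_zero _).1 h9)
        have hz : ∀ C : F, (if C ^ 2 + A * B * C + A ^ 2 + B ^ 2 = 0 then nu C else 0) =
            (if C = C1 then nu C else 0) + (if C = C2 then nu C else 0) := by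
          intro C
          simp only [hiff]
          by_cases h : C = C1
          · subst h
            simp [hC12]
          · simp [h]
        rw [Finset.sum_congr rfl fun C _ => hz C, Finset.sum_add_distrib]
        simp only [Finset.sum_ite_eq', mem_univ, if_true]
        rw [nu_nonsplit A hA u1 hw1, nu_nonsplit B hB u2 hw2,
          nu_nonsplit C1 hC10 (u1 * u2) hC1.symm, nu_nonsplit C2 hC20 (u1 * u2⁻¹) hC2.symm]
        have hr := rc_mul (dvd_true (F := F) h3) u1 u2
        have hr2 : ((rc 3 u1 : ℂ) - 1) * ((rc 3 u2 : ℂ) - 1) =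
            (rc 3 (u1 * u2) : ℂ) + rc 3 (u1 * u2⁻¹) - 2 := by
          exact_mod_cast hr
        rw [hr2]
        ring

/-- the product formula in square root form. -/
theorem pfs (hne : e ≠ 1) (hsq : ∀ x, e (x ^ 2) = e x) (h3 : Fintype.card F % 3 = 2) (A B D : F)
    (hD : D ^ 2 = A * B) :
    nu A * nu B = ∑ C : F, (if C ^ 2 + D * C + (A + B) = 0 then nu C else 0) -
      (if A = B ∧ A ≠ 0 then e A⁻¹ else 0) := by
  rw [pf e hne hsq h3 A B]
  congr 1
  symm
  refine Fintype.sum_bijective (fun x : F => x ^ 2) sq_bij _ _ fun x => ?_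
  rw [nu_sq]
  have h : (x ^ 2 + D * x + (A + B) = 0) ↔
      ((x ^ 2) ^ 2 + A * B * x ^ 2 + A ^ 2 + B ^ 2 = 0) := by
    have e1 : (x ^ 2) ^ 2 + A * B * x ^ 2 + A ^ 2 + B ^ 2 = (x ^ 2 + D * x + (A + B)) ^ 2 := by
      rw [← hD]; grind
    rw [e1, pow_eq_zero_iff two_ne_zero]
  simp only [h]

end PF

end Pool.Agent.Zk86.Q2
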