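import Mathlib
import Pool.Agent.Zk86.Q2.PF

/-! Character sums with `nu`. -/

set_option autoImplicit false
set_option linter.unusedSectionVars false

namespace Pool.Agent.Zk86.Q2

open Finset Pool.Agent.R478.BES

section Sums

variable {F : Type*} [Field F] [Fintype F] [DecidableEq F] [CharP F 2]

variable (e : AddChar F ℂ)

/-- number of roots of a quadratic polynomial. -/
theorem count_quad (hne : e ≠ 1) (hsq : ∀ x, e (x ^ 2) = e x) (a b c : F) :
    ∑ v : F, (if a * v ^ 2 + b * v + c = 0 then (1 : ℂ) else 0) =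
      1 + (if b ≠ 0 then e (a * c / b ^ 2) else 0) - (if a = 0 then 1 else 0) +
        (if a = 0 ∧ b = 0 ∧ c = 0 then (Fintype.card F : ℂ) else 0) := by
  by_cases hb : b = 0
  · subst hb
    by_cases ha : a = 0
    · subst ha
      by_cases hc : c = 0
      · subst hc; simp
      · simp [hc]
    · simp only [ne_eq, not_true_eq_false, if_false, ha, false_and]
      have h : ∀ v : F, (a * v ^ 2 + 0 * v + c = 0) ↔ v ^ 2 = c / a := by
        intro v
        constructor
        · intro h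
          field_simp
          grind
        · intro h
          rw [h]
          field_simp
          grind
      simp only [h]
      obtain ⟨r, hr⟩ := sq_surj (c / a)
      have h2 : ∀ v : F, (v ^ 2 = c / a) ↔ v = r := by
        intro v
        rw [hr]
        exact ⟨fun h => sq_inj h, fun h => by rw [h]⟩
      simp only [h2, Finset.sum_ite_eq', mem_univ, if_true]
      norm_num
  · by_cases ha : a = 0
    · subst ha
      simp only [ne_eq, hb, not_false_eq_true, if_true, zero_mul, zero_div, zero_add,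
        AddChar.map_zero_eq_one, false_and, and_false, if_false, add_zero]
      have h : ∀ v : F, (b * v + c = 0) ↔ v = c / b := by
        intro v
        constructor
        · intro h
          field_simp
          grind
        · intro h
          rw [h]
          field_simp
          grind
      simp only [h, Finset.sum_ite_eq', mem_univ, if_true]
      norm_num
    · simp only [ne_eq, hb, not_false_eq_true, if_true, ha, false_and, if_false, sub_zero,
        add_zero]
      have h : ∑ v : F, (if a * v ^ 2 + b * v + c = 0 then (1 : ℂ) else 0) =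
          ∑ u : F, (if u ^ 2 + u = a * c / b ^ 2 then (1 : ℂ) else 0) := by
        have hab : a / b ≠ 0 := div_ne_zero ha hb
        refine Fintype.sum_equiv (Equiv.mulLeft₀ (a / b) hab) _ _ fun v => ?_
        simp only [Equiv.mulLeft₀_apply]
        have h2 : (a * v ^ 2 + b * v + c = 0) ↔ ((a / b * v) ^ 2 + a / b * v = a * c / b ^ 2) := by
          have h3 : (a / b * v) ^ 2 + a / b * v = a / b ^ 2 * (a * v ^ 2 + b * v) := by
            field_simp
          have h4 : a * c / b ^ 2 = a / b ^ 2 * c := by ring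
          have h5 : a / b ^ 2 ≠ 0 := div_ne_zero ha (pow_ne_zero 2 hb)
          rw [h3, h4, mul_right_inj' h5, CharTwo.add_eq_zero]
        simp only [h2]
      rw [h, count_as e hne hsq]

/-- the values over the zeros of `Y`. -/
theorem fibre_zero (hne : e ≠ 1) (hsq : ∀ x, e (x ^ 2) = e x) (h3 : Fintype.card F % 3 = 2)
    (p r : F) :
    ∑ C : F, (if p * r * C + (p ^ 2 + r ^ 2) = 0 then nu C else 0) =
      if p ≠ 0 ∧ p = r then (1 : ℂ) else 0 := by
  by_cases hp : p = 0
  · subst hp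
    simp only [ne_eq, not_true_eq_false, false_and, if_false]
    by_cases hr : r = 0
    · subst hr
      simp [nu_sum]
    · apply Finset.sum_eq_zero
      intro C _
      rw [if_neg]
      simpa using hr
  · by_cases hr : r = 0
    · subst hr
      simp only [ne_eq, hp, not_false_eq_true, and_false, if_false]
      apply Finset.sum_eq_zero
      intro C _
      rw [if_neg]
      simpa using hp
    · have hpr : p * r ≠ 0 := mul_ne_zero hp hr
      have h : ∀ C : F, (p * r * C + (p ^ 2 + r ^ 2) = 0) ↔ C = (p ^ 2 + r ^ 2) / (p * r) := by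
        intro C
        constructor
        · intro h
          field_simp
          grind
        · intro h
          rw [h]
          field_simp
          grind
      simp only [h, Finset.sum_ite_eq', mem_univ, if_true, ne_eq, hp, not_false_eq_true, true_and]
      by_cases hpe : p = r
      · subst hpe
        rw [if_pos rfl, CharTwo.add_self_eq_zero, zero_div, nu_zero]
      · rw [if_neg hpe]
        have hs : p ^ 2 + r ^ 2 ≠ 0 := by
          intro h0
          exact hpe (sq_inj (CharTwo.add_eq_zero.1 h0))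
        have hs1 : p + r ≠ 0 := fun h0 => hpe (CharTwo.add_eq_zero.1 h0)
        apply nu_split e hne hsq h3 _ (div_ne_zero hs hpr)
        have h5 : ((p ^ 2 + r ^ 2) / (p * r))⁻¹ = (p / (p + r)) ^ 2 + p / (p + r) := by
          have : p ^ 2 + r ^ 2 = (p + r) ^ 2 := by grind
          rw [this]
          field_simp
          grind
        rw [h5, e_as e hsq]

theorem alg1 (f P A B Y : F) (hY : Y ≠ 0) : f ^ 2 + P / Y * f + (A / Y + B / Y) =
    (f ^ 2 * Y + P * f + (A + B)) / Y := by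
  field_simp

/-- the correlation sum. -/
noncomputable def GG (l m k L : F) : ℂ :=
  ∑ v : F, if v ^ 2 + v + L = 0 then 0 else
    nu ((l * v) ^ 2 / (v ^ 2 + v + L)) * nu ((m * v + k) ^ 2 / (v ^ 2 + v + L))

/-- the diagonal term. -/
noncomputable def ZW (l m k L : F) : ℂ :=
  ∑ v : F, if v ≠ 0 ∧ l * v = m * v + k then e ((v ^ 2 + v + L) / (l * v) ^ 2) else 0

theorem GG_eq (hne : e ≠ 1) (hsq : ∀ x, e (x ^ 2) = e x) (h3 : Fintype.card F % 3 = 2)
    (l m k L : F) (hl : l ≠ 0) :
    GG l m k L = ∑ f : F, (if f ≠ 0 ∧ f ≠ l * k then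
        nu f * e ((f ^ 2 + l * m * f + l ^ 2 + m ^ 2) * (k ^ 2 + L * f ^ 2) / (f ^ 2 + l * k * f) ^ 2)
        else 0) - nu (l ^ 2) * nu (m ^ 2) - (if l = m then e (l ^ 2)⁻¹ else 0) +
      (Fintype.card F : ℂ) * ∑ f : F, (if f ^ 2 + l * m * f + l ^ 2 + m ^ 2 = 0 ∧
        f ^ 2 + l * k * f = 0 ∧ k ^ 2 + L * f ^ 2 = 0 then nu f else 0) - ZW e l m k L := by
  -- the summand
  have h1 : ∀ v : F, (if v ^ 2 + v + L = 0 then (0 : ℂ) else
      nu ((l * v) ^ 2 / (v ^ 2 + v + L)) * nu ((m * v + k) ^ 2 / (v ^ 2 + v + L))) =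
      ∑ f : F, (if (f ^ 2 + l * m * f + l ^ 2 + m ^ 2) * v ^ 2 + (f ^ 2 + l * k * f) * v +
        (k ^ 2 + L * f ^ 2) = 0 then nu f else 0) -
      (if v ≠ 0 ∧ l * v = m * v + k then e ((v ^ 2 + v + L) / (l * v) ^ 2) else 0) := by
    intro v
    have hQ : ∀ f : F, (f ^ 2 + l * m * f + l ^ 2 + m ^ 2) * v ^ 2 + (f ^ 2 + l * k * f) * v +
        (k ^ 2 + L * f ^ 2) = f ^ 2 * (v ^ 2 + v + L) + (l * v) * (m * v + k) * f +
          ((l * v) ^ 2 + (m * v + k) ^ 2) := by
      intro f
      grind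
    by_cases hY : v ^ 2 + v + L = 0
    · rw [if_pos hY]
      have h4 : ∀ f : F, ((f ^ 2 + l * m * f + l ^ 2 + m ^ 2) * v ^ 2 + (f ^ 2 + l * k * f) * v +
        (k ^ 2 + L * f ^ 2) = 0) ↔ ((l * v) * (m * v + k) * f +
          ((l * v) ^ 2 + (m * v + k) ^ 2) = 0) := by
        intro f
        rw [hQ, hY, mul_zero, zero_add]
      simp only [h4]
      rw [fibre_zero e hne hsq h3, hY, zero_div, AddChar.map_zero_eq_one]
      have h5 : (l * v ≠ 0 ∧ l * v = m * v + k) ↔ (v ≠ 0 ∧ l * v = m * v + k) := by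
        rw [Ne, mul_eq_zero, not_or]
        simp [hl]
      simp only [h5, sub_self]
    · rw [if_neg hY]
      have hD : ((l * v) * (m * v + k) / (v ^ 2 + v + L)) ^ 2 =
          (l * v) ^ 2 / (v ^ 2 + v + L) * ((m * v + k) ^ 2 / (v ^ 2 + v + L)) := by
        field_simp
      rw [pfs e hne hsq h3 _ _ _ hD]
      congr 1
      · refine Finset.sum_congr rfl fun f _ => ?_
        have h6 : (f ^ 2 + (l * v) * (m * v + k) / (v ^ 2 + v + L) * f +
            ((l * v) ^ 2 / (v ^ 2 + v + L) + (m * v + k) ^ 2 / (v ^ 2 + v + L)) = 0) ↔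
            ((f ^ 2 + l * m * f + l ^ 2 + m ^ 2) * v ^ 2 + (f ^ 2 + l * k * f) * v +
        (k ^ 2 + L * f ^ 2) = 0) := by
          rw [hQ]
          rw [alg1 f (l * v * (m * v + k)) ((l * v) ^ 2) ((m * v + k) ^ 2) _ hY,
            div_eq_zero_iff, or_iff_left hY]
        simp only [h6]
      · have h8 : ((l * v) ^ 2 / (v ^ 2 + v + L) = (m * v + k) ^ 2 / (v ^ 2 + v + L) ∧
            (l * v) ^ 2 / (v ^ 2 + v + L) ≠ 0) ↔ (v ≠ 0 ∧ l * v = m * v + k) := by
          rw [div_left_inj' hY, Ne, div_eq_zero_iff, not_or, pow_eq_zero_iff two_ne_zero,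
            mul_eq_zero, not_or]
          constructor
          · rintro ⟨h9, ⟨_, h10⟩, _⟩
            exact ⟨h10, sq_inj h9⟩
          · rintro ⟨h9, h10⟩
            exact ⟨by rw [h10], ⟨hl, h9⟩, hY⟩
        simp only [h8, inv_div]
  unfold GG
  rw [Finset.sum_congr rfl fun v _ => h1 v, Finset.sum_sub_distrib, Finset.sum_comm]
  congr 1
  -- count
  have h2 : ∀ f : F, ∑ v : F, (if (f ^ 2 + l * m * f + l ^ 2 + m ^ 2) * v ^ 2 +
        (f ^ 2 + l * k * f) * v + (k ^ 2 + L * f ^ 2) = 0 then nu f else 0) =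
      nu f + (if f ≠ 0 ∧ f ≠ l * k then
        nu f * e ((f ^ 2 + l * m * f + l ^ 2 + m ^ 2) * (k ^ 2 + L * f ^ 2) / (f ^ 2 + l * k * f) ^ 2)
        else 0) - (if f ^ 2 + l * m * f + (l ^ 2 + m ^ 2) = 0 then nu f else 0) +
      (Fintype.card F : ℂ) * (if f ^ 2 + l * m * f + l ^ 2 + m ^ 2 = 0 ∧
        f ^ 2 + l * k * f = 0 ∧ k ^ 2 + L * f ^ 2 = 0 then nu f else 0) := by
    intro f
    have h4 : ∀ v : F, (if (f ^ 2 + l * m * f + l ^ 2 + m ^ 2) * v ^ 2 +
        (f ^ 2 + l * k * f) * v + (k ^ 2 + L * f ^ 2) = 0 then nu f else 0) =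
        nu f * (if (f ^ 2 + l * m * f + l ^ 2 + m ^ 2) * v ^ 2 +
        (f ^ 2 + l * k * f) * v + (k ^ 2 + L * f ^ 2) = 0 then 1 else 0) := by
      intro v
      rw [mul_ite, mul_one, mul_zero]
    rw [Finset.sum_congr rfl fun v _ => h4 v, ← Finset.mul_sum, count_quad e hne hsq]
    have h5 : (f ^ 2 + l * k * f ≠ 0) ↔ (f ≠ 0 ∧ f ≠ l * k) := by
      have : f ^ 2 + l * k * f = f * (f + l * k) := by ring
      rw [this, Ne, mul_eq_zero, not_or, CharTwo.add_eq_zero]
    have h6 : (f ^ 2 + l * m * f + (l ^ 2 + m ^ 2) = 0) ↔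
      (f ^ 2 + l * m * f + l ^ 2 + m ^ 2 = 0) := by rw [add_assoc, add_assoc, add_assoc]
    simp only [h6]
    simp only [h5]
    by_cases c1 : (f ≠ 0 ∧ f ≠ l * k)
    · rw [if_pos c1, if_pos c1]
      by_cases c2 : f ^ 2 + l * m * f + l ^ 2 + m ^ 2 = 0
      · by_cases c3 : f ^ 2 + l * k * f = 0 ∧ k ^ 2 + L * f ^ 2 = 0
        · rw [if_pos c2, if_pos ⟨c2, c3⟩, if_pos c2, if_pos ⟨c2, c3⟩]; ring
        · rw [if_pos c2, if_neg (fun h => c3 h.2), if_pos c2, if_neg (fun h => c3 h.2)]; ring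
      · rw [if_neg c2, if_neg (fun h => c2 h.1), if_neg c2, if_neg (fun h => c2 h.1)]; ring
    · rw [if_neg c1, if_neg c1]
      by_cases c2 : f ^ 2 + l * m * f + l ^ 2 + m ^ 2 = 0
      · by_cases c3 : f ^ 2 + l * k * f = 0 ∧ k ^ 2 + L * f ^ 2 = 0
        · rw [if_pos c2, if_pos ⟨c2, c3⟩, if_pos c2, if_pos ⟨c2, c3⟩]; ring
        · rw [if_pos c2, if_neg (fun h => c3 h.2), if_pos c2, if_neg (fun h => c3 h.2)]; ring
      · rw [if_neg c2, if_neg (fun h => c2 h.1), if_neg c2, if_neg (fun h => c2 h.1)]; ring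
  rw [Finset.sum_congr rfl fun f _ => h2 f, Finset.sum_add_distrib, Finset.sum_sub_distrib,
    Finset.sum_add_distrib, nu_sum, zero_add, ← Finset.mul_sum]
  have h7 := pfs e hne hsq h3 (l ^ 2) (m ^ 2) (l * m) (by ring)
  have h8 : (l ^ 2 = m ^ 2 ∧ l ^ 2 ≠ 0) ↔ l = m := by
    constructor
    · rintro ⟨h, _⟩
      exact sq_inj h
    · rintro rfl
      exact ⟨rfl, pow_ne_zero 2 hl⟩
  simp only [h8] at h7
  have h9 : ∑ f : F, (if f ^ 2 + l * m * f + (l ^ 2 + m ^ 2) = 0 then nu f else 0) =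
      nu (l ^ 2) * nu (m ^ 2) + (if l = m then e (l ^ 2)⁻¹ else 0) := by
    rw [h7]; ring
  rw [h9]
  ring

end Sums

end Pool.Agent.Zk86.Q2
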