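import Mathlib
import Pool.Agent.Zk86.Q2.Sums

/-! The kernel `k0` and its two and three point sums. -/

set_option autoImplicit false
set_option linter.unusedSectionVars false

namespace Pool.Agent.Zk86.Q2

open Finset Pool.Agent.R478.BES

section Ker

variable {F : Type*} [Field F] [Fintype F] [DecidableEq F] [CharP F 2]

variable (e : AddChar F ℂ)

/-- the kernel. -/
noncomputable def k0 (x y z : F) : ℂ :=
  -∑ v : F, if v ^ 2 + v = 1 + x⁻¹ + y⁻¹ + z⁻¹ then nu (x * y * z * v ^ 2) else 0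

theorem k0_swap12 (x y z : F) : k0 x y z = k0 y x z := by
  unfold k0
  have h1 : 1 + x⁻¹ + y⁻¹ + z⁻¹ = 1 + y⁻¹ + x⁻¹ + z⁻¹ := by ring
  simp only [h1, mul_comm x y]

theorem k0_swap23 (x y z : F) : k0 x y z = k0 x z y := by
  unfold k0
  have h1 : 1 + x⁻¹ + y⁻¹ + z⁻¹ = 1 + x⁻¹ + z⁻¹ + y⁻¹ := by ring
  have h2 : x * y * z = x * z * y := by ring
  simp only [h1, h2]

theorem k0_support (hsq : ∀ x, e (x ^ 2) = e x) (he1 : e 1 = -1) (x y z : F) :
    k0 x y z * e (x⁻¹ + y⁻¹ + z⁻¹) = -k0 x y z := by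
  unfold k0
  rw [neg_mul, Finset.sum_mul]
  congr 1
  rw [← Finset.sum_neg_distrib]
  refine Finset.sum_congr rfl fun v _ => ?_
  split_ifs with h
  · have h1 : x⁻¹ + y⁻¹ + z⁻¹ = 1 + (v ^ 2 + v) := by rw [h]; grind
    rw [h1, AddChar.map_add_eq_mul, e_as e hsq, he1]
    ring
  · ring

theorem k0_conj (x y z : F) : (starRingEnd ℂ) (k0 x y z) = k0 x y z := by
  unfold k0
  rw [map_neg, map_sum]
  congr 1
  refine Finset.sum_congr rfl fun v _ => ?_
  split_ifs
  · exact nu_conj _
  · exact map_zero _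

theorem nu_comp_equiv (φ : F ≃+* F) (x y z : F) : k0 (φ x) (φ y) (φ z) = k0 x y z := by
  unfold k0
  congr 1
  symm
  refine Fintype.sum_equiv φ.toEquiv _ _ fun v => ?_
  have h1 : (φ v ^ 2 + φ v = 1 + (φ x)⁻¹ + (φ y)⁻¹ + (φ z)⁻¹) ↔
      (v ^ 2 + v = 1 + x⁻¹ + y⁻¹ + z⁻¹) := by
    have a1 : φ v ^ 2 + φ v = φ (v ^ 2 + v) := by simp only [map_add, map_pow]
    have a2 : 1 + (φ x)⁻¹ + (φ y)⁻¹ + (φ z)⁻¹ = φ (1 + x⁻¹ + y⁻¹ + z⁻¹) := by
      simp only [map_add, map_inv₀, map_one]
    rw [a1, a2, φ.injective.eq_iff]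
  have h2 : φ x * φ y * φ z * φ v ^ 2 = φ (x * y * z * v ^ 2) := by
    simp only [map_mul, map_pow]
  show _ = if φ v ^ 2 + φ v = 1 + (φ x)⁻¹ + (φ y)⁻¹ + (φ z)⁻¹ then
    nu (φ x * φ y * φ z * φ v ^ 2) else 0
  simp only [h1, h2, nu_equiv]

/-- summation against the kernel. -/
theorem k0_sum (x z : F) (g : F → ℂ) :
    ∑ y : Fˣ, k0 x y z * g y = -∑ v : F, (if v ^ 2 + v + (1 + x⁻¹ + z⁻¹) = 0 then 0 else
      nu (x * z * v ^ 2 / (v ^ 2 + v + (1 + x⁻¹ + z⁻¹))) *
        g (v ^ 2 + v + (1 + x⁻¹ + z⁻¹))⁻¹) := by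
  unfold k0
  have h1 : ∀ y : Fˣ, (-∑ v : F, if v ^ 2 + v = 1 + x⁻¹ + (y : F)⁻¹ + z⁻¹ then
      nu (x * y * z * v ^ 2) else 0) * g y = -∑ v : F,
        (if v ^ 2 + v = 1 + x⁻¹ + (y : F)⁻¹ + z⁻¹ then nu (x * y * z * v ^ 2) * g y else 0) := by
    intro y
    rw [neg_mul, Finset.sum_mul]
    congr 1
    refine Finset.sum_congr rfl fun v _ => ?_
    split_ifs
    · rfl
    · ring
  rw [Finset.sum_congr rfl fun y _ => h1 y, Finset.sum_neg_distrib, Finset.sum_comm]
  congr 1
  refine Finset.sum_congr rfl fun v _ => ?_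
  have h2 : ∀ y : Fˣ, (v ^ 2 + v = 1 + x⁻¹ + (y : F)⁻¹ + z⁻¹) ↔
      ((y : F)⁻¹ = v ^ 2 + v + (1 + x⁻¹ + z⁻¹)) := by
    intro y
    constructor
    · intro h; rw [h]; grind
    · intro h; rw [h]; grind
  simp only [h2]
  by_cases hY : v ^ 2 + v + (1 + x⁻¹ + z⁻¹) = 0
  · rw [if_pos hY]
    apply Finset.sum_eq_zero
    intro y _
    rw [if_neg]
    rw [hY]
    exact inv_ne_zero y.ne_zero
  · rw [if_neg hY, Finset.sum_eq_single (Units.mk0 _ (inv_ne_zero hY))]
    · rw [if_pos (by rw [Units.val_mk0, inv_inv]), Units.val_mk0]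
      congr 2
      rw [div_eq_mul_inv]
      ring
    · intro y _ hy
      rw [if_neg]
      intro h
      apply hy
      ext
      rw [Units.val_mk0, ← h, inv_inv]
    · simp

/-- the two point identity. -/
theorem E2 (hne : e ≠ 1) (hsq : ∀ x, e (x ^ 2) = e x) (he1 : e 1 = -1)
    (h3 : Fintype.card F % 3 = 2) (x z : F) (hx : x ≠ 0) (hz : z ≠ 0) (hz1 : z ≠ 1) :
    ∑ y : Fˣ, k0 x y z - nu (x * z) =
      e (x⁻¹ + z⁻¹) * ∑ y : Fˣ, e (y : F)⁻¹ * (nu (x * y) * nu (y * z)) := by
  obtain ⟨l, hl⟩ := sq_surj (x * z)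
  have hxz : x * z ≠ 0 := mul_ne_zero hx hz
  have hl0 : l ≠ 0 := by
    rintro rfl
    apply hxz
    rw [hl]; ring
  set L := 1 + x⁻¹ + z⁻¹ with hL
  have hxzL : l ^ 2 * L = x * z + z + x := by
    rw [← hl, hL]
    field_simp
  have heL : e L = - e (x⁻¹ + z⁻¹) := by
    rw [hL, add_assoc, AddChar.map_add_eq_mul, he1]; ring
  -- the left side
  have hA : ∑ y : Fˣ, k0 x y z = - GG l 0 0 L := by
    have h1 := k0_sum x z (fun _ => 1)
    simp only [mul_one] at h1
    rw [h1, ← hL]
    congr 1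
    unfold GG
    refine Finset.sum_congr rfl fun v _ => ?_
    split_ifs
    · rfl
    · have e1 : ((0 : F) * v + 0) ^ 2 / (v ^ 2 + v + L) = 0 := by
        rw [zero_mul, add_zero, zero_pow two_ne_zero, zero_div]
      rw [e1, nu_zero, mul_one, mul_pow, ← hl]
  have hG := GG_eq e hne hsq h3 l 0 0 L hl0
  have hG2 : GG l 0 0 L = -(e (x⁻¹ + z⁻¹)) *
      ∑ f : F, (if f ≠ 0 then nu f * e ((x * z + z + x) / f ^ 2) else 0) - nu (x * z) := by
    rw [hG]
    have e1 : ∀ f : F, (if f ≠ 0 ∧ f ≠ l * 0 then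
        nu f * e ((f ^ 2 + l * 0 * f + l ^ 2 + 0 ^ 2) * (0 ^ 2 + L * f ^ 2) / (f ^ 2 + l * 0 * f) ^ 2)
        else 0) = -(e (x⁻¹ + z⁻¹)) *
          (if f ≠ 0 then nu f * e ((x * z + z + x) / f ^ 2) else 0) := by
      intro f
      by_cases hf : f = 0
      · simp [hf]
      · rw [if_pos ⟨hf, by rw [mul_zero]; exact hf⟩, if_pos hf]
        have e2 : (f ^ 2 + l * 0 * f + l ^ 2 + 0 ^ 2) * (0 ^ 2 + L * f ^ 2) /
            (f ^ 2 + l * 0 * f) ^ 2 = L + (x * z + z + x) / f ^ 2 := by
          rw [← hxzL]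
          simp only [mul_zero, zero_mul, add_zero, zero_pow two_ne_zero, zero_add]
          field_simp
        rw [e2, AddChar.map_add_eq_mul, heL]
        ring
    have e3 : ∀ f : F, (if f ^ 2 + l * 0 * f + l ^ 2 + 0 ^ 2 = 0 ∧
        f ^ 2 + l * 0 * f = 0 ∧ (0 : F) ^ 2 + L * f ^ 2 = 0 then nu f else 0) = 0 := by
      intro f
      rw [if_neg]
      rintro ⟨h4, h5, _⟩
      apply hl0
      have h6 : l ^ 2 = 0 := by
        have h7 : f ^ 2 + l * 0 * f + l ^ 2 + 0 ^ 2 = (f ^ 2 + l * 0 * f) + l ^ 2 := by ring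
        rw [h7, h5, zero_add] at h4
        exact h4
      exact pow_eq_zero_iff two_ne_zero |>.1 h6
    have e4 : ZW e l 0 0 L = 0 := by
      unfold ZW
      apply Finset.sum_eq_zero
      intro v _
      rw [if_neg]
      rintro ⟨h4, h5⟩
      rw [zero_mul, add_zero, mul_eq_zero] at h5
      rcases h5 with h5 | h5
      · exact hl0 h5
      · exact h4 h5
    rw [Finset.sum_congr rfl fun f _ => e1 f, ← Finset.mul_sum,
      Finset.sum_congr rfl fun f _ => e3 f, Finset.sum_const_zero, e4, if_neg hl0, ← hl,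
      zero_pow two_ne_zero, nu_zero]
    ring
  -- the right side
  have hR : ∑ y : Fˣ, e (y : F)⁻¹ * (nu (x * y) * nu (y * z)) =
      ∑ f : F, (if f ≠ 0 then nu f * e ((x * z + z + x) / f ^ 2) else 0) := by
    have h1 : ∀ y : Fˣ, e (y : F)⁻¹ * (nu (x * y) * nu (y * z)) =
        ∑ C : F, (if C ^ 2 + l * y * C + (x * y + y * z) = 0 then nu C * e (y : F)⁻¹ else 0) -
          (if x = z then e ((1 + x⁻¹) * (y : F)⁻¹) else 0) := by
      intro y
      rw [pfs e hne hsq h3 (x * y) (y * z) (l * y) (by rw [mul_pow, ← hl]; ring), mul_sub,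
        Finset.mul_sum]
      congr 1
      · refine Finset.sum_congr rfl fun C _ => ?_
        split_ifs
        · ring
        · ring
      · have h2 : (x * y = y * z ∧ x * y ≠ 0) ↔ x = z := by
          constructor
          · rintro ⟨h, _⟩
            rw [mul_comm] at h
            exact mul_left_cancel₀ y.ne_zero h
          · rintro rfl
            exact ⟨mul_comm _ _, mul_ne_zero hx y.ne_zero⟩
        simp only [h2]
        split_ifs
        · rw [← AddChar.map_add_eq_mul]
          congr 1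
          rw [mul_inv]; ring
        · ring
    rw [Finset.sum_congr rfl fun y _ => h1 y, Finset.sum_sub_distrib, Finset.sum_comm]
    -- the diagonal part
    have h2 : ∑ y : Fˣ, (if x = z then e ((1 + x⁻¹) * (y : F)⁻¹) else 0) =
        if x = z then (-1 : ℂ) else 0 := by
      split_ifs with hxzeq
      · have h4 : ∑ y : Fˣ, e ((1 + x⁻¹) * (y : F)⁻¹) = ∑ y : Fˣ, e ((1 + x⁻¹) * (y : F)) := by
          refine Fintype.sum_equiv (Equiv.inv Fˣ) _ _ fun y => ?_
          simp
        rw [h4, sum_units_e e hne, if_neg, zero_sub]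
        intro h5
        apply hz1
        rw [← hxzeq]
        have h6 : x⁻¹ = 1 := by grind
        exact inv_eq_one.1 h6
      · simp
    have h5 : ∀ C : F, ∑ y : Fˣ, (if C ^ 2 + l * y * C + (x * y + y * z) = 0 then
        nu C * e (y : F)⁻¹ else 0) =
        (if C ≠ 0 then nu C * e ((x * z + z + x) / C ^ 2) else 0) +
          (if C = 0 then (if x = z then (-1 : ℂ) else 0) else 0) := by
      intro C
      by_cases hC : C = 0
      · subst hC
        rw [if_neg (by simp), if_pos rfl, zero_add]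
        by_cases hxzeq : x = z
        · rw [if_pos hxzeq]
          have h6 : ∀ y : Fˣ, (if (0 : F) ^ 2 + l * y * 0 + (x * y + y * z) = 0 then
              nu (0 : F) * e (y : F)⁻¹ else 0) = e (y : F)⁻¹ := by
            intro y
            rw [if_pos (by rw [hxzeq]; grind), nu_zero, one_mul]
          rw [Finset.sum_congr rfl fun y _ => h6 y]
          have h4 : ∑ y : Fˣ, e (y : F)⁻¹ = ∑ y : Fˣ, e (1 * (y : F)) := by
            refine Fintype.sum_equiv (Equiv.inv Fˣ) _ _ fun y => ?_
            simp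
          rw [h4, sum_units_e e hne, if_neg one_ne_zero, zero_sub]
        · rw [if_neg hxzeq]
          apply Finset.sum_eq_zero
          intro y _
          rw [if_neg]
          intro h6
          have h7 : (y : F) * (x + z) = 0 := by rw [← h6]; ring
          exact hxzeq (CharTwo.add_eq_zero.1 ((mul_eq_zero.1 h7).resolve_left y.ne_zero))
      · rw [if_pos hC, if_neg hC, add_zero]
        have h6 : ∀ y : Fˣ, (C ^ 2 + l * y * C + (x * y + y * z) = 0) ↔
            ((y : F)⁻¹ = (l * C + x + z) / C ^ 2) := by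
          intro y
          have hy := y.ne_zero
          constructor
          · intro h
            field_simp
            grind
          · intro h
            field_simp at h
            grind
        simp only [h6]
        have h8 : e ((l * C + x + z) / C ^ 2) = e ((x * z + z + x) / C ^ 2) := by
          apply e_congr e hsq (l / C)
          rw [hl]
          field_simp
          grind
        by_cases h7 : l * C + x + z = 0
        · have h9 : nu C = 0 := by
            apply nu_split e hne hsq h3 C hC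
            have h10 : x + z = l * C := by grind
            have h11 : C⁻¹ = l / (x + z) := by
              rw [h10]; field_simp
            have hxz0 : x + z ≠ 0 := by rw [h10]; exact mul_ne_zero hl0 hC
            rw [h11, ← e_as e hsq (x / (x + z)), ← hsq (l / (x + z))]
            congr 1
            rw [div_pow, ← hl]
            field_simp
            grind
          rw [h9, zero_mul]
          apply Finset.sum_eq_zero
          intro y _
          rw [zero_mul]
          split_ifs <;> rfl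
        · have hne0 : C ^ 2 / (l * C + x + z) ≠ 0 := div_ne_zero (pow_ne_zero 2 hC) h7
          rw [Finset.sum_eq_single (Units.mk0 _ hne0)]
          · rw [if_pos (by rw [Units.val_mk0, inv_div]), Units.val_mk0, inv_div, h8]
          · intro y _ hy
            rw [if_neg]
            intro h
            apply hy
            ext
            rw [Units.val_mk0, ← inv_div, ← h, inv_inv]
          · simp
    rw [h2, Finset.sum_congr rfl fun C _ => h5 C, Finset.sum_add_distrib]
    simp only [Finset.sum_ite_eq', mem_univ, if_true]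
    ring
  rw [hA, hG2, hR]
  ring

end Ker

end Pool.Agent.Zk86.Q2
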