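import Mathlib
import Pool.Agent.Zk86.Q2.Ker

/-! The three point identity. -/

set_option autoImplicit false
set_option linter.unusedSectionVars false

namespace Pool.Agent.Zk86.Q2

open Finset Pool.Agent.R478.BES

section Ker3

variable {F : Type*} [Field F] [Fintype F] [DecidableEq F] [CharP F 2]

variable (e : AddChar F ℂ)

/-- the three point sum. -/
noncomputable def HH (x t z : F) : ℂ := e t⁻¹ * (∑ y : Fˣ, k0 x y z * nu (y * t) - nu (x * z))

theorem HH_swap13 (x t z : F) : HH e x t z = HH e z t x := by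
  unfold HH
  have h : ∀ y : Fˣ, k0 x y z = k0 z y x := by
    intro y
    rw [k0_swap12, k0_swap23, k0_swap12]
  simp only [h, mul_comm x z]

theorem alg3 (f x z t l d : F) (hx : x ≠ 0) (hz : z ≠ 0) (hl : x * z = l ^ 2) (hd : t = d ^ 2)
    (hf : f ≠ 0) (hf2 : f ^ 2 + x * z * t ≠ 0) :
    (f ^ 2 + l * 0 * f + l ^ 2 + 0 ^ 2) * (d ^ 2 + (1 + x⁻¹ + z⁻¹) * f ^ 2) /
      (f ^ 2 + l * d * f) ^ 2 =
      (1 + x⁻¹ + z⁻¹) + (1 / f ^ 2 + (1 + x) * (1 + z) * (1 + t) / (f ^ 2 + x * z * t)) := by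
  have h1 : (f ^ 2 + l * d * f) ^ 2 = f ^ 2 * (f ^ 2 + x * z * t) := by
    rw [hl, hd]; grind
  rw [h1, ← hl, ← hd]
  field_simp
  grind

theorem HH_eq (hne : e ≠ 1) (hsq : ∀ x, e (x ^ 2) = e x) (he1 : e 1 = -1)
    (h3 : Fintype.card F % 3 = 2) (x t z : F) (hx : x ≠ 0) (ht : t ≠ 0) (hz : z ≠ 0)
    (hz1 : z ≠ 1) :
    HH e x t z = e (x⁻¹ + z⁻¹ + t⁻¹) * ∑ f : F, (if f ≠ 0 ∧ f ^ 2 ≠ x * z * t then
        nu f * e (1 / f ^ 2 + (1 + x) * (1 + z) * (1 + t) / (f ^ 2 + x * z * t)) else 0) +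
      e ((x * z)⁻¹ + (x * t)⁻¹ + (z * t)⁻¹ + (x * z * t)⁻¹) +
      (if x = 1 ∧ t = 1 then (Fintype.card F : ℂ) * nu z else 0) := by
  obtain ⟨l, hl⟩ := sq_surj (x * z)
  obtain ⟨d, hd⟩ := sq_surj t
  have hxz : x * z ≠ 0 := mul_ne_zero hx hz
  have hl0 : l ≠ 0 := by
    rintro rfl
    apply hxz
    rw [hl]; ring
  have hd0 : d ≠ 0 := by
    rintro rfl
    apply ht
    rw [hd]; ring
  have heL : e t⁻¹ * e (1 + x⁻¹ + z⁻¹) = - e (x⁻¹ + z⁻¹ + t⁻¹) := by
    have : t⁻¹ + (1 + x⁻¹ + z⁻¹) = 1 + (x⁻¹ + z⁻¹ + t⁻¹) := by ring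
    rw [← AddChar.map_add_eq_mul, this, AddChar.map_add_eq_mul, he1]; ring
  have hA : ∑ y : Fˣ, k0 x y z * nu (y * t) = - GG l 0 d (1 + x⁻¹ + z⁻¹) := by
    rw [k0_sum x z (fun y => nu (y * t))]
    congr 1
    unfold GG
    refine Finset.sum_congr rfl fun v _ => ?_
    split_ifs
    · rfl
    · rw [mul_pow, ← hl, zero_mul, zero_add, ← hd]
      congr 2
      rw [div_eq_mul_inv, mul_comm]
  have hG := GG_eq e hne hsq h3 l 0 d (1 + x⁻¹ + z⁻¹) hl0
  have e1 : ∀ f : F, (if f ≠ 0 ∧ f ≠ l * d then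
        nu f * e ((f ^ 2 + l * 0 * f + l ^ 2 + 0 ^ 2) * (d ^ 2 + (1 + x⁻¹ + z⁻¹) * f ^ 2) /
          (f ^ 2 + l * d * f) ^ 2) else 0) = e (1 + x⁻¹ + z⁻¹) *
      (if f ≠ 0 ∧ f ^ 2 ≠ x * z * t then
        nu f * e (1 / f ^ 2 + (1 + x) * (1 + z) * (1 + t) / (f ^ 2 + x * z * t)) else 0) := by
    intro f
    have h4 : (f ≠ l * d) ↔ (f ^ 2 ≠ x * z * t) := by
      rw [hl, hd, ← mul_pow]
      constructor
      · intro h h'
        exact h (sq_inj h')
      · rintro h rfl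
        exact h rfl
    simp only [h4]
    split_ifs with h5
    · have h6 : f ^ 2 + x * z * t ≠ 0 := fun h => h5.2 (CharTwo.add_eq_zero.1 h)
      rw [alg3 f x z t l d hx hz hl hd h5.1 h6, AddChar.map_add_eq_mul]
      ring
    · ring
  have e3 : ∀ f : F, (if f ^ 2 + l * 0 * f + l ^ 2 + 0 ^ 2 = 0 ∧
        f ^ 2 + l * d * f = 0 ∧ d ^ 2 + (1 + x⁻¹ + z⁻¹) * f ^ 2 = 0 then nu f else 0) =
      if f = l then (if x = 1 ∧ t = 1 then nu z else 0) else 0 := by
    intro f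
    by_cases hf : f = l
    · subst hf
      rw [if_pos rfl]
      have h4 : (f ^ 2 + f * 0 * f + f ^ 2 + 0 ^ 2 = 0 ∧
        f ^ 2 + f * d * f = 0 ∧ d ^ 2 + (1 + x⁻¹ + z⁻¹) * f ^ 2 = 0) ↔ (x = 1 ∧ t = 1) := by
        constructor
        · rintro ⟨_, h5, h6⟩
          have h7 : f ^ 2 * (1 + d) = 0 := by rw [← h5]; ring
          have h8 : d = 1 := by
            have := (mul_eq_zero.1 h7).resolve_left (pow_ne_zero 2 hl0)
            grind
          have h9 : t = 1 := by rw [hd, h8]; ring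
          rw [← hl, h8] at h6
          have h10 : (1 + x) * (1 + z) = 0 := by
            field_simp at h6
            grind
          rcases mul_eq_zero.1 h10 with h11 | h11
          · exact ⟨by grind, h9⟩
          · exact absurd (by grind) hz1
        · rintro ⟨h5, h6⟩
          have h8 : d = 1 := by
            apply sq_inj
            rw [← hd, h6]; ring
          refine ⟨by grind, by rw [h8]; grind, ?_⟩
          rw [← hl, h8, h5]
          field_simp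
          grind
      simp only [h4]
      split_ifs with h5
      · rw [← nu_sq, ← hl, h5.1, one_mul]
      · rfl
    · rw [if_neg hf, if_neg]
      rintro ⟨h4, _⟩
      apply hf
      apply sq_inj
      have : f ^ 2 + l ^ 2 = 0 := by rw [← h4]; ring
      exact CharTwo.add_eq_zero.1 this
  have e4 : e t⁻¹ * ZW e l 0 d (1 + x⁻¹ + z⁻¹) =
      e ((x * z)⁻¹ + (x * t)⁻¹ + (z * t)⁻¹ + (x * z * t)⁻¹) := by
    unfold ZW
    rw [Finset.sum_eq_single (d / l)]
    · rw [if_pos ⟨div_ne_zero hd0 hl0, by field_simp; ring⟩, ← AddChar.map_add_eq_mul]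
      apply e_congr e hsq (d / l / t)
      have h5 : l * (d / l) = d := by field_simp
      have h6 : (d / l / t) ^ 2 = (x * z * t)⁻¹ := by
        rw [div_pow, div_pow, ← hl, ← hd]
        field_simp
      rw [h5, ← hd, h6]
      have h7 : (d / l) ^ 2 = t / (x * z) := by rw [div_pow, ← hl, ← hd]
      rw [h7]
      generalize d / l = u
      field_simp
      grind
    · intro v _ hv
      rw [if_neg]
      rintro ⟨_, h5⟩
      apply hv
      rw [zero_mul, zero_add] at h5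
      rw [← h5]
      field_simp
    · simp
  unfold HH
  rw [hA, hG, Finset.sum_congr rfl fun f _ => e1 f, ← Finset.mul_sum,
    Finset.sum_congr rfl fun f _ => e3 f, if_neg hl0, ← hl,
      zero_pow two_ne_zero, nu_zero]
  simp only [Finset.sum_ite_eq', mem_univ, if_true]
  have e5 : e t⁻¹ * (if x = 1 ∧ t = 1 then nu z else 0) =
      - (if x = 1 ∧ t = 1 then nu z else 0) := by
    split_ifs with h
    · rw [h.2, inv_one, he1]; ring
    · ring
  have e6 : (if x = 1 ∧ t = 1 then (Fintype.card F : ℂ) * nu z else 0) =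
      (Fintype.card F : ℂ) * (if x = 1 ∧ t = 1 then nu z else 0) := by
    split_ifs <;> ring
  rw [e6]
  linear_combination (-∑ f : F, (if f ≠ 0 ∧ f ^ 2 ≠ x * z * t then
        nu f * e (1 / f ^ 2 + (1 + x) * (1 + z) * (1 + t) / (f ^ 2 + x * z * t)) else 0)) * heL -
    (Fintype.card F : ℂ) * e5 + e4

/-- the three point sum is symmetric. -/
theorem HH_symm (hne : e ≠ 1) (hsq : ∀ x, e (x ^ 2) = e x) (he1 : e 1 = -1)
    (h3 : Fintype.card F % 3 = 2) (x t z : F) (hx : x ≠ 0) (ht : t ≠ 0) (hz : z ≠ 0)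
    (hz1 : z ≠ 1) : HH e x t z = HH e t x z := by
  rw [HH_eq e hne hsq he1 h3 x t z hx ht hz hz1, HH_eq e hne hsq he1 h3 t x z ht hx hz hz1]
  have a1 : x⁻¹ + z⁻¹ + t⁻¹ = t⁻¹ + z⁻¹ + x⁻¹ := by ring
  have a2 : x * z * t = t * z * x := by ring
  have a3 : (x * z)⁻¹ + (x * t)⁻¹ + (z * t)⁻¹ + (x * z * t)⁻¹ =
    (t * z)⁻¹ + (t * x)⁻¹ + (z * x)⁻¹ + (t * z * x)⁻¹ := by
    rw [← a2, mul_comm t z, mul_comm t x, mul_comm z x]; ring
  have a4 : (x = 1 ∧ t = 1) ↔ (t = 1 ∧ x = 1) := and_comm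
  have a5 : (1 + x) * (1 + z) * (1 + t) = (1 + t) * (1 + z) * (1 + x) := by ring
  rw [a3]
  simp only [a1, a2, a4, a5]

end Ker3

end Pool.Agent.Zk86.Q2
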