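import Mathlib
import Pool.Agent.Zk86.Q2.Ker

/-! The four point identity. -/

set_option autoImplicit false
set_option linter.unusedSectionVars false

namespace Pool.Agent.Zk86.Q2

open Finset Pool.Agent.R478.BES

section Ker4

variable {F : Type*} [Field F] [Fintype F] [DecidableEq F] [CharP F 2]

variable (e : AddChar F ℂ)

theorem idA (a b c d f E : F)
    (hR : E ^ 2 + a * b * c * d * E + (b * c * d + a * c * d + a * b * d + a * b * c) ^ 2 = 0) :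
    (a ^ 2 + b ^ 2) * f ^ 2 * (f + E) ^ 2 +
      (f ^ 2 + a * b * c * d * f + (a * b) ^ 2 + (c * d) ^ 2) *
        (E ^ 2 + (a ^ 2 * b ^ 2 + a ^ 2 + b ^ 2) * f ^ 2) +
      (a * b) ^ 2 * (f ^ 2 * (f + E) ^ 2 + f * (f + E) ^ 2 +
        (1 + a) * (1 + b) * (1 + c) * (1 + d) * f ^ 2 * (f + E)) =
      ((a * b + c * d) * (f + E) +
        (a * b * c + a * b * d + a * c * d + b * c * d + a * b + c * d) * (1 + a) * (1 + b) * f) ^ 2
      + a * b * f * (f + E) * ((a * b + c * d) * (f + E) +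
        (a * b * c + a * b * d + a * c * d + b * c * d + a * b + c * d) * (1 + a) * (1 + b) * f) := by
  grind

theorem mainA (hsq : ∀ x, e (x ^ 2) = e x) (he1 : e 1 = -1) (a b c d f ε : F)
    (ha : a ≠ 0) (hb : b ≠ 0) (hc : c ≠ 0) (hd : d ≠ 0) (hf : f ≠ 0)
    (hfe : f ≠ a * b * (c * d * ε))
    (hε : ε ^ 2 + ε = (a ^ 2)⁻¹ + (b ^ 2)⁻¹ + (c ^ 2)⁻¹ + (d ^ 2)⁻¹) :
    e ((a ^ 2)⁻¹ + (b ^ 2)⁻¹) * e ((f ^ 2 + a * b * (c * d) * f + (a * b) ^ 2 + (c * d) ^ 2) *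
      ((c * d * ε) ^ 2 + (1 + (a ^ 2)⁻¹ + (b ^ 2)⁻¹) * f ^ 2) /
        (f ^ 2 + a * b * (c * d * ε) * f) ^ 2) =
    - e (1 / f + (1 + a) * (1 + b) * (1 + c) * (1 + d) / (f + a * b * c * d * ε)) := by
  have hD : f + a * b * c * d * ε ≠ 0 := by
    intro h
    apply hfe
    rw [CharTwo.add_eq_zero] at h
    rw [h]; ring
  have hR : (a * b * c * d * ε) ^ 2 + a * b * c * d * (a * b * c * d * ε) +
      (b * c * d + a * c * d + a * b * d + a * b * c) ^ 2 = 0 := by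
    have h1 : (a * b * c * d * ε) ^ 2 + a * b * c * d * (a * b * c * d * ε) =
        (a * b * c * d) ^ 2 * (ε ^ 2 + ε) := by ring
    rw [h1, hε]
    field_simp
    grind
  have hA := idA a b c d f (a * b * c * d * ε) hR
  have hE : c * d * ε = (a * b * c * d * ε) / (a * b) := by field_simp
  have hE2 : a * b * (c * d * ε) = a * b * c * d * ε := by ring
  rw [hE2, hE]
  generalize a * b * c * d * ε = E at *
  have h2 : - e (1 / f + (1 + a) * (1 + b) * (1 + c) * (1 + d) / (f + E)) =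
      e (1 + (1 / f + (1 + a) * (1 + b) * (1 + c) * (1 + d) / (f + E))) := by
    rw [AddChar.map_add_eq_mul e 1, he1]; ring
  rw [h2, ← AddChar.map_add_eq_mul]
  apply e_congr e hsq (((a * b + c * d) * (f + E) +
        (a * b * c + a * b * d + a * c * d + b * c * d + a * b + c * d) * (1 + a) * (1 + b) * f) /
        (a * b * f * (f + E)))
  have h3 : (f ^ 2 + E * f) ^ 2 = f ^ 2 * (f + E) ^ 2 := by grind
  rw [h3]
  have h4 : (a ^ 2)⁻¹ + (b ^ 2)⁻¹ + (f ^ 2 + a * b * (c * d) * f + (a * b) ^ 2 + (c * d) ^ 2) *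
      ((E / (a * b)) ^ 2 + (1 + (a ^ 2)⁻¹ + (b ^ 2)⁻¹) * f ^ 2) / (f ^ 2 * (f + E) ^ 2) +
      (1 + (1 / f + (1 + a) * (1 + b) * (1 + c) * (1 + d) / (f + E))) =
      ((a ^ 2 + b ^ 2) * f ^ 2 * (f + E) ^ 2 +
      (f ^ 2 + a * b * c * d * f + (a * b) ^ 2 + (c * d) ^ 2) *
        (E ^ 2 + (a ^ 2 * b ^ 2 + a ^ 2 + b ^ 2) * f ^ 2) +
      (a * b) ^ 2 * (f ^ 2 * (f + E) ^ 2 + f * (f + E) ^ 2 +
        (1 + a) * (1 + b) * (1 + c) * (1 + d) * f ^ 2 * (f + E))) /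
        (a * b * f * (f + E)) ^ 2 := by
    field_simp
    ring
  rw [h4, hA]
  field_simp

theorem idB1 (hsq : ∀ x, e (x ^ 2) = e x) (p1 p2 ε κ : F) (hε : ε ≠ 0) :
    e (p1 ^ 2 + p2 ^ 2) * e ((p1 * p2) ^ 2 + p1 * p2 * (κ / ε) +
      (1 + p1 ^ 2 + p2 ^ 2) * (κ / ε) ^ 2) = e (1 + (1 + p1) * (1 + p2) * (1 + κ / ε)) := by
  rw [← AddChar.map_add_eq_mul]
  apply e_congr e hsq ((1 + p1 + p2) * (κ / ε) + (1 + p1) * (1 + p2))
  generalize κ / ε = r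
  grind

theorem idB2 (hsq : ∀ x, e (x ^ 2) = e x) (p1 p2 p3 p4 ε : F) (hε : ε ≠ 0)
    (h : ε ^ 2 + ε = (p1 + p2 + p3 + p4) ^ 2) :
    e (1 + (1 + p1) * (1 + p2) * (1 + (p1 * p2 + p3 * p4) / ε)) =
      e (1 + (1 + p1) * (1 + p3) * (1 + (p1 * p3 + p2 * p4) / ε)) := by
  apply e_congr e hsq ((1 + p1) * (p2 + p3) * (p2 + p3 + (p1 + p4)) / ε + (1 + p1) * (p2 + p3))
  field_simp
  grind

theorem four_zero (a b c d : F) (ha : a ≠ 0) (hb : b ≠ 0) (hc : c ≠ 0) (hd : d ≠ 0)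
    (hbc : b ≠ c) (h : (a ^ 2)⁻¹ + (b ^ 2)⁻¹ + (c ^ 2)⁻¹ + (d ^ 2)⁻¹ = 0) :
    a * b = c * d ↔ (a = c ∧ b = d) := by
  constructor
  · intro h1
    have h2 : (b * c * d + a * c * d + a * b * d + a * b * c) ^ 2 = 0 := by
      have : (b * c * d + a * c * d + a * b * d + a * b * c) ^ 2 =
          (a * b * c * d) ^ 2 * ((a ^ 2)⁻¹ + (b ^ 2)⁻¹ + (c ^ 2)⁻¹ + (d ^ 2)⁻¹) := by
        field_simp
        grind
      rw [this, h, mul_zero]
    have h3 : b * c * d + a * c * d + a * b * d + a * b * c = 0 :=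
      pow_eq_zero_iff two_ne_zero |>.1 h2
    have h4 : a * b * (a + b + c + d) = 0 := by grind
    have h5 : a + b + c + d = 0 := (mul_eq_zero.1 h4).resolve_left (mul_ne_zero ha hb)
    have h6 : (c + a) * (c + b) = 0 := by grind
    rcases mul_eq_zero.1 h6 with h7 | h7
    · have h8 : c = a := CharTwo.add_eq_zero.1 h7
      refine ⟨h8.symm, ?_⟩
      grind
    · exact absurd (CharTwo.add_eq_zero.1 h7).symm hbc
  · rintro ⟨rfl, rfl⟩
    rfl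

theorem T_eq (a b c d ε : F) (ha : a ≠ 0) (hb : b ≠ 0) (hc : c ≠ 0) (hd : d ≠ 0)
    (hb1 : b ≠ 1) (hc1 : c ≠ 1) (hbc : b ≠ c)
    (hε : ε ^ 2 + ε = (a ^ 2)⁻¹ + (b ^ 2)⁻¹ + (c ^ 2)⁻¹ + (d ^ 2)⁻¹) :
    ∑ f : F, (if f ^ 2 + a * b * (c * d) * f + (a * b) ^ 2 + (c * d) ^ 2 = 0 ∧
        f ^ 2 + a * b * (c * d * ε) * f = 0 ∧
        (c * d * ε) ^ 2 + (1 + (a ^ 2)⁻¹ + (b ^ 2)⁻¹) * f ^ 2 = 0 then nu f else 0) =
      (if a = 1 ∧ d = 1 ∧ ε ≠ 0 then nu (a * b * (c * d * ε)) else 0) +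
        (if ε = 0 ∧ a = c ∧ b = d then 1 else 0) := by
  have hcd : c * d ≠ 0 := mul_ne_zero hc hd
  have hab : a * b ≠ 0 := mul_ne_zero ha hb
  have h1 : ∀ f : F, (if f ^ 2 + a * b * (c * d) * f + (a * b) ^ 2 + (c * d) ^ 2 = 0 ∧
        f ^ 2 + a * b * (c * d * ε) * f = 0 ∧
        (c * d * ε) ^ 2 + (1 + (a ^ 2)⁻¹ + (b ^ 2)⁻¹) * f ^ 2 = 0 then nu f else 0) =
      (if f = a * b * (c * d * ε) then
        (if a = 1 ∧ d = 1 ∧ ε ≠ 0 then nu (a * b * (c * d * ε)) else 0) else 0) +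
      (if f = 0 then (if ε = 0 ∧ a = c ∧ b = d then (1 : ℂ) else 0) else 0) := by
    intro f
    by_cases hf : f = 0
    · subst hf
      rw [if_pos rfl, nu_zero]
      have h2 : (if (0 : F) = a * b * (c * d * ε) then
        (if a = 1 ∧ d = 1 ∧ ε ≠ 0 then nu (a * b * (c * d * ε)) else 0) else 0) = 0 := by
        split_ifs with h3 h4
        · exfalso
          exact mul_ne_zero hab (mul_ne_zero hcd h4.2.2) h3.symm
        · rfl
        · rfl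
      rw [h2, zero_add]
      have h5 : ((0 : F) ^ 2 + a * b * (c * d) * 0 + (a * b) ^ 2 + (c * d) ^ 2 = 0 ∧
        (0 : F) ^ 2 + a * b * (c * d * ε) * 0 = 0 ∧
        (c * d * ε) ^ 2 + (1 + (a ^ 2)⁻¹ + (b ^ 2)⁻¹) * (0 : F) ^ 2 = 0) ↔
          (ε = 0 ∧ a = c ∧ b = d) := by
        constructor
        · rintro ⟨h6, _, h7⟩
          have h8 : c * d * ε = 0 := by
            apply pow_eq_zero_iff two_ne_zero |>.1
            rw [← h7]; ring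
          have h9 : ε = 0 := (mul_eq_zero.1 h8).resolve_left hcd
          refine ⟨h9, (four_zero a b c d ha hb hc hd hbc ?_).1 ?_⟩
          · rw [← hε, h9]; ring
          · apply sq_inj
            apply CharTwo.add_eq_zero.1
            rw [← h6]; ring
        · rintro ⟨rfl, rfl, rfl⟩
          refine ⟨by grind, by ring, by ring⟩
      simp only [h5]
    · rw [if_neg hf, add_zero]
      by_cases hf2 : f = a * b * (c * d * ε)
      · rw [if_pos hf2, ← hf2]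
        have hε0 : ε ≠ 0 := by
          rintro rfl
          apply hf
          rw [hf2]; ring
        have h5 : (f ^ 2 + a * b * (c * d) * f + (a * b) ^ 2 + (c * d) ^ 2 = 0 ∧
          f ^ 2 + f * f = 0 ∧
          (c * d * ε) ^ 2 + (1 + (a ^ 2)⁻¹ + (b ^ 2)⁻¹) * f ^ 2 = 0) ↔
            (a = 1 ∧ d = 1 ∧ ε ≠ 0) := by
          constructor
          · rintro ⟨h6, _, h7⟩
            have h8 : (c * d * ε) ^ 2 * ((1 + a) * (1 + b)) ^ 2 = 0 := by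
              rw [hf2] at h7
              have : (c * d * ε) ^ 2 * ((1 + a) * (1 + b)) ^ 2 =
                  (c * d * ε) ^ 2 + (1 + (a ^ 2)⁻¹ + (b ^ 2)⁻¹) *
                    (a * b * (c * d * ε)) ^ 2 := by
                field_simp
                grind
              rw [this, h7]
            have h9 : (1 + a) * (1 + b) = 0 := by
              rcases mul_eq_zero.1 h8 with h | h
              · exact absurd (pow_eq_zero_iff two_ne_zero |>.1 h) (mul_ne_zero hcd hε0)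
              · exact pow_eq_zero_iff two_ne_zero |>.1 h
            have ha1 : a = 1 := by
              rcases mul_eq_zero.1 h9 with h | h
              · exact (CharTwo.add_eq_zero.1 h).symm
              · exact absurd (CharTwo.add_eq_zero.1 h).symm hb1
            refine ⟨ha1, ?_, hε0⟩
            have h10 : (b * (1 + c) * (1 + d)) ^ 2 = 0 := by
              have : (b * (1 + c) * (1 + d)) ^ 2 =
                  (b * (c * d)) ^ 2 * (ε ^ 2 + ε) + b ^ 2 + (c * d) ^ 2 := by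
                rw [hε, ha1]
                field_simp
                grind
              rw [this, ← h6, hf2, ha1]
              ring
            have h11 := pow_eq_zero_iff two_ne_zero |>.1 h10
            rcases mul_eq_zero.1 h11 with h | h
            · rcases mul_eq_zero.1 h with h | h
              · exact absurd h hb
              · exact absurd (CharTwo.add_eq_zero.1 h).symm hc1
            · exact (CharTwo.add_eq_zero.1 h).symm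
          · rintro ⟨ha1, hd1, _⟩
            have h12 : ε ^ 2 + ε = (b ^ 2)⁻¹ + (c ^ 2)⁻¹ := by
              rw [hε, ha1, hd1]
              simp only [one_pow, inv_one]
              grind
            have h13 : (b * c) ^ 2 * (ε ^ 2 + ε) = b ^ 2 + c ^ 2 := by
              rw [h12]
              field_simp
              ring
            refine ⟨?_, by grind, ?_⟩
            · rw [hf2, ha1, hd1]
              have h14 : (1 * b * (c * 1 * ε)) ^ 2 + 1 * b * (c * 1) * (1 * b * (c * 1 * ε)) +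
                  (1 * b) ^ 2 + (c * 1) ^ 2 = (b * c) ^ 2 * (ε ^ 2 + ε) + b ^ 2 + c ^ 2 := by ring
              rw [h14, h13]
              grind
            · rw [hf2, ha1, hd1]
              field_simp
              grind
        simp only [h5]
      · rw [if_neg hf2, if_neg]
        rintro ⟨_, h6, _⟩
        have h7 : f * (f + a * b * (c * d * ε)) = 0 := by rw [← h6]; ring
        rcases mul_eq_zero.1 h7 with h | h
        · exact hf h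
        · exact hf2 (CharTwo.add_eq_zero.1 h)
  rw [Finset.sum_congr rfl fun f _ => h1 f, Finset.sum_add_distrib]
  simp only [Finset.sum_ite_eq', mem_univ, if_true]

theorem W_eq (hne : e ≠ 1) (hsq : ∀ x, e (x ^ 2) = e x) (a b c d ε : F)
    (ha : a ≠ 0) (hb : b ≠ 0) (hc : c ≠ 0) (hd : d ≠ 0)
    (hb1 : b ≠ 1) (hc1 : c ≠ 1) (hbc : b ≠ c)
    (hε : ε ^ 2 + ε = (a ^ 2)⁻¹ + (b ^ 2)⁻¹ + (c ^ 2)⁻¹ + (d ^ 2)⁻¹) :
    e ((a ^ 2)⁻¹ + (b ^ 2)⁻¹) * ((if a * b = c * d then e ((a * b) ^ 2)⁻¹ else 0) +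
      ZW e (a * b) (c * d) (c * d * ε) (1 + (a ^ 2)⁻¹ + (b ^ 2)⁻¹)) =
      if ε ≠ 0 then e (1 + (1 + a⁻¹) * (1 + b⁻¹) * (1 + (a⁻¹ * b⁻¹ + c⁻¹ * d⁻¹) / ε)) else 0 := by
  have hcd : c * d ≠ 0 := mul_ne_zero hc hd
  have hab : a * b ≠ 0 := mul_ne_zero ha hb
  by_cases hε0 : ε = 0
  · subst hε0
    rw [if_neg (show ¬ ((0 : F) ≠ 0) by simp)]
    by_cases hl : a * b = c * d
    · have h1 := (four_zero a b c d ha hb hc hd hbc (by rw [← hε]; ring)).1 hl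
      rw [if_pos hl]
      have h2 : ZW e (a * b) (c * d) (c * d * 0) (1 + (a ^ 2)⁻¹ + (b ^ 2)⁻¹) =
          e ((a * b) ^ 2)⁻¹ * ∑ u : Fˣ, e (((1 + a) * (1 + b) / (a * b) ^ 2) * (u : F)⁻¹) := by
        unfold ZW
        rw [← Finset.add_sum_erase _ _ (mem_univ (0 : F)), if_neg (by simp), zero_add,
          Finset.mul_sum]
        symm
        refine Finset.sum_bij (fun (y : Fˣ) _ => (y : F)) ?_ ?_ ?_ ?_
        · intro y _
          simp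
        · intro y _ y' _ h
          exact Units.ext h
        · intro y hy
          simp only [mem_erase, mem_univ, and_true] at hy
          exact ⟨Units.mk0 y hy, mem_univ _, rfl⟩
        · intro y _
          have hy := y.ne_zero
          rw [if_pos ⟨hy, by rw [hl]; ring⟩, ← AddChar.map_add_eq_mul]
          apply e_congr e hsq ((a * b + a + b) / (a * b) ^ 2 * (y : F)⁻¹)
          field_simp
          grind
      rw [h2]
      have h3 : ∑ u : Fˣ, e (((1 + a) * (1 + b) / (a * b) ^ 2) * (u : F)⁻¹) = -1 := by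
        have h4 : ∑ y : Fˣ, e (((1 + a) * (1 + b) / (a * b) ^ 2) * (y : F)⁻¹) =
            ∑ y : Fˣ, e (((1 + a) * (1 + b) / (a * b) ^ 2) * (y : F)) := by
          refine Fintype.sum_equiv (Equiv.inv Fˣ) _ _ fun y => ?_
          simp
        rw [h4, sum_units_e e hne, if_neg, zero_sub]
        apply div_ne_zero _ (pow_ne_zero 2 hab)
        apply mul_ne_zero
        · intro h
          apply hc1
          rw [← h1.1]
          exact (CharTwo.add_eq_zero.1 h).symm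
        · intro h
          exact hb1 (CharTwo.add_eq_zero.1 h).symm
      rw [h3]
      ring
    · rw [if_neg hl]
      have h2 : ZW e (a * b) (c * d) (c * d * 0) (1 + (a ^ 2)⁻¹ + (b ^ 2)⁻¹) = 0 := by
        unfold ZW
        apply Finset.sum_eq_zero
        intro v _
        rw [if_neg]
        rintro ⟨h3, h4⟩
        apply hl
        apply mul_right_cancel₀ h3
        rw [h4]; ring
      rw [h2]; ring
  · rw [if_pos hε0]
    by_cases hl : a * b = c * d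
    · rw [if_pos hl]
      have h2 : ZW e (a * b) (c * d) (c * d * ε) (1 + (a ^ 2)⁻¹ + (b ^ 2)⁻¹) = 0 := by
        unfold ZW
        apply Finset.sum_eq_zero
        intro v _
        rw [if_neg]
        rintro ⟨h3, h4⟩
        rw [hl] at h4
        have h5 : c * d * ε = 0 := by
          have := h4.symm
          simpa using this
        exact mul_ne_zero hcd hε0 h5
      rw [h2, add_zero]
      have h3 : a⁻¹ * b⁻¹ + c⁻¹ * d⁻¹ = 0 := by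
        rw [← mul_inv, ← mul_inv, hl, CharTwo.add_self_eq_zero]
      rw [h3]
      have h4 := idB1 e hsq a⁻¹ b⁻¹ ε 0 hε0
      rw [← h4]
      congr 2
      · simp only [inv_pow]
      · rw [zero_div]
        simp only [mul_zero, add_zero, zero_pow two_ne_zero, mul_pow, mul_inv, inv_pow]
    · rw [if_neg hl, zero_add]
      have hs : a * b + c * d ≠ 0 := fun h => hl (CharTwo.add_eq_zero.1 h)
      have h2 : ZW e (a * b) (c * d) (c * d * ε) (1 + (a ^ 2)⁻¹ + (b ^ 2)⁻¹) =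
          e ((a⁻¹ * b⁻¹) ^ 2 + a⁻¹ * b⁻¹ * ((a⁻¹ * b⁻¹ + c⁻¹ * d⁻¹) / ε) +
            (1 + a⁻¹ ^ 2 + b⁻¹ ^ 2) * ((a⁻¹ * b⁻¹ + c⁻¹ * d⁻¹) / ε) ^ 2) := by
        unfold ZW
        rw [Finset.sum_eq_single (c * d * ε / (a * b + c * d))]
        · rw [if_pos]
          · congr 1
            field_simp
            ring
          · refine ⟨div_ne_zero (mul_ne_zero hcd hε0) hs, ?_⟩
            field_simp
            grind
        · intro v _ hv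
          rw [if_neg]
          rintro ⟨_, h5⟩
          apply hv
          field_simp
          grind
        · simp
      rw [h2]
      have h4 := idB1 e hsq a⁻¹ b⁻¹ ε (a⁻¹ * b⁻¹ + c⁻¹ * d⁻¹) hε0
      rw [← h4]
      simp only [inv_pow]

theorem eps_term (hne : e ≠ 1) (hsq : ∀ x, e (x ^ 2) = e x) (he1 : e 1 = -1)
    (h3 : Fintype.card F % 3 = 2) (a b c d ε : F)
    (ha : a ≠ 0) (hb : b ≠ 0) (hc : c ≠ 0) (hd : d ≠ 0)
    (hb1 : b ≠ 1) (hc1 : c ≠ 1) (hbc : b ≠ c)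
    (hε : ε ^ 2 + ε = (a ^ 2)⁻¹ + (b ^ 2)⁻¹ + (c ^ 2)⁻¹ + (d ^ 2)⁻¹) :
    -(e ((a ^ 2)⁻¹ + (b ^ 2)⁻¹) * GG (a * b) (c * d) (c * d * ε) (1 + (a ^ 2)⁻¹ + (b ^ 2)⁻¹)) =
      ∑ f : F, (if f ≠ 0 ∧ f ≠ a * b * (c * d * ε) then
        nu f * e (1 / f + (1 + a) * (1 + b) * (1 + c) * (1 + d) / (f + a * b * c * d * ε)) else 0) +
      e ((a ^ 2)⁻¹ + (b ^ 2)⁻¹) * (nu ((a * b) ^ 2) * nu ((c * d) ^ 2)) +
      (if ε ≠ 0 then e (1 + (1 + a⁻¹) * (1 + b⁻¹) * (1 + (a⁻¹ * b⁻¹ + c⁻¹ * d⁻¹) / ε)) else 0) -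
      (Fintype.card F : ℂ) * (e ((a ^ 2)⁻¹ + (b ^ 2)⁻¹) *
        ((if a = 1 ∧ d = 1 ∧ ε ≠ 0 then nu (a * b * (c * d * ε)) else 0) +
          (if ε = 0 ∧ a = c ∧ b = d then 1 else 0))) := by
  have h1 := GG_eq e hne hsq h3 (a * b) (c * d) (c * d * ε) (1 + (a ^ 2)⁻¹ + (b ^ 2)⁻¹)
    (mul_ne_zero ha hb)
  have h2 := T_eq a b c d ε ha hb hc hd hb1 hc1 hbc hε
  have h4 := W_eq e hne hsq a b c d ε ha hb hc hd hb1 hc1 hbc hε
  have h5 : ∑ f : F, (if f ≠ 0 ∧ f ≠ a * b * (c * d * ε) then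
        nu f * e (1 / f + (1 + a) * (1 + b) * (1 + c) * (1 + d) / (f + a * b * c * d * ε)) else 0) =
      - (e ((a ^ 2)⁻¹ + (b ^ 2)⁻¹) * ∑ f : F, (if f ≠ 0 ∧ f ≠ a * b * (c * d * ε) then
        nu f * e ((f ^ 2 + a * b * (c * d) * f + (a * b) ^ 2 + (c * d) ^ 2) *
      ((c * d * ε) ^ 2 + (1 + (a ^ 2)⁻¹ + (b ^ 2)⁻¹) * f ^ 2) /
        (f ^ 2 + a * b * (c * d * ε) * f) ^ 2) else 0)) := by
    rw [Finset.mul_sum, ← Finset.sum_neg_distrib]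
    refine Finset.sum_congr rfl fun f _ => ?_
    split_ifs with hf
    · linear_combination (nu f) * mainA e hsq he1 a b c d f ε ha hb hc hd hf.1 hf.2 hε
    · ring
  rw [h1, h2, h5, ← h4]
  ring

theorem S4_eq (hsq : ∀ x, e (x ^ 2) = e x) (he1 : e 1 = -1) (a b c d : F) :
    ∑ y : Fˣ, k0 (a ^ 2) (y : F) (b ^ 2) * (e (y : F)⁻¹ * k0 (y : F) (d ^ 2) (c ^ 2)) =
      ∑ ε : F, (if ε ^ 2 + ε = (a ^ 2)⁻¹ + (b ^ 2)⁻¹ + (c ^ 2)⁻¹ + (d ^ 2)⁻¹ then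
        -(e ((a ^ 2)⁻¹ + (b ^ 2)⁻¹) *
          GG (a * b) (c * d) (c * d * ε) (1 + (a ^ 2)⁻¹ + (b ^ 2)⁻¹)) else 0) := by
  rw [k0_sum (a ^ 2) (b ^ 2) (fun y : F => e y⁻¹ * k0 y (d ^ 2) (c ^ 2))]
  set L := 1 + (a ^ 2)⁻¹ + (b ^ 2)⁻¹ with hL
  have heL : e L = - e ((a ^ 2)⁻¹ + (b ^ 2)⁻¹) := by
    rw [hL, add_assoc, AddChar.map_add_eq_mul, he1]; ring
  have h1 : ∀ v : F, (if v ^ 2 + v + L = 0 then (0 : ℂ) else
      nu (a ^ 2 * b ^ 2 * v ^ 2 / (v ^ 2 + v + L)) *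
        (e (v ^ 2 + v + L)⁻¹⁻¹ * k0 (v ^ 2 + v + L)⁻¹ (d ^ 2) (c ^ 2))) =
      ∑ ε : F, (if ε ^ 2 + ε = (a ^ 2)⁻¹ + (b ^ 2)⁻¹ + (c ^ 2)⁻¹ + (d ^ 2)⁻¹ then
        e ((a ^ 2)⁻¹ + (b ^ 2)⁻¹) * (if v ^ 2 + v + L = 0 then 0 else
          nu ((a * b * v) ^ 2 / (v ^ 2 + v + L)) *
            nu ((c * d * v + c * d * ε) ^ 2 / (v ^ 2 + v + L))) else 0) := by
    intro v
    by_cases hY : v ^ 2 + v + L = 0
    · simp only [hY, if_true, mul_zero, ite_self, Finset.sum_const_zero]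
    · rw [if_neg hY]
      have h2 : k0 (v ^ 2 + v + L)⁻¹ (d ^ 2) (c ^ 2) =
          - ∑ ε : F, (if ε ^ 2 + ε = (a ^ 2)⁻¹ + (b ^ 2)⁻¹ + (c ^ 2)⁻¹ + (d ^ 2)⁻¹ then
            nu ((c * d * v + c * d * ε) ^ 2 / (v ^ 2 + v + L)) else 0) := by
        unfold k0
        congr 1
        symm
        refine Fintype.sum_equiv (Equiv.addLeft v) _ _ fun ε => ?_
        simp only [Equiv.coe_addLeft, inv_inv]
        have h4 : (ε ^ 2 + ε = (a ^ 2)⁻¹ + (b ^ 2)⁻¹ + (c ^ 2)⁻¹ + (d ^ 2)⁻¹) ↔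
            ((v + ε) ^ 2 + (v + ε) = 1 + (v ^ 2 + v + L) + (d ^ 2)⁻¹ + (c ^ 2)⁻¹) := by
          rw [hL, CharTwo.add_sq]
          constructor
          · intro h
            grind
          · intro h
            grind
        have h5 : (c * d * v + c * d * ε) ^ 2 / (v ^ 2 + v + L) =
            (v ^ 2 + v + L)⁻¹ * d ^ 2 * c ^ 2 * (v + ε) ^ 2 := by
          field_simp
        simp only [h4, h5]
      rw [h2, inv_inv, AddChar.map_add_eq_mul, e_as e hsq, heL]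
      have h6 : nu (a ^ 2 * b ^ 2 * v ^ 2 / (v ^ 2 + v + L)) *
          (1 * -e ((a ^ 2)⁻¹ + (b ^ 2)⁻¹) * - ∑ ε : F,
            (if ε ^ 2 + ε = (a ^ 2)⁻¹ + (b ^ 2)⁻¹ + (c ^ 2)⁻¹ + (d ^ 2)⁻¹ then
            nu ((c * d * v + c * d * ε) ^ 2 / (v ^ 2 + v + L)) else 0)) =
          (nu (a ^ 2 * b ^ 2 * v ^ 2 / (v ^ 2 + v + L)) * e ((a ^ 2)⁻¹ + (b ^ 2)⁻¹)) *
            ∑ ε : F, (if ε ^ 2 + ε = (a ^ 2)⁻¹ + (b ^ 2)⁻¹ + (c ^ 2)⁻¹ + (d ^ 2)⁻¹ then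
            nu ((c * d * v + c * d * ε) ^ 2 / (v ^ 2 + v + L)) else 0) := by ring
      rw [h6, Finset.mul_sum]
      refine Finset.sum_congr rfl fun ε _ => ?_
      have h7 : a ^ 2 * b ^ 2 * v ^ 2 = (a * b * v) ^ 2 := by ring
      rw [h7]
      split_ifs
      · ring
      · ring
  rw [Finset.sum_congr rfl fun v _ => h1 v, Finset.sum_comm, ← Finset.sum_neg_distrib]
  refine Finset.sum_congr rfl fun ε _ => ?_
  split_ifs
  · rw [← Finset.mul_sum]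
    rfl
  · simp

/-- the four point function. -/
noncomputable def PP (x t z w : F) : ℂ :=
  ∑ y : Fˣ, k0 x (y : F) z * (e (y : F)⁻¹ * k0 (y : F) t w) -
    (e (x⁻¹ + z⁻¹) + e (t⁻¹ + w⁻¹)) * (nu (x * z) * nu (t * w)) -
    (if x = z ∧ t = w then (Fintype.card F : ℂ) * e (x⁻¹ + t⁻¹) else 0)

/-- one term of the four point function. -/
noncomputable def TE (a b c d ε : F) : ℂ :=
  ∑ f : F, (if f ≠ 0 ∧ f ≠ a * b * (c * d * ε) then
        nu f * e (1 / f + (1 + a) * (1 + b) * (1 + c) * (1 + d) / (f + a * b * c * d * ε)) else 0) +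
      (if ε ≠ 0 then e (1 + (1 + a⁻¹) * (1 + b⁻¹) * (1 + (a⁻¹ * b⁻¹ + c⁻¹ * d⁻¹) / ε)) else 0) -
      (Fintype.card F : ℂ) * (e ((a ^ 2)⁻¹ + (b ^ 2)⁻¹) *
        (if a = 1 ∧ d = 1 ∧ ε ≠ 0 then nu (a * b * (c * d * ε)) else 0))

theorem TE_symm (hsq : ∀ x, e (x ^ 2) = e x) (a b c d ε : F)
    (hε : ε ^ 2 + ε = (a ^ 2)⁻¹ + (b ^ 2)⁻¹ + (c ^ 2)⁻¹ + (d ^ 2)⁻¹) :
    TE e a b c d ε = TE e a c b d ε := by
  unfold TE
  have h1 : a * b * (c * d * ε) = a * c * (b * d * ε) := by ring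
  have h2 : a * b * c * d * ε = a * c * b * d * ε := by ring
  have h3 : (1 + a) * (1 + b) * (1 + c) * (1 + d) = (1 + a) * (1 + c) * (1 + b) * (1 + d) := by
    ring
  have h4 : (if ε ≠ 0 then e (1 + (1 + a⁻¹) * (1 + b⁻¹) * (1 + (a⁻¹ * b⁻¹ + c⁻¹ * d⁻¹) / ε))
      else 0) =
      (if ε ≠ 0 then e (1 + (1 + a⁻¹) * (1 + c⁻¹) * (1 + (a⁻¹ * c⁻¹ + b⁻¹ * d⁻¹) / ε)) else 0) := by
    split_ifs with h
    · apply idB2 e hsq a⁻¹ b⁻¹ c⁻¹ d⁻¹ ε h
      rw [hε]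
      simp only [← inv_pow]
      grind
    · rfl
  have h5 : e ((a ^ 2)⁻¹ + (b ^ 2)⁻¹) *
        (if a = 1 ∧ d = 1 ∧ ε ≠ 0 then nu (a * b * (c * d * ε)) else 0) =
      e ((a ^ 2)⁻¹ + (c ^ 2)⁻¹) *
        (if a = 1 ∧ d = 1 ∧ ε ≠ 0 then nu (a * c * (b * d * ε)) else 0) := by
    rw [← h1]
    split_ifs with h
    · congr 1
      apply e_congr e hsq ε
      rw [hε, h.1, h.2.1]
      ring
    · ring
  rw [h4, h5]
  simp only [h1, h2, h3]

theorem P_eq (hne : e ≠ 1) (hsq : ∀ x, e (x ^ 2) = e x) (he1 : e 1 = -1)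
    (h3 : Fintype.card F % 3 = 2) (a b c d : F)
    (ha : a ≠ 0) (hb : b ≠ 0) (hc : c ≠ 0) (hd : d ≠ 0)
    (hb1 : b ≠ 1) (hc1 : c ≠ 1) (hbc : b ≠ c) :
    PP e (a ^ 2) (d ^ 2) (b ^ 2) (c ^ 2) =
      ∑ ε : F, (if ε ^ 2 + ε = (a ^ 2)⁻¹ + (b ^ 2)⁻¹ + (c ^ 2)⁻¹ + (d ^ 2)⁻¹ then
        TE e a b c d ε else 0) -
      (if a = c ∧ b = d then (Fintype.card F : ℂ) * e ((a ^ 2)⁻¹ + (d ^ 2)⁻¹) else 0) -
      (if a = b ∧ c = d then (Fintype.card F : ℂ) * e ((a ^ 2)⁻¹ + (d ^ 2)⁻¹) else 0) := by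
  unfold PP
  rw [S4_eq e hsq he1]
  have h1 : ∀ ε : F, (if ε ^ 2 + ε = (a ^ 2)⁻¹ + (b ^ 2)⁻¹ + (c ^ 2)⁻¹ + (d ^ 2)⁻¹ then
        -(e ((a ^ 2)⁻¹ + (b ^ 2)⁻¹) *
          GG (a * b) (c * d) (c * d * ε) (1 + (a ^ 2)⁻¹ + (b ^ 2)⁻¹)) else 0) =
      (if ε ^ 2 + ε = (a ^ 2)⁻¹ + (b ^ 2)⁻¹ + (c ^ 2)⁻¹ + (d ^ 2)⁻¹ then
        TE e a b c d ε else 0) +
      e ((a ^ 2)⁻¹ + (b ^ 2)⁻¹) * (nu ((a * b) ^ 2) * nu ((c * d) ^ 2)) *
        (if ε ^ 2 + ε = (a ^ 2)⁻¹ + (b ^ 2)⁻¹ + (c ^ 2)⁻¹ + (d ^ 2)⁻¹ then 1 else 0) -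
      (if ε = 0 then
        (if a = c ∧ b = d then (Fintype.card F : ℂ) * e ((a ^ 2)⁻¹ + (d ^ 2)⁻¹) else 0) else 0) := by
    intro ε
    by_cases hε : ε ^ 2 + ε = (a ^ 2)⁻¹ + (b ^ 2)⁻¹ + (c ^ 2)⁻¹ + (d ^ 2)⁻¹
    · rw [if_pos hε, if_pos hε, if_pos hε, eps_term e hne hsq he1 h3 a b c d ε ha hb hc hd
        hb1 hc1 hbc hε]
      unfold TE
      have hB : (Fintype.card F : ℂ) * (e ((a ^ 2)⁻¹ + (b ^ 2)⁻¹) *
          (if ε = 0 ∧ a = c ∧ b = d then 1 else 0)) =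
          (if ε = 0 then (if a = c ∧ b = d then (Fintype.card F : ℂ) *
            e ((a ^ 2)⁻¹ + (d ^ 2)⁻¹) else 0) else 0) := by
        by_cases h0 : ε = 0
        · by_cases h4 : a = c ∧ b = d
          · rw [if_pos ⟨h0, h4⟩, if_pos h0, if_pos h4, ← h4.2]; ring
          · rw [if_neg (fun h => h4 h.2), if_pos h0, if_neg h4]; ring
        · rw [if_neg (fun h => h0 h.1), if_neg h0]; ring
      rw [← hB]
      ring
    · rw [if_neg hε, if_neg hε, if_neg hε]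
      have : (if ε = 0 then
        (if a = c ∧ b = d then (Fintype.card F : ℂ) * e ((a ^ 2)⁻¹ + (d ^ 2)⁻¹) else 0)
          else 0) = 0 := by
        split_ifs with h0 h4
        · exfalso
          apply hε
          rw [h0, h4.1, h4.2]
          grind
        · rfl
        · rfl
      rw [this]; ring
  rw [Finset.sum_congr rfl fun ε _ => h1 ε, Finset.sum_sub_distrib, Finset.sum_add_distrib,
    ← Finset.mul_sum, count_as e hne hsq]
  simp only [Finset.sum_ite_eq', mem_univ, if_true]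
  have h5 : (a ^ 2 = b ^ 2 ∧ d ^ 2 = c ^ 2) ↔ (a = b ∧ c = d) := by
    constructor
    · rintro ⟨h, h'⟩
      exact ⟨sq_inj h, (sq_inj h').symm⟩
    · rintro ⟨rfl, rfl⟩
      exact ⟨rfl, rfl⟩
  have h6 : a ^ 2 * b ^ 2 = (a * b) ^ 2 := by ring
  have h7 : d ^ 2 * c ^ 2 = (c * d) ^ 2 := by ring
  have h8 : e ((a ^ 2)⁻¹ + (b ^ 2)⁻¹) * e ((a ^ 2)⁻¹ + (b ^ 2)⁻¹ + (c ^ 2)⁻¹ + (d ^ 2)⁻¹) =
      e ((d ^ 2)⁻¹ + (c ^ 2)⁻¹) := by
    rw [← AddChar.map_add_eq_mul]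
    congr 1
    grind
  simp only [h5, h6, h7]
  linear_combination (nu ((a * b) ^ 2) * nu ((c * d) ^ 2)) * h8

/-- the four point function is symmetric. -/
theorem P_symm (hne : e ≠ 1) (hsq : ∀ x, e (x ^ 2) = e x) (he1 : e 1 = -1)
    (h3 : Fintype.card F % 3 = 2) (x t z w : F) (hx : x ≠ 0) (ht : t ≠ 0) (hz : z ≠ 0)
    (hw : w ≠ 0) (hz1 : z ≠ 1) (hw1 : w ≠ 1) : PP e x t z w = PP e x t w z := by
  by_cases hzw : z = w
  · rw [hzw]
  obtain ⟨a, rfl⟩ := sq_surj x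
  obtain ⟨b, rfl⟩ := sq_surj z
  obtain ⟨c, rfl⟩ := sq_surj w
  obtain ⟨d, rfl⟩ := sq_surj t
  have sq0 : ∀ r : F, r ^ 2 ≠ 0 → r ≠ 0 := by
    rintro r h rfl
    exact h (by ring)
  have sq1 : ∀ r : F, r ^ 2 ≠ 1 → r ≠ 1 := by
    rintro r h rfl
    exact h (by ring)
  have hbc : b ≠ c := fun h => hzw (by rw [h])
  rw [P_eq e hne hsq he1 h3 a b c d (sq0 _ hx) (sq0 _ hz) (sq0 _ hw) (sq0 _ ht) (sq1 _ hz1)
    (sq1 _ hw1) hbc, P_eq e hne hsq he1 h3 a c b d (sq0 _ hx) (sq0 _ hw) (sq0 _ hz) (sq0 _ ht)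
    (sq1 _ hw1) (sq1 _ hz1) (Ne.symm hbc)]
  have h1 : ∑ ε : F, (if ε ^ 2 + ε = (a ^ 2)⁻¹ + (b ^ 2)⁻¹ + (c ^ 2)⁻¹ + (d ^ 2)⁻¹ then
        TE e a b c d ε else 0) =
      ∑ ε : F, (if ε ^ 2 + ε = (a ^ 2)⁻¹ + (c ^ 2)⁻¹ + (b ^ 2)⁻¹ + (d ^ 2)⁻¹ then
        TE e a c b d ε else 0) := by
    have h2 : (a ^ 2)⁻¹ + (c ^ 2)⁻¹ + (b ^ 2)⁻¹ + (d ^ 2)⁻¹ =
        (a ^ 2)⁻¹ + (b ^ 2)⁻¹ + (c ^ 2)⁻¹ + (d ^ 2)⁻¹ := by ring
    refine Finset.sum_congr rfl fun ε _ => ?_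
    rw [h2]
    by_cases hε : ε ^ 2 + ε = (a ^ 2)⁻¹ + (b ^ 2)⁻¹ + (c ^ 2)⁻¹ + (d ^ 2)⁻¹
    · rw [if_pos hε, if_pos hε, TE_symm e hsq a b c d ε hε]
    · rw [if_neg hε, if_neg hε]
  rw [h1]
  ring

end Ker4

end Pool.Agent.Zk86.Q2
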