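import Mathlib
import Pool.Agent.Zk86.Q2.Sums

/-! Orthogonality of the multiplicative translates of `nu`. -/

set_option autoImplicit false
set_option linter.unusedSectionVars false

namespace Pool.Agent.Zk86.Q2

open Finset Pool.Agent.R478.BES

section Orth

variable {F : Type*} [Field F] [Fintype F] [DecidableEq F] [CharP F 2]

variable (e : AddChar F ℂ)

theorem sum_units_inv (hne : e ≠ 1) (c : F) :
    ∑ y : Fˣ, e (c * (y : F)⁻¹) = (if c = 0 then (Fintype.card F : ℂ) else 0) - 1 := by
  have h4 : ∑ y : Fˣ, e (c * (y : F)⁻¹) = ∑ y : Fˣ, e (c * (y : F)) := by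
    refine Fintype.sum_equiv (Equiv.inv Fˣ) _ _ fun y => ?_
    simp
  rw [h4, sum_units_e e hne]

theorem nu_units : ∑ y : Fˣ, nu (y : F) = -1 := by
  have h := nu_sum (F := F)
  rw [← Finset.add_sum_erase _ _ (mem_univ (0 : F)), nu_zero] at h
  have h2 : ∑ x ∈ univ.erase (0 : F), nu x = ∑ y : Fˣ, nu (y : F) := by
    symm
    refine Finset.sum_bij (fun (y : Fˣ) _ => (y : F)) ?_ ?_ ?_ ?_
    · intro y _
      simp
    · intro y _ y' _ h
      exact Units.ext h
    · intro y hy
      simp only [mem_erase, mem_univ, and_true] at hy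
      exact ⟨Units.mk0 y hy, mem_univ _, rfl⟩
    · intro y _; rfl
  rw [← h2]
  linear_combination h

theorem nu_units_mul (z : F) (hz : z ≠ 0) : ∑ y : Fˣ, nu ((y : F) * z) = -1 := by
  rw [← nu_units (F := F)]
  refine Fintype.sum_equiv (Equiv.mulRight (Units.mk0 z hz)) _ _ fun y => ?_
  simp

theorem orth (hne : e ≠ 1) (hsq : ∀ x, e (x ^ 2) = e x)
    (h3 : Fintype.card F % 3 = 2) (x z : F) (hx : x ≠ 0) (hz : z ≠ 0) :
    ∑ y : Fˣ, nu (x * y) * nu (y * z) = (if x = z then (Fintype.card F : ℂ) else 0) - 1 := by
  obtain ⟨l, hl⟩ := sq_surj (x * z)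
  have hxz : x * z ≠ 0 := mul_ne_zero hx hz
  have hl0 : l ≠ 0 := by
    rintro rfl
    apply hxz
    rw [hl]; ring
  have h1 : ∀ y : Fˣ, nu (x * y) * nu (y * z) =
      ∑ C : F, (if C ^ 2 + l * y * C + (x * y + y * z) = 0 then nu C else 0) -
        (if x = z then e (x⁻¹ * (y : F)⁻¹) else 0) := by
    intro y
    rw [pfs e hne hsq h3 (x * y) (y * z) (l * y) (by rw [mul_pow, ← hl]; ring)]
    congr 1
    have h2 : (x * y = y * z ∧ x * y ≠ 0) ↔ x = z := by
      constructor
      · rintro ⟨h, _⟩
        rw [mul_comm] at h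
        exact mul_left_cancel₀ y.ne_zero h
      · rintro rfl
        exact ⟨mul_comm _ _, mul_ne_zero hx y.ne_zero⟩
    simp only [h2, mul_inv]
  rw [Finset.sum_congr rfl fun y _ => h1 y, Finset.sum_sub_distrib, Finset.sum_comm]
  have h2 : ∑ y : Fˣ, (if x = z then e (x⁻¹ * (y : F)⁻¹) else 0) =
      if x = z then (-1 : ℂ) else 0 := by
    split_ifs
    · rw [sum_units_inv e hne, if_neg (inv_ne_zero hx), zero_sub]
    · simp
  have h5 : ∀ C : F, ∑ y : Fˣ, (if C ^ 2 + l * y * C + (x * y + y * z) = 0 then
      nu C else 0) =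
      nu C + (if C = 0 then (if x = z then (Fintype.card F : ℂ) - 2 else -1) else 0) := by
    intro C
    by_cases hC : C = 0
    · subst hC
      rw [if_pos rfl, nu_zero]
      by_cases hxzeq : x = z
      · rw [if_pos hxzeq]
        have h6 : ∀ y : Fˣ, (if (0 : F) ^ 2 + l * y * 0 + (x * y + y * z) = 0 then
            (1 : ℂ) else 0) = 1 := by
          intro y
          rw [if_pos (by rw [hxzeq]; grind)]
        rw [Finset.sum_congr rfl fun y _ => h6 y, Finset.sum_const, Finset.card_univ,
          Fintype.card_units, nsmul_eq_mul, mul_one, Nat.cast_sub Fintype.card_pos]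
        push_cast
        ring
      · rw [if_neg hxzeq]
        rw [Finset.sum_eq_zero]
        · ring
        intro y _
        rw [if_neg]
        intro h6
        have h7 : (y : F) * (x + z) = 0 := by rw [← h6]; ring
        exact hxzeq (CharTwo.add_eq_zero.1 ((mul_eq_zero.1 h7).resolve_left y.ne_zero))
    · rw [if_neg hC, add_zero]
      have h6 : ∀ y : Fˣ, (C ^ 2 + l * y * C + (x * y + y * z) = 0) ↔
          ((y : F)⁻¹ = (l * C + x + z) / C ^ 2) := by
        intro y
        have hy := y.ne_zero
        constructor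
        · intro h
          field_simp
          grind
        · intro h
          field_simp at h
          grind
      simp only [h6]
      by_cases h7 : l * C + x + z = 0
      · have h9 : nu C = 0 := by
          apply nu_split e hne hsq h3 C hC
          have h10 : x + z = l * C := by grind
          have h11 : C⁻¹ = l / (x + z) := by
            rw [h10]; field_simp
          have hxz0 : x + z ≠ 0 := by rw [h10]; exact mul_ne_zero hl0 hC
          rw [h11, ← e_as e hsq (x / (x + z)), ← hsq (l / (x + z))]
          congr 1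
          rw [div_pow, ← hl]
          field_simp
          grind
        rw [h9]
        apply Finset.sum_eq_zero
        intro y _
        split_ifs <;> rfl
      · have hne0 : C ^ 2 / (l * C + x + z) ≠ 0 := div_ne_zero (pow_ne_zero 2 hC) h7
        rw [Finset.sum_eq_single (Units.mk0 _ hne0)]
        · rw [if_pos (by rw [Units.val_mk0, inv_div])]
        · intro y _ hy
          rw [if_neg]
          intro h
          apply hy
          ext
          rw [Units.val_mk0, ← inv_div, ← h, inv_inv]
        · simp
  rw [h2, Finset.sum_congr rfl fun C _ => h5 C, Finset.sum_add_distrib, nu_sum]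
  simp only [Finset.sum_ite_eq', mem_univ, if_true]
  split_ifs <;> ring

end Orth

end Pool.Agent.Zk86.Q2
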