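import Mathlib
import Pool.Agent.Zk86.Q2.Ker3
import Pool.Agent.Zk86.Q2.Ker4
import Pool.Agent.Zk86.Q2.Orth

/-! The commuting matrices. -/

set_option autoImplicit false
set_option linter.unusedSectionVars false

namespace Pool.Agent.Zk86.Q2

open Finset Matrix Sum Pool.Agent.R478.BES

variable {F : Type*} [Field F] [Fintype F] [DecidableEq F]

/-- the matrix `M`. -/
noncomputable def MA (e : AddChar F ℂ) (s : ℂ) : Matrix (Fˣ ⊕ Fin 3) (Fˣ ⊕ Fin 3) ℂ :=
  fun i j => match i, j with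
  | inl x, inl y => e (x : F)⁻¹ * nu ((x : F) * y)
  | inl x, inr 0 => e (x : F)⁻¹
  | inl _, inr 1 => 0
  | inl _, inr 2 => 0
  | inr 0, inl _ => 0
  | inr 0, inr 0 => 0
  | inr 0, inr 1 => 0
  | inr 0, inr 2 => s
  | inr 1, inl _ => 1
  | inr 1, inr 0 => 1
  | inr 1, inr 1 => 0
  | inr 1, inr 2 => 0
  | inr 2, inl _ => 0
  | inr 2, inr 0 => 0
  | inr 2, inr 1 => -s
  | inr 2, inr 2 => 0

/-- the matrices `K z`. -/
noncomputable def KZ (e : AddChar F ℂ) (s : ℂ) (z : Fˣ) : Matrix (Fˣ ⊕ Fin 3) (Fˣ ⊕ Fin 3) ℂ :=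
  fun i j => match i, j with
  | inl x, inl y => k0 (x : F) y z * e (y : F)⁻¹
  | inl x, inr 0 => e (z : F)⁻¹ * e (x : F)⁻¹ * nu ((x : F) * z)
  | inl x, inr 1 => -nu ((x : F) * z)
  | inl x, inr 2 => if x = z then s * e (z : F)⁻¹ else 0
  | inr 0, inl y => -(nu ((y : F) * z) * e (y : F)⁻¹)
  | inr 0, inr 0 => 0
  | inr 0, inr 1 => -1
  | inr 0, inr 2 => 0
  | inr 1, inl y => e (z : F)⁻¹ * nu ((y : F) * z)
  | inr 1, inr 0 => e (z : F)⁻¹
  | inr 1, inr 1 => 0
  | inr 1, inr 2 => 0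
  | inr 2, inl y => if y = z then -s else 0
  | inr 2, inr 0 => 0
  | inr 2, inr 1 => 0
  | inr 2, inr 2 => 0

variable [CharP F 2]

section KK
variable (e : AddChar F ℂ) (hne : e ≠ 1) (hsq : ∀ x, e (x ^ 2) = e x) (he1 : e 1 = -1)
  (h3 : Fintype.card F % 3 = 2) (s : ℂ) (hs : s * s = Fintype.card F) (z w : Fˣ)
  (hz1 : (z : F) ≠ 1) (hw1 : (w : F) ≠ 1)

include hsq he1 in
theorem supp' (x y z : F) : k0 x y z * e y⁻¹ = -(e x⁻¹ * e z⁻¹ * k0 x y z) := by
  have h := k0_support e hsq he1 x y z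
  rw [AddChar.map_add_eq_mul, AddChar.map_add_eq_mul] at h
  have h1 := e_self e x⁻¹
  have h2 := e_self e z⁻¹
  linear_combination (e x⁻¹ * e z⁻¹) * h - (k0 x y z * e y⁻¹ * (e z⁻¹ * e z⁻¹)) * h1 -
    (k0 x y z * e y⁻¹) * h2

/-- the three point sum is symmetric in its last two arguments. -/
theorem HH_comm (hne : e ≠ 1) (hsq : ∀ x, e (x ^ 2) = e x) (he1 : e 1 = -1)
    (h3 : Fintype.card F % 3 = 2) (x z w : F) (hx : x ≠ 0) (hz : z ≠ 0) (hw : w ≠ 0)
    (hz1 : z ≠ 1) (hw1 : w ≠ 1) : HH e x w z = HH e x z w := by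
  rw [HH_symm e hne hsq he1 h3 x w z hx hw hz hz1, HH_swap13 e w x z,
    HH_symm e hne hsq he1 h3 z x w hz hx hw hw1]

include hs in
theorem KK_xt (x t : Fˣ) : (KZ e s z * KZ e s w) (inl x) (inl t) =
    e (t : F)⁻¹ * PP e x t z w := by
  rw [Matrix.mul_apply, sum_u3]
  simp only [KZ]
  unfold PP
  have h3 : ((if x = z then s * e (z : F)⁻¹ else 0) * if t = w then -s else 0) =
      - (e (t : F)⁻¹ * (if (x : F) = z ∧ (t : F) = w then
        (Fintype.card F : ℂ) * e ((x : F)⁻¹ + (t : F)⁻¹) else 0)) := by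
    have c1 : ((x : F) = z ∧ (t : F) = w) ↔ (x = z ∧ t = w) := by
      rw [Units.val_inj, Units.val_inj]
    simp only [c1]
    by_cases h1 : x = z
    · by_cases h2 : t = w
      · simp only [h1, h2, and_self, if_true]
        rw [AddChar.map_add_eq_mul, ← hs]
        have := e_self e ((w : F)⁻¹)
        linear_combination (s * s * e (z : F)⁻¹) * this
      · simp [h1, h2]
    · simp [h1]
  rw [h3]
  have h4 : (∑ y : Fˣ, k0 (x : F) y z * e (y : F)⁻¹ * (k0 (y : F) t w * e (t : F)⁻¹)) =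
      e (t : F)⁻¹ * ∑ y : Fˣ, k0 (x : F) y z * (e (y : F)⁻¹ * k0 (y : F) t w) := by
    rw [Finset.mul_sum]
    exact Finset.sum_congr rfl fun y _ => by ring
  rw [h4, AddChar.map_add_eq_mul e (x : F)⁻¹ (z : F)⁻¹,
    AddChar.map_add_eq_mul e (t : F)⁻¹ (w : F)⁻¹]
  have := e_self e ((t : F)⁻¹)
  linear_combination (e (w : F)⁻¹ * nu ((x : F) * z) * nu ((t : F) * w)) * this

theorem KK_xp (x : Fˣ) : (KZ e s z * KZ e s w) (inl x) (inr 0) = HH e x w z := by
  rw [Matrix.mul_apply, sum_u3]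
  simp only [KZ, mul_zero, add_zero, zero_add]
  unfold HH
  have h1 : ∀ y : Fˣ, k0 (x : F) y z * e (y : F)⁻¹ * (e (w : F)⁻¹ * e (y : F)⁻¹ *
      nu ((y : F) * w)) = e (w : F)⁻¹ * (k0 (x : F) y z * nu ((y : F) * w)) := by
    intro y
    have := e_self e ((y : F)⁻¹)
    linear_combination (k0 (x : F) y z * e (w : F)⁻¹ * nu ((y : F) * w)) * this
  rw [Finset.sum_congr rfl fun y _ => h1 y, ← Finset.mul_sum]
  ring

include hsq he1 in
theorem KK_xm (x : Fˣ) : (KZ e s z * KZ e s w) (inl x) (inr 1) =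
    e (x : F)⁻¹ * e (z : F)⁻¹ * e (w : F)⁻¹ * HH e x w z := by
  rw [Matrix.mul_apply, sum_u3]
  simp only [KZ, mul_zero, add_zero, zero_add]
  unfold HH
  have h1 : ∀ y : Fˣ, k0 (x : F) y z * e (y : F)⁻¹ * -nu ((y : F) * w) =
      e (x : F)⁻¹ * e (z : F)⁻¹ * (k0 (x : F) y z * nu ((y : F) * w)) := by
    intro y
    rw [supp' e hsq he1]
    ring
  rw [Finset.sum_congr rfl fun y _ => h1 y, ← Finset.mul_sum]
  have := e_self e ((w : F)⁻¹)
  linear_combination (-(e (x : F)⁻¹ * e (z : F)⁻¹ *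
    (∑ y : Fˣ, k0 (x : F) y z * nu ((y : F) * w) - nu ((x : F) * z)))) * this

theorem KK_xi (x : Fˣ) : (KZ e s z * KZ e s w) (inl x) (inr 2) = s * k0 (x : F) w z := by
  rw [Matrix.mul_apply, sum_u3]
  simp only [KZ, mul_zero, add_zero]
  rw [Finset.sum_eq_single w]
  · rw [if_pos rfl]
    have := e_self e ((w : F)⁻¹)
    linear_combination (s * k0 (x : F) w z) * this
  · intro y _ hy
    rw [if_neg hy, mul_zero]
  · simp

include hsq he1 in
theorem KK_pt (t : Fˣ) : (KZ e s z * KZ e s w) (inr 0) (inl t) =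
    e (w : F)⁻¹ * e (z : F)⁻¹ * HH e t z w := by
  rw [Matrix.mul_apply, sum_u3]
  simp only [KZ, zero_mul, add_zero, zero_add]
  unfold HH
  have h1 : ∀ y : Fˣ, -(nu ((y : F) * z) * e (y : F)⁻¹) * (k0 (y : F) t w * e (t : F)⁻¹) =
      e (w : F)⁻¹ * (k0 (t : F) y w * nu ((y : F) * z)) := by
    intro y
    rw [k0_swap12 (y : F) t w]
    have h2 := supp' e hsq he1 (t : F) y w
    have h4 := e_self e ((t : F)⁻¹)
    linear_combination (-(nu ((y : F) * z) * e (t : F)⁻¹)) * h2 +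
      (nu ((y : F) * z) * e (w : F)⁻¹ * k0 (t : F) y w) * h4
  rw [Finset.sum_congr rfl fun y _ => h1 y, ← Finset.mul_sum]
  have := e_self e ((z : F)⁻¹)
  linear_combination (-(e (w : F)⁻¹ *
    (∑ y : Fˣ, k0 (t : F) y w * nu ((y : F) * z) - nu ((t : F) * w)))) * this

include hne hsq h3 in
theorem KK_pp : (KZ e s z * KZ e s w) (inr 0) (inr 0) =
    if z = w then -((Fintype.card F : ℂ) * e (z : F)⁻¹) else 0 := by
  rw [Matrix.mul_apply, sum_u3]
  simp only [KZ, zero_mul, add_zero, zero_add, mul_zero]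
  have h1 : ∀ y : Fˣ, -(nu ((y : F) * z) * e (y : F)⁻¹) * (e (w : F)⁻¹ * e (y : F)⁻¹ *
      nu ((y : F) * w)) = -e (w : F)⁻¹ * (nu ((z : F) * y) * nu ((y : F) * w)) := by
    intro y
    have := e_self e ((y : F)⁻¹)
    rw [mul_comm (z : F) (y : F)]
    linear_combination (-(nu ((y : F) * z) * e (w : F)⁻¹ * nu ((y : F) * w))) * this
  rw [Finset.sum_congr rfl fun y _ => h1 y, ← Finset.mul_sum,
    orth e hne hsq h3 z w z.ne_zero w.ne_zero]
  have h2 : ((z : F) = w) ↔ z = w := Units.val_inj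
  simp only [h2]
  split_ifs with h
  · rw [h]; ring
  · ring

theorem KK_pm : (KZ e s z * KZ e s w) (inr 0) (inr 1) =
    ∑ y : Fˣ, e (y : F)⁻¹ * (nu ((y : F) * z) * nu ((y : F) * w)) := by
  rw [Matrix.mul_apply, sum_u3]
  simp only [KZ, zero_mul, add_zero, mul_zero]
  refine Finset.sum_congr rfl fun y _ => ?_
  ring

theorem KK_pi : (KZ e s z * KZ e s w) (inr 0) (inr 2) = -(s * nu ((z : F) * w)) := by
  rw [Matrix.mul_apply, sum_u3]
  simp only [KZ, zero_mul, add_zero, mul_zero]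
  rw [Finset.sum_eq_single w]
  · rw [if_pos rfl, mul_comm (w : F)]
    have := e_self e ((w : F)⁻¹)
    linear_combination (-(s * nu ((z : F) * w))) * this
  · intro y _ hy
    rw [if_neg hy, mul_zero]
  · simp

theorem KK_mt (t : Fˣ) : (KZ e s z * KZ e s w) (inr 1) (inl t) =
    e (t : F)⁻¹ * HH e t z w := by
  rw [Matrix.mul_apply, sum_u3]
  simp only [KZ, zero_mul, add_zero]
  unfold HH
  have h1 : ∀ y : Fˣ, e (z : F)⁻¹ * nu ((y : F) * z) * (k0 (y : F) t w * e (t : F)⁻¹) =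
      e (z : F)⁻¹ * e (t : F)⁻¹ * (k0 (t : F) y w * nu ((y : F) * z)) := by
    intro y
    rw [k0_swap12 (y : F) t w]
    ring
  rw [Finset.sum_congr rfl fun y _ => h1 y, ← Finset.mul_sum]
  ring

theorem KK_mp : (KZ e s z * KZ e s w) (inr 1) (inr 0) =
    e (z : F)⁻¹ * e (w : F)⁻¹ * ∑ y : Fˣ, e (y : F)⁻¹ * (nu ((y : F) * z) * nu ((y : F) * w)) := by
  rw [Matrix.mul_apply, sum_u3]
  simp only [KZ, zero_mul, add_zero, mul_zero]
  rw [Finset.mul_sum]
  refine Finset.sum_congr rfl fun y _ => ?_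
  ring

include hne hsq h3 in
theorem KK_mm : (KZ e s z * KZ e s w) (inr 1) (inr 1) =
    if z = w then -((Fintype.card F : ℂ) * e (z : F)⁻¹) else 0 := by
  rw [Matrix.mul_apply, sum_u3]
  simp only [KZ, zero_mul, add_zero, mul_zero]
  have h1 : ∀ y : Fˣ, e (z : F)⁻¹ * nu ((y : F) * z) * -nu ((y : F) * w) =
      -e (z : F)⁻¹ * (nu ((z : F) * y) * nu ((y : F) * w)) := by
    intro y
    rw [mul_comm (z : F) (y : F)]
    ring
  rw [Finset.sum_congr rfl fun y _ => h1 y, ← Finset.mul_sum,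
    orth e hne hsq h3 z w z.ne_zero w.ne_zero]
  have h2 : ((z : F) = w) ↔ z = w := Units.val_inj
  simp only [h2]
  split_ifs with h
  · ring
  · ring

theorem KK_mi : (KZ e s z * KZ e s w) (inr 1) (inr 2) =
    s * (e (z : F)⁻¹ * e (w : F)⁻¹ * nu ((z : F) * w)) := by
  rw [Matrix.mul_apply, sum_u3]
  simp only [KZ, zero_mul, add_zero, mul_zero]
  rw [Finset.sum_eq_single w]
  · rw [if_pos rfl, mul_comm (w : F)]
    ring
  · intro y _ hy
    rw [if_neg hy, mul_zero]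
  · simp

theorem KK_it (t : Fˣ) : (KZ e s z * KZ e s w) (inr 2) (inl t) =
    -(s * k0 (z : F) t w * e (t : F)⁻¹) := by
  rw [Matrix.mul_apply, sum_u3]
  simp only [KZ, zero_mul, add_zero]
  rw [Finset.sum_eq_single z]
  · rw [if_pos rfl]; ring
  · intro y _ hy
    rw [if_neg hy, zero_mul]
  · simp

theorem KK_ip : (KZ e s z * KZ e s w) (inr 2) (inr 0) =
    -(s * (e (z : F)⁻¹ * e (w : F)⁻¹ * nu ((z : F) * w))) := by
  rw [Matrix.mul_apply, sum_u3]
  simp only [KZ, zero_mul, add_zero, mul_zero]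
  rw [Finset.sum_eq_single z]
  · rw [if_pos rfl]; ring
  · intro y _ hy
    rw [if_neg hy, zero_mul]
  · simp

theorem KK_im : (KZ e s z * KZ e s w) (inr 2) (inr 1) = s * nu ((z : F) * w) := by
  rw [Matrix.mul_apply, sum_u3]
  simp only [KZ, zero_mul, add_zero, mul_zero]
  rw [Finset.sum_eq_single z]
  · rw [if_pos rfl]; ring
  · intro y _ hy
    rw [if_neg hy, zero_mul]
  · simp

theorem KK_ii : (KZ e s z * KZ e s w) (inr 2) (inr 2) =
    if z = w then -(s * s * e (z : F)⁻¹) else 0 := by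
  rw [Matrix.mul_apply, sum_u3]
  simp only [KZ, zero_mul, add_zero, mul_zero]
  rw [Finset.sum_eq_single z]
  · rw [if_pos rfl]
    by_cases h : z = w
    · rw [if_pos h, if_pos h, h]; ring
    · rw [if_neg h, if_neg h]; ring
  · intro y _ hy
    rw [if_neg hy, zero_mul]
  · simp

include hne hsq he1 h3 hs hz1 hw1 in
theorem KK_comm : KZ e s z * KZ e s w = KZ e s w * KZ e s z := by
  have hHH : ∀ x : Fˣ, HH e x w z = HH e x z w := fun x =>
    HH_comm e hne hsq he1 h3 x z w x.ne_zero z.ne_zero w.ne_zero hz1 hw1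
  ext i j
  rcases i with x | i
  · rcases j with t | j
    · rw [KK_xt e s hs, KK_xt e s hs, P_symm e hne hsq he1 h3 x t z w x.ne_zero t.ne_zero
        z.ne_zero w.ne_zero hz1 hw1]
    · fin_cases j
      · show (KZ e s z * KZ e s w) (inl x) (inr 0) = (KZ e s w * KZ e s z) (inl x) (inr 0)
        rw [KK_xp, KK_xp, hHH]
      · show (KZ e s z * KZ e s w) (inl x) (inr 1) = (KZ e s w * KZ e s z) (inl x) (inr 1)
        rw [KK_xm e hsq he1, KK_xm e hsq he1, hHH]
        ring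
      · show (KZ e s z * KZ e s w) (inl x) (inr 2) = (KZ e s w * KZ e s z) (inl x) (inr 2)
        rw [KK_xi, KK_xi, k0_swap23]
  · fin_cases i
    · rcases j with t | j
      · show (KZ e s z * KZ e s w) (inr 0) (inl t) = (KZ e s w * KZ e s z) (inr 0) (inl t)
        rw [KK_pt e hsq he1, KK_pt e hsq he1, hHH]
        ring
      · fin_cases j
        · show (KZ e s z * KZ e s w) (inr 0) (inr 0) = (KZ e s w * KZ e s z) (inr 0) (inr 0)
          rw [KK_pp e hne hsq h3, KK_pp e hne hsq h3]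
          by_cases h : z = w
          · rw [h]
          · rw [if_neg h, if_neg (Ne.symm h)]
        · show (KZ e s z * KZ e s w) (inr 0) (inr 1) = (KZ e s w * KZ e s z) (inr 0) (inr 1)
          rw [KK_pm, KK_pm]
          refine Finset.sum_congr rfl fun y _ => ?_
          ring
        · show (KZ e s z * KZ e s w) (inr 0) (inr 2) = (KZ e s w * KZ e s z) (inr 0) (inr 2)
          rw [KK_pi, KK_pi, mul_comm (z : F)]
    · rcases j with t | j
      · show (KZ e s z * KZ e s w) (inr 1) (inl t) = (KZ e s w * KZ e s z) (inr 1) (inl t)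
        rw [KK_mt, KK_mt, hHH]
      · fin_cases j
        · show (KZ e s z * KZ e s w) (inr 1) (inr 0) = (KZ e s w * KZ e s z) (inr 1) (inr 0)
          rw [KK_mp, KK_mp, mul_comm (e (z : F)⁻¹)]
          congr 1
          refine Finset.sum_congr rfl fun y _ => ?_
          ring
        · show (KZ e s z * KZ e s w) (inr 1) (inr 1) = (KZ e s w * KZ e s z) (inr 1) (inr 1)
          rw [KK_mm e hne hsq h3, KK_mm e hne hsq h3]
          by_cases h : z = w
          · rw [h]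
          · rw [if_neg h, if_neg (Ne.symm h)]
        · show (KZ e s z * KZ e s w) (inr 1) (inr 2) = (KZ e s w * KZ e s z) (inr 1) (inr 2)
          rw [KK_mi, KK_mi, mul_comm (z : F)]
          ring
    · rcases j with t | j
      · show (KZ e s z * KZ e s w) (inr 2) (inl t) = (KZ e s w * KZ e s z) (inr 2) (inl t)
        rw [KK_it, KK_it, k0_swap23, k0_swap12, k0_swap23]
      · fin_cases j
        · show (KZ e s z * KZ e s w) (inr 2) (inr 0) = (KZ e s w * KZ e s z) (inr 2) (inr 0)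
          rw [KK_ip, KK_ip, mul_comm (z : F)]
          ring
        · show (KZ e s z * KZ e s w) (inr 2) (inr 1) = (KZ e s w * KZ e s z) (inr 2) (inr 1)
          rw [KK_im, KK_im, mul_comm (z : F)]
        · show (KZ e s z * KZ e s w) (inr 2) (inr 2) = (KZ e s w * KZ e s z) (inr 2) (inr 2)
          rw [KK_ii, KK_ii]
          by_cases h : z = w
          · rw [h]
          · rw [if_neg h, if_neg (Ne.symm h)]

end KK

end Pool.Agent.Zk86.Q2
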