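import Mathlib
import Pool.Agent.Zk86.Q2.Mats
import Pool.Agent.R478.BES.Final

/-! `K z` commutes with `M`; Hermitian property; normality of `M`. -/

set_option autoImplicit false
set_option linter.unusedSectionVars false

namespace Pool.Agent.Zk86.Q2

open Finset Matrix Sum Pool.Agent.R478.BES

variable {F : Type*} [Field F] [Fintype F] [DecidableEq F] [CharP F 2]

section KM
variable (e : AddChar F ℂ) (hne : e ≠ 1) (hsq : ∀ x, e (x ^ 2) = e x) (he1 : e 1 = -1)
  (h3 : Fintype.card F % 3 = 2) (s : ℂ) (hs : s * s = Fintype.card F) (z : Fˣ)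
  (hz1 : (z : F) ≠ 1)

include hne hsq he1 h3 hs hz1 in
theorem KM_comm : KZ e s z * MA e s = MA e s * KZ e s z := by
  have hz0 : (z : F) ≠ 0 := z.ne_zero
  ext i j
  rcases i with x | i
  · rcases j with t | j
    · rw [Matrix.mul_apply, sum_u3, Matrix.mul_apply, sum_u3]
      simp only [KZ, MA, mul_zero, add_zero, zero_mul, one_mul, zero_add]
      have h1 : ∀ y : Fˣ, k0 (x : F) y z * e (y : F)⁻¹ * (e (y : F)⁻¹ * nu ((y : F) * t)) =
          k0 (x : F) y z * nu ((y : F) * t) := by
        intro y
        have := e_self e ((y : F)⁻¹)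
        linear_combination (k0 (x : F) y z * nu ((y : F) * t)) * this
      have h2 : ∀ y : Fˣ, e (x : F)⁻¹ * nu ((x : F) * y) * (k0 (y : F) t z * e (t : F)⁻¹) =
          e (x : F)⁻¹ * e (t : F)⁻¹ * (k0 (t : F) y z * nu ((y : F) * x)) := by
        intro y
        rw [k0_swap12 (y : F) t z, mul_comm (x : F) (y : F)]; ring
      rw [Finset.sum_congr rfl fun y _ => h1 y, Finset.sum_congr rfl fun y _ => h2 y,
        ← Finset.mul_sum]
      have hH := HH_symm e hne hsq he1 h3 x t z x.ne_zero t.ne_zero hz0 hz1
      unfold HH at hH
      have h4 := e_self e ((t : F)⁻¹)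
      linear_combination (e (t : F)⁻¹) * hH -
        (∑ y : Fˣ, k0 (x : F) y z * nu ((y : F) * t) - nu ((x : F) * z)) * h4
    · fin_cases j
      · show (KZ e s z * MA e s) (inl x) (inr 0) = (MA e s * KZ e s z) (inl x) (inr 0)
        rw [Matrix.mul_apply, sum_u3, Matrix.mul_apply, sum_u3]
        simp only [KZ, MA, mul_zero, add_zero, mul_one, zero_add]
        have h1 : ∀ y : Fˣ, k0 (x : F) y z * e (y : F)⁻¹ * e (y : F)⁻¹ = k0 (x : F) y z := by
          intro y
          have := e_self e ((y : F)⁻¹)
          linear_combination (k0 (x : F) y z) * this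
        have h2 : ∀ y : Fˣ, e (x : F)⁻¹ * nu ((x : F) * y) *
            (e (z : F)⁻¹ * e (y : F)⁻¹ * nu ((y : F) * z)) =
            e (x : F)⁻¹ * e (z : F)⁻¹ * (e (y : F)⁻¹ * (nu ((x : F) * y) * nu ((y : F) * z))) := by
          intro y; ring
        rw [Finset.sum_congr rfl fun y _ => h1 y, Finset.sum_congr rfl fun y _ => h2 y,
          ← Finset.mul_sum, ← AddChar.map_add_eq_mul,
          ← E2 e hne hsq he1 h3 x z x.ne_zero hz0 hz1]
        ring
      · show (KZ e s z * MA e s) (inl x) (inr 1) = (MA e s * KZ e s z) (inl x) (inr 1)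
        rw [Matrix.mul_apply, sum_u3, Matrix.mul_apply, sum_u3]
        simp only [KZ, MA, mul_zero, add_zero, zero_add, mul_one, Finset.sum_const_zero]
        have h2 : ∀ y : Fˣ, e (x : F)⁻¹ * nu ((x : F) * y) * -nu ((y : F) * z) =
            -e (x : F)⁻¹ * (nu ((x : F) * y) * nu ((y : F) * z)) := by
          intro y; ring
        rw [Finset.sum_congr rfl fun y _ => h2 y, ← Finset.mul_sum,
          orth e hne hsq h3 x z x.ne_zero hz0]
        have h5 : ((x : F) = z) ↔ x = z := Units.val_inj
        simp only [h5]
        by_cases h : x = z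
        · simp only [h, if_true]
          linear_combination (-e (z : F)⁻¹) * hs
        · simp only [h, if_false]; ring
      · show (KZ e s z * MA e s) (inl x) (inr 2) = (MA e s * KZ e s z) (inl x) (inr 2)
        rw [Matrix.mul_apply, sum_u3, Matrix.mul_apply, sum_u3]
        simp only [KZ, MA, mul_zero, add_zero, zero_add, Finset.sum_const_zero]
        rw [Finset.sum_eq_single z]
        · rw [if_pos rfl]; ring
        · intro y _ hy
          rw [if_neg hy, mul_zero]
        · simp
  · fin_cases i
    · rcases j with t | j
      · show (KZ e s z * MA e s) (inr 0) (inl t) = (MA e s * KZ e s z) (inr 0) (inl t)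
        rw [Matrix.mul_apply, sum_u3, Matrix.mul_apply, sum_u3]
        simp only [KZ, MA, mul_zero, add_zero, zero_mul, mul_one, zero_add,
          Finset.sum_const_zero]
        have h2 : ∀ y : Fˣ, -(nu ((y : F) * z) * e (y : F)⁻¹) * (e (y : F)⁻¹ * nu ((y : F) * t)) =
            -(nu ((z : F) * y) * nu ((y : F) * t)) := by
          intro y
          rw [mul_comm (z : F) (y : F)]
          have := e_self e ((y : F)⁻¹)
          linear_combination (-(nu ((y : F) * z) * nu ((y : F) * t))) * this
        rw [Finset.sum_congr rfl fun y _ => h2 y, Finset.sum_neg_distrib,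
          orth e hne hsq h3 z t hz0 t.ne_zero]
        have h5 : ((z : F) = t) ↔ t = z := by rw [Units.val_inj, eq_comm]
        simp only [h5]
        by_cases h : t = z
        · simp only [h, if_true]
          linear_combination hs
        · simp only [h, if_false]; ring
      · fin_cases j
        · show (KZ e s z * MA e s) (inr 0) (inr 0) = (MA e s * KZ e s z) (inr 0) (inr 0)
          rw [Matrix.mul_apply, sum_u3, Matrix.mul_apply, sum_u3]
          simp only [KZ, MA, mul_zero, add_zero, zero_mul, mul_one, zero_add,
            Finset.sum_const_zero]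
          have h1 : ∀ y : Fˣ, -(nu ((y : F) * z) * e (y : F)⁻¹) * e (y : F)⁻¹ =
              -nu ((y : F) * z) := by
            intro y
            have := e_self e ((y : F)⁻¹)
            linear_combination (-nu ((y : F) * z)) * this
          rw [Finset.sum_congr rfl fun y _ => h1 y, Finset.sum_neg_distrib,
            nu_units_mul _ hz0]
          ring
        · show (KZ e s z * MA e s) (inr 0) (inr 1) = (MA e s * KZ e s z) (inr 0) (inr 1)
          rw [Matrix.mul_apply, sum_u3, Matrix.mul_apply, sum_u3]
          simp only [KZ, MA, mul_zero, add_zero, zero_mul, zero_add, Finset.sum_const_zero]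
        · show (KZ e s z * MA e s) (inr 0) (inr 2) = (MA e s * KZ e s z) (inr 0) (inr 2)
          rw [Matrix.mul_apply, sum_u3, Matrix.mul_apply, sum_u3]
          simp only [KZ, MA, mul_zero, add_zero, zero_mul, zero_add, Finset.sum_const_zero]
    · rcases j with t | j
      · show (KZ e s z * MA e s) (inr 1) (inl t) = (MA e s * KZ e s z) (inr 1) (inl t)
        rw [Matrix.mul_apply, sum_u3, Matrix.mul_apply, sum_u3]
        simp only [KZ, MA, mul_zero, add_zero, zero_mul, one_mul]
        have h1 : ∀ y : Fˣ, e (z : F)⁻¹ * nu ((y : F) * z) * (e (y : F)⁻¹ * nu ((y : F) * t)) =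
            e (z : F)⁻¹ * (e (y : F)⁻¹ * (nu ((t : F) * y) * nu ((y : F) * z))) := by
          intro y
          rw [mul_comm (t : F) (y : F)]; ring
        have h2 : ∀ y : Fˣ, k0 (y : F) t z * e (t : F)⁻¹ = e (t : F)⁻¹ * k0 (t : F) y z := by
          intro y
          rw [k0_swap12 (y : F) t z]; ring
        rw [Finset.sum_congr rfl fun y _ => h1 y, Finset.sum_congr rfl fun y _ => h2 y,
          ← Finset.mul_sum, ← Finset.mul_sum]
        have hE := E2 e hne hsq he1 h3 t z t.ne_zero hz0 hz1
        rw [AddChar.map_add_eq_mul] at hE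
        have h4 := e_self e ((t : F)⁻¹)
        linear_combination (-e (t : F)⁻¹) * hE - (e (z : F)⁻¹ *
          ∑ y : Fˣ, e (y : F)⁻¹ * (nu ((t : F) * y) * nu ((y : F) * z))) * h4
      · fin_cases j
        · show (KZ e s z * MA e s) (inr 1) (inr 0) = (MA e s * KZ e s z) (inr 1) (inr 0)
          rw [Matrix.mul_apply, sum_u3, Matrix.mul_apply, sum_u3]
          simp only [KZ, MA, mul_zero, add_zero, zero_mul, one_mul]
          refine Finset.sum_congr rfl fun y _ => ?_
          ring
        · show (KZ e s z * MA e s) (inr 1) (inr 1) = (MA e s * KZ e s z) (inr 1) (inr 1)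
          rw [Matrix.mul_apply, sum_u3, Matrix.mul_apply, sum_u3]
          simp only [KZ, MA, mul_zero, add_zero, zero_mul, one_mul, Finset.sum_const_zero]
          rw [Finset.sum_neg_distrib, nu_units_mul _ hz0]
          ring
        · show (KZ e s z * MA e s) (inr 1) (inr 2) = (MA e s * KZ e s z) (inr 1) (inr 2)
          rw [Matrix.mul_apply, sum_u3, Matrix.mul_apply, sum_u3]
          simp only [KZ, MA, mul_zero, add_zero, zero_mul, one_mul, zero_add,
            Finset.sum_const_zero]
          rw [Finset.sum_eq_single z]
          · rw [if_pos rfl]; ring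
          · intro y _ hy
            rw [if_neg hy]
          · simp
    · rcases j with t | j
      · show (KZ e s z * MA e s) (inr 2) (inl t) = (MA e s * KZ e s z) (inr 2) (inl t)
        rw [Matrix.mul_apply, sum_u3, Matrix.mul_apply, sum_u3]
        simp only [KZ, MA, mul_zero, add_zero, zero_mul, zero_add, Finset.sum_const_zero]
        rw [Finset.sum_eq_single z]
        · rw [if_pos rfl, mul_comm (z : F)]
        · intro y _ hy
          rw [if_neg hy, zero_mul]
        · simp
      · fin_cases j
        · show (KZ e s z * MA e s) (inr 2) (inr 0) = (MA e s * KZ e s z) (inr 2) (inr 0)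
          rw [Matrix.mul_apply, sum_u3, Matrix.mul_apply, sum_u3]
          simp only [KZ, MA, mul_zero, add_zero, zero_mul, zero_add, Finset.sum_const_zero]
          rw [Finset.sum_eq_single z]
          · rw [if_pos rfl]
          · intro y _ hy
            rw [if_neg hy, zero_mul]
          · simp
        · show (KZ e s z * MA e s) (inr 2) (inr 1) = (MA e s * KZ e s z) (inr 2) (inr 1)
          rw [Matrix.mul_apply, sum_u3, Matrix.mul_apply, sum_u3]
          simp only [KZ, MA, mul_zero, add_zero, zero_mul, zero_add, Finset.sum_const_zero]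
        · show (KZ e s z * MA e s) (inr 2) (inr 2) = (MA e s * KZ e s z) (inr 2) (inr 2)
          rw [Matrix.mul_apply, sum_u3, Matrix.mul_apply, sum_u3]
          simp only [KZ, MA, mul_zero, add_zero, zero_mul, zero_add, Finset.sum_const_zero]

include hsq he1 in
/-- `(K z)ᴴ = -e(1/z) K z`. -/
theorem KZ_conjTranspose (hsr : (starRingEnd ℂ) s = s) :
    (KZ e s z)ᴴ = (-e (z : F)⁻¹) • KZ e s z := by
  ext i j
  rw [Matrix.conjTranspose_apply, Matrix.smul_apply, smul_eq_mul]
  show (starRingEnd ℂ) (KZ e s z j i) = _
  rcases i with x | i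
  · rcases j with t | j
    · simp only [KZ]
      rw [map_mul, k0_conj, e_conj, k0_swap12 (t : F) x z]
      have h := supp' e hsq he1 (x : F) t z
      have h2 := e_self e ((z : F)⁻¹)
      linear_combination (e (z : F)⁻¹) * h -
        (e (x : F)⁻¹ * k0 (x : F) t z) * h2
    · fin_cases j
      · simp only [KZ, Fin.zero_eta]
        rw [map_neg, map_mul, e_conj, nu_conj]
        have h2 := e_self e ((z : F)⁻¹)
        linear_combination (e (x : F)⁻¹ * nu ((x : F) * z)) * h2
      · simp only [KZ, Fin.mk_one]
        rw [map_mul, e_conj, nu_conj]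
        ring
      · simp only [KZ, Fin.reduceFinMk]
        by_cases h : x = z
        · simp only [h, if_true, map_neg, hsr]
          have := e_self e ((z : F)⁻¹)
          linear_combination s * this
        · simp [h]
  · fin_cases i
    · rcases j with t | j
      · simp only [KZ, Fin.zero_eta]
        rw [map_mul, map_mul, e_conj, e_conj, nu_conj]
        ring
      · fin_cases j
        · simp [KZ]
        · simp only [KZ, Fin.zero_eta, Fin.mk_one]
          rw [e_conj]; ring
        · simp [KZ]
    · rcases j with t | j
      · simp only [KZ, Fin.mk_one]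
        rw [map_neg, nu_conj]
        have h2 := e_self e ((z : F)⁻¹)
        linear_combination (nu ((t : F) * z)) * h2
      · fin_cases j
        · simp only [KZ, Fin.zero_eta, Fin.mk_one]
          rw [map_neg, map_one]
          have h2 := e_self e ((z : F)⁻¹)
          linear_combination h2
        · simp [KZ]
        · simp [KZ]
    · rcases j with t | j
      · simp only [KZ, Fin.reduceFinMk]
        by_cases h : t = z
        · simp only [h, if_true, map_mul, hsr, e_conj]; ring
        · simp [h]
      · fin_cases j
        · simp [KZ]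
        · simp [KZ]
        · simp [KZ]

end KM

end Pool.Agent.Zk86.Q2
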