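import Mathlib
import Pool.Agent.Zk86.Q2.Mats2

/-! Independence of the automorphism. -/

set_option autoImplicit false
set_option linter.unusedSectionVars false

namespace Pool.Agent.Zk86.Q2

open Finset Matrix Sum Pool.Agent.R478.BES

variable {F : Type*} [Field F] [Fintype F] [DecidableEq F] [CharP F 2]

section Norm
variable (e : AddChar F ℂ) (hne : e ≠ 1) (hsq : ∀ x, e (x ^ 2) = e x)
  (h3 : Fintype.card F % 3 = 2) (s : ℂ) (hs : s * s = Fintype.card F)
  (hsr : (starRingEnd ℂ) s = s)

/-- the adjoint of `MA`. -/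
noncomputable def MB (e : AddChar F ℂ) (s : ℂ) : Matrix (Fˣ ⊕ Fin 3) (Fˣ ⊕ Fin 3) ℂ :=
  fun i j => match i, j with
  | inl x, inl y => e (y : F)⁻¹ * nu ((x : F) * y)
  | inl _, inr 0 => 0
  | inl _, inr 1 => 1
  | inl _, inr 2 => 0
  | inr 0, inl y => e (y : F)⁻¹
  | inr 0, inr 0 => 0
  | inr 0, inr 1 => 1
  | inr 0, inr 2 => 0
  | inr 1, inl _ => 0
  | inr 1, inr 0 => 0
  | inr 1, inr 1 => 0
  | inr 1, inr 2 => -s
  | inr 2, inl _ => 0
  | inr 2, inr 0 => s
  | inr 2, inr 1 => 0
  | inr 2, inr 2 => 0

include hsr in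
theorem MA_conjTranspose : (MA e s)ᴴ = MB e s := by
  ext i j
  rw [Matrix.conjTranspose_apply]
  show (starRingEnd ℂ) (MA e s j i) = _
  rcases i with x | i
  · rcases j with t | j
    · simp only [MA, MB]
      rw [map_mul, e_conj, nu_conj, mul_comm (t : F)]
    · fin_cases j
      · simp [MA, MB]
      · simp [MA, MB]
      · simp [MA, MB]
  · fin_cases i
    · rcases j with t | j
      · simp only [MA, MB, Fin.zero_eta]
        rw [e_conj]
      · fin_cases j
        · simp [MA, MB]
        · simp [MA, MB]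
        · simp [MA, MB]
    · rcases j with t | j
      · simp [MA, MB]
      · fin_cases j
        · simp [MA, MB]
        · simp [MA, MB]
        · simp [MA, MB, hsr]
    · rcases j with t | j
      · simp [MA, MB]
      · fin_cases j
        · simp [MA, MB, hsr]
        · simp [MA, MB]
        · simp [MA, MB]

theorem card_units_cast : (Fintype.card Fˣ : ℂ) = (Fintype.card F : ℂ) - 1 := by
  rw [Fintype.card_units, Nat.cast_sub Fintype.card_pos, Nat.cast_one]

include hne hsq h3 hs in
theorem MA_MB : MA e s * MB e s = (Fintype.card F : ℂ) • (1 : Matrix (Fˣ ⊕ Fin 3) (Fˣ ⊕ Fin 3) ℂ) := by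
  ext i j
  rw [Matrix.smul_apply, smul_eq_mul]
  rcases i with x | i
  · rcases j with t | j
    · rw [Matrix.mul_apply, sum_u3]
      simp only [MA, MB, mul_zero, add_zero, zero_mul]
      have h1 : ∀ y : Fˣ, e (x : F)⁻¹ * nu ((x : F) * y) * (e (t : F)⁻¹ * nu ((y : F) * t)) =
          e (x : F)⁻¹ * e (t : F)⁻¹ * (nu ((x : F) * y) * nu ((y : F) * t)) := by
        intro y; ring
      rw [Finset.sum_congr rfl fun y _ => h1 y, ← Finset.mul_sum,
        orth e hne hsq h3 x t x.ne_zero t.ne_zero]
      have h5 : ((x : F) = t) ↔ x = t := Units.val_inj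
      simp only [h5]
      by_cases h : x = t
      · rw [h, if_pos rfl, Matrix.one_apply_eq]
        have := e_self e ((t : F)⁻¹)
        linear_combination (Fintype.card F : ℂ) * this
      · rw [if_neg h, Matrix.one_apply_ne (fun h' => h (inl_injective h'))]
        ring
    · fin_cases j
      · show (MA e s * MB e s) (inl x) (inr 0) = _ * (1 : Matrix _ _ ℂ) (inl x) (inr 0)
        rw [Matrix.mul_apply, sum_u3, Matrix.one_apply_ne (by simp)]
        simp only [MA, MB, mul_zero, add_zero, zero_mul, Finset.sum_const_zero]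
      · show (MA e s * MB e s) (inl x) (inr 1) = _ * (1 : Matrix _ _ ℂ) (inl x) (inr 1)
        rw [Matrix.mul_apply, sum_u3, Matrix.one_apply_ne (by simp)]
        simp only [MA, MB, mul_zero, add_zero, zero_mul, mul_one]
        rw [← Finset.mul_sum]
        have h1 : ∑ y : Fˣ, nu ((x : F) * y) = -1 := by
          rw [← nu_units_mul (x : F) x.ne_zero]
          exact Finset.sum_congr rfl fun y _ => by rw [mul_comm]
        rw [h1]; ring
      · show (MA e s * MB e s) (inl x) (inr 2) = _ * (1 : Matrix _ _ ℂ) (inl x) (inr 2)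
        rw [Matrix.mul_apply, sum_u3, Matrix.one_apply_ne (by simp)]
        simp only [MA, MB, mul_zero, add_zero, zero_mul, Finset.sum_const_zero]
  · fin_cases i
    · rcases j with t | j
      · show (MA e s * MB e s) (inr 0) (inl t) = _ * (1 : Matrix _ _ ℂ) (inr 0) (inl t)
        rw [Matrix.mul_apply, sum_u3, Matrix.one_apply_ne (by simp)]
        simp only [MA, MB, mul_zero, add_zero, zero_mul, Finset.sum_const_zero]
      · fin_cases j
        · show (MA e s * MB e s) (inr 0) (inr 0) = _ * (1 : Matrix _ _ ℂ) (inr 0) (inr 0)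
          rw [Matrix.mul_apply, sum_u3, Matrix.one_apply_eq]
          simp only [MA, MB, mul_zero, zero_add, zero_mul, Finset.sum_const_zero]
          rw [hs, mul_one]
        · show (MA e s * MB e s) (inr 0) (inr 1) = _ * (1 : Matrix _ _ ℂ) (inr 0) (inr 1)
          rw [Matrix.mul_apply, sum_u3, Matrix.one_apply_ne (by simp)]
          simp only [MA, MB, mul_zero, add_zero, zero_mul, Finset.sum_const_zero]
        · show (MA e s * MB e s) (inr 0) (inr 2) = _ * (1 : Matrix _ _ ℂ) (inr 0) (inr 2)
          rw [Matrix.mul_apply, sum_u3, Matrix.one_apply_ne (by simp)]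
          simp only [MA, MB, mul_zero, add_zero, zero_mul, Finset.sum_const_zero]
    · rcases j with t | j
      · show (MA e s * MB e s) (inr 1) (inl t) = _ * (1 : Matrix _ _ ℂ) (inr 1) (inl t)
        rw [Matrix.mul_apply, sum_u3, Matrix.one_apply_ne (by simp)]
        simp only [MA, MB, mul_zero, add_zero, zero_mul, one_mul]
        rw [← Finset.mul_sum, nu_units_mul _ t.ne_zero]
        ring
      · fin_cases j
        · show (MA e s * MB e s) (inr 1) (inr 0) = _ * (1 : Matrix _ _ ℂ) (inr 1) (inr 0)
          rw [Matrix.mul_apply, sum_u3, Matrix.one_apply_ne (by simp)]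
          simp only [MA, MB, mul_zero, add_zero, zero_mul, Finset.sum_const_zero]
        · show (MA e s * MB e s) (inr 1) (inr 1) = _ * (1 : Matrix _ _ ℂ) (inr 1) (inr 1)
          rw [Matrix.mul_apply, sum_u3, Matrix.one_apply_eq]
          simp only [MA, MB, mul_zero, add_zero, mul_one, Finset.sum_const, Finset.card_univ,
            nsmul_eq_mul]
          rw [card_units_cast]; ring
        · show (MA e s * MB e s) (inr 1) (inr 2) = _ * (1 : Matrix _ _ ℂ) (inr 1) (inr 2)
          rw [Matrix.mul_apply, sum_u3, Matrix.one_apply_ne (by simp)]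
          simp only [MA, MB, mul_zero, add_zero, zero_mul, Finset.sum_const_zero]
    · rcases j with t | j
      · show (MA e s * MB e s) (inr 2) (inl t) = _ * (1 : Matrix _ _ ℂ) (inr 2) (inl t)
        rw [Matrix.mul_apply, sum_u3, Matrix.one_apply_ne (by simp)]
        simp only [MA, MB, mul_zero, add_zero, zero_mul, Finset.sum_const_zero]
      · fin_cases j
        · show (MA e s * MB e s) (inr 2) (inr 0) = _ * (1 : Matrix _ _ ℂ) (inr 2) (inr 0)
          rw [Matrix.mul_apply, sum_u3, Matrix.one_apply_ne (by simp)]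
          simp only [MA, MB, mul_zero, add_zero, zero_mul, Finset.sum_const_zero]
        · show (MA e s * MB e s) (inr 2) (inr 1) = _ * (1 : Matrix _ _ ℂ) (inr 2) (inr 1)
          rw [Matrix.mul_apply, sum_u3, Matrix.one_apply_ne (by simp)]
          simp only [MA, MB, mul_zero, add_zero, zero_mul, Finset.sum_const_zero]
        · show (MA e s * MB e s) (inr 2) (inr 2) = _ * (1 : Matrix _ _ ℂ) (inr 2) (inr 2)
          rw [Matrix.mul_apply, sum_u3, Matrix.one_apply_eq]
          simp only [MA, MB, mul_zero, zero_add, zero_mul, add_zero, Finset.sum_const_zero]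
          linear_combination hs

include hne hsq h3 hs in
theorem MB_MA : MB e s * MA e s = (Fintype.card F : ℂ) • (1 : Matrix (Fˣ ⊕ Fin 3) (Fˣ ⊕ Fin 3) ℂ) := by
  have hq : (Fintype.card F : ℂ) ≠ 0 := by
    exact_mod_cast Fintype.card_ne_zero
  have h1 : MA e s * ((Fintype.card F : ℂ)⁻¹ • MB e s) = 1 := by
    rw [Matrix.mul_smul, MA_MB e hne hsq h3 s hs, smul_smul, inv_mul_cancel₀ hq, one_smul]
  have h2 := mul_eq_one_comm.1 h1
  rw [Matrix.smul_mul] at h2
  rw [← h2, smul_smul, mul_inv_cancel₀ hq, one_smul]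

end Norm

end Pool.Agent.Zk86.Q2
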