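import Mathlib
import Pool.Agent.Zk86.Q2.Main

/-! Independence of the automorphism: the main theorem. -/

set_option autoImplicit false
set_option linter.unusedSectionVars false

namespace Pool.Agent.Zk86.Q2

open Finset Matrix Sum Pool.Agent.R478.BES

variable {F : Type*} [Field F] [Fintype F] [DecidableEq F] [CharP F 2]

/-- the commuting family. -/
noncomputable def KF (e : AddChar F ℂ) (s : ℂ) : Fˣ ⊕ Bool → Matrix (Fˣ ⊕ Fin 3) (Fˣ ⊕ Fin 3) ℂ
  | inl z => if (z : F) = 1 then 0 else KZ e s z
  | inr true => MA e s + MB e s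
  | inr false => MA e s - MB e s

section Eq
variable (e : AddChar F ℂ) (s : ℂ) (φ : F ≃+* F) (hφ : ∀ x, e (φ x) = e x)

include hφ in
theorem KZ_equiv (z : Fˣ) (i j : Fˣ ⊕ Fin 3) :
    KZ e s (uu φ z) (tau φ i) (tau φ j) = KZ e s z i j := by
  have hinj : ∀ x y : Fˣ, uu φ x = uu φ y ↔ x = y := fun x y =>
    (Units.mapEquiv (φ : F ≃* F)).injective.eq_iff
  have hi : ∀ x : Fˣ, e (φ x)⁻¹ = e (x : F)⁻¹ := by
    intro x
    rw [← map_inv₀, hφ]
  have hn : ∀ x y : Fˣ, nu (φ x * φ y) = nu ((x : F) * y) := by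
    intro x y
    rw [← map_mul, nu_equiv]
  rcases i with x | i
  · rcases j with t | j
    · show k0 (φ x) (φ t) (φ z) * e (φ t)⁻¹ = _
      rw [nu_comp_equiv, hi]; rfl
    · fin_cases j
      · show e (φ z)⁻¹ * e (φ x)⁻¹ * nu (φ x * φ z) = e (z : F)⁻¹ * e (x : F)⁻¹ * nu ((x : F) * z)
        rw [hi, hi, hn]
      · show -nu (φ x * φ z) = -nu ((x : F) * z)
        rw [hn]
      · show (if uu φ x = uu φ z then s * e (φ z)⁻¹ else 0) = if x = z then s * e (z : F)⁻¹ else 0
        simp only [hinj, hi]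
  · fin_cases i
    · rcases j with t | j
      · show -(nu (φ t * φ z) * e (φ t)⁻¹) = -(nu ((t : F) * z) * e (t : F)⁻¹)
        rw [hn, hi]
      · fin_cases j <;> rfl
    · rcases j with t | j
      · show e (φ z)⁻¹ * nu (φ t * φ z) = e (z : F)⁻¹ * nu ((t : F) * z)
        rw [hn, hi]
      · fin_cases j
        · show e (φ z)⁻¹ = e (z : F)⁻¹
          rw [hi]
        · rfl
        · rfl
    · rcases j with t | j
      · show (if uu φ t = uu φ z then -s else 0) = if t = z then -s else 0
        simp only [hinj]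
      · fin_cases j <;> rfl

include hφ in
theorem MA_equiv (i j : Fˣ ⊕ Fin 3) : MA e s (tau φ i) (tau φ j) = MA e s i j := by
  have hi : ∀ x : Fˣ, e (φ x)⁻¹ = e (x : F)⁻¹ := by
    intro x
    rw [← map_inv₀, hφ]
  have hn : ∀ x y : Fˣ, nu (φ x * φ y) = nu ((x : F) * y) := by
    intro x y
    rw [← map_mul, nu_equiv]
  rcases i with x | i
  · rcases j with t | j
    · show e (φ x)⁻¹ * nu (φ x * φ t) = e (x : F)⁻¹ * nu ((x : F) * t)
      rw [hi, hn]
    · fin_cases j
      · show e (φ x)⁻¹ = e (x : F)⁻¹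
        rw [hi]
      · rfl
      · rfl
  · fin_cases i
    · rcases j with t | j
      · rfl
      · fin_cases j <;> rfl
    · rcases j with t | j
      · rfl
      · fin_cases j <;> rfl
    · rcases j with t | j
      · rfl
      · fin_cases j <;> rfl

include hφ in
theorem MB_equiv (i j : Fˣ ⊕ Fin 3) : MB e s (tau φ i) (tau φ j) = MB e s i j := by
  have hi : ∀ x : Fˣ, e (φ x)⁻¹ = e (x : F)⁻¹ := by
    intro x
    rw [← map_inv₀, hφ]
  have hn : ∀ x y : Fˣ, nu (φ x * φ y) = nu ((x : F) * y) := by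
    intro x y
    rw [← map_mul, nu_equiv]
  rcases i with x | i
  · rcases j with t | j
    · show e (φ t)⁻¹ * nu (φ x * φ t) = e (t : F)⁻¹ * nu ((x : F) * t)
      rw [hi, hn]
    · fin_cases j <;> rfl
  · fin_cases i
    · rcases j with t | j
      · show e (φ t)⁻¹ = e (t : F)⁻¹
        rw [hi]
      · fin_cases j <;> rfl
    · rcases j with t | j
      · rfl
      · fin_cases j <;> rfl
    · rcases j with t | j
      · rfl
      · fin_cases j <;> rfl

include hφ in
theorem Pm_KF (j : Fˣ ⊕ Bool) :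
    Pm (tau φ) * KF e s j = KF e s (Sum.map (uu φ) id j) * Pm (tau φ) := by
  ext i k
  obtain ⟨i', rfl⟩ := (tau φ).surjective i
  rw [Pm_mul, mul_Pm]
  rcases j with z | b
  · show KF e s (inl z) i' k = KF e s (inl (uu φ z)) (tau φ i') (tau φ k)
    unfold KF
    have h1 : (((uu φ z : Fˣ) : F) = 1) ↔ ((z : F) = 1) := by
      rw [coe_uu]
      exact map_eq_one_iff φ φ.injective
    simp only [h1]
    split_ifs with h
    · rfl
    · rw [KZ_equiv e s φ hφ]
  · cases b with
    | true =>
      show MA e s i' k + MB e s i' k = MA e s (tau φ i') (tau φ k) + MB e s (tau φ i') (tau φ k)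
      rw [MA_equiv e s φ hφ, MB_equiv e s φ hφ]
    | false =>
      show MA e s i' k - MB e s i' k = MA e s (tau φ i') (tau φ k) - MB e s (tau φ i') (tau φ k)
      rw [MA_equiv e s φ hφ, MB_equiv e s φ hφ]

theorem trace_MA : (MA e s * Pm (tau φ)).trace = ∑ x : Fˣ, e (x : F)⁻¹ * nu ((x : F) * φ x) := by
  rw [Matrix.trace, sum_u3]
  simp only [Matrix.diag_apply, mul_Pm]
  have h : MA e s (inr 0) (tau φ (inr 0)) + MA e s (inr 1) (tau φ (inr 1)) +
    MA e s (inr 2) (tau φ (inr 2)) = 0 := by
    show (0 : ℂ) + 0 + 0 = 0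
    ring
  rw [h, add_zero]
  rfl

end Eq

/-- cyclicity of the vector at infinity. -/
theorem cyclicQ (e : AddChar F ℂ) (s : ℂ) (hs : s * s = Fintype.card F)
    (W : Submodule ℂ (Fˣ ⊕ Fin 3 → ℂ))
    (hv : Pi.single (inr 2) 1 ∈ W) (hW : ∀ j, ∀ w ∈ W, KF e s j *ᵥ w ∈ W) : W = ⊤ := by
  have hs0 : s ≠ 0 := by
    rintro rfl
    have : (Fintype.card F : ℂ) ≠ 0 := by
      exact_mod_cast Fintype.card_ne_zero
    exact this (by rw [← hs, mul_zero])
  have he0 : ∀ x : F, e x ≠ 0 := by
    intro x hx
    have := e_self e x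
    rw [hx] at this; simp at this
  have hMA : ∀ w ∈ W, MA e s *ᵥ w ∈ W := by
    intro w hw
    have h1 := hW (inr true) w hw
    have h2 := hW (inr false) w hw
    have h3 : MA e s *ᵥ w = (1 / 2 : ℂ) • (KF e s (inr true) *ᵥ w + KF e s (inr false) *ᵥ w) := by
      show _ = (1 / 2 : ℂ) • ((MA e s + MB e s) *ᵥ w + (MA e s - MB e s) *ᵥ w)
      rw [Matrix.add_mulVec, Matrix.sub_mulVec]
      module
    rw [h3]
    exact Submodule.smul_mem _ _ (Submodule.add_mem _ h1 h2)
  have hMB : ∀ w ∈ W, MB e s *ᵥ w ∈ W := by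
    intro w hw
    have h1 := hW (inr true) w hw
    have h2 := hW (inr false) w hw
    have h3 : MB e s *ᵥ w = (1 / 2 : ℂ) • (KF e s (inr true) *ᵥ w - KF e s (inr false) *ᵥ w) := by
      show _ = (1 / 2 : ℂ) • ((MA e s + MB e s) *ᵥ w - (MA e s - MB e s) *ᵥ w)
      rw [Matrix.add_mulVec, Matrix.sub_mulVec]
      module
    rw [h3]
    exact Submodule.smul_mem _ _ (Submodule.sub_mem _ h1 h2)
  -- the vector `0₊`
  have hp : (Pi.single (inr 0) (1 : ℂ) : Fˣ ⊕ Fin 3 → ℂ) ∈ W := by
    have h1 := hMA _ hv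
    rw [Matrix.mulVec_single_one] at h1
    have h2 : (MA e s).col (inr 2) = s • (Pi.single (inr 0) (1 : ℂ) : Fˣ ⊕ Fin 3 → ℂ) := by
      funext i
      rcases i with x | i
      · show (0 : ℂ) = _
        simp
      · fin_cases i
        · show s = _
          simp
        · show (0 : ℂ) = _
          simp
        · show (0 : ℂ) = _
          simp
    rw [h2] at h1
    exact (Submodule.smul_mem_iff _ hs0).1 h1
  have hm : (Pi.single (inr 1) (1 : ℂ) : Fˣ ⊕ Fin 3 → ℂ) ∈ W := by
    have h1 := hMB _ hv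
    rw [Matrix.mulVec_single_one] at h1
    have h2 : (MB e s).col (inr 2) = (-s) • (Pi.single (inr 1) (1 : ℂ) : Fˣ ⊕ Fin 3 → ℂ) := by
      funext i
      rcases i with x | i
      · show (0 : ℂ) = _
        simp
      · fin_cases i
        · show (0 : ℂ) = _
          simp
        · show -s = _
          simp
        · show (0 : ℂ) = _
          simp
    rw [h2] at h1
    exact (Submodule.smul_mem_iff _ (neg_ne_zero.2 hs0)).1 h1
  -- the vectors at points different from `1`
  have hpt : ∀ z : Fˣ, z ≠ 1 → (Pi.single (inl z) (1 : ℂ) : Fˣ ⊕ Fin 3 → ℂ) ∈ W := by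
    intro z hz
    have hz1 : (z : F) ≠ 1 := fun h => hz (Units.ext h)
    have h1 := hW (inl z) _ hv
    rw [Matrix.mulVec_single_one] at h1
    have h2 : (KF e s (inl z)).col (inr 2) = (s * e (z : F)⁻¹) • (Pi.single (inl z) (1 : ℂ) :
        Fˣ ⊕ Fin 3 → ℂ) := by
      have h0 : KF e s (inl z) = KZ e s z := if_neg hz1
      rw [h0]
      funext i
      rcases i with x | i
      · show (if x = z then s * e (z : F)⁻¹ else 0) = _
        by_cases h : x = z
        · subst h; simp
        · simp [h]
      · fin_cases i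
        · show (0 : ℂ) = _
          simp
        · show (0 : ℂ) = _
          simp
        · show (0 : ℂ) = _
          simp
    rw [h2] at h1
    exact (Submodule.smul_mem_iff _ (mul_ne_zero hs0 (he0 _))).1 h1
  -- the vector at `1`
  have h1W : (Pi.single (inl 1) (1 : ℂ) : Fˣ ⊕ Fin 3 → ℂ) ∈ W := by
    have h1 := hMA _ hp
    rw [Matrix.mulVec_single_one] at h1
    have h2 : (MA e s).col (inr 0) = (∑ x ∈ univ.erase (1 : Fˣ), e (x : F)⁻¹ •
        (Pi.single (inl x) (1 : ℂ) : Fˣ ⊕ Fin 3 → ℂ)) +
        e ((1 : Fˣ) : F)⁻¹ • (Pi.single (inl 1) (1 : ℂ) : Fˣ ⊕ Fin 3 → ℂ) +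
        (Pi.single (inr 1) (1 : ℂ) : Fˣ ⊕ Fin 3 → ℂ) := by
      funext i
      rw [Pi.add_apply, Pi.add_apply, Finset.sum_apply]
      simp only [Pi.smul_apply, smul_eq_mul, Matrix.col_apply]
      rw [Finset.sum_erase_add _ _ (mem_univ (1 : Fˣ))]
      rcases i with x | i
      · rw [Finset.sum_eq_single x]
        · show e (x : F)⁻¹ = _
          simp
        · intro x' _ hx'
          simp [hx'.symm]
        · simp
      · have h0 : ∑ x : Fˣ, e (x : F)⁻¹ *
            (Pi.single (inl x) (1 : ℂ) : Fˣ ⊕ Fin 3 → ℂ) (inr i) = 0 := by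
          apply Finset.sum_eq_zero
          intro x _
          simp
        rw [h0]
        fin_cases i
        · show (0 : ℂ) = _
          simp
        · show (1 : ℂ) = _
          simp
        · show (0 : ℂ) = _
          simp
    rw [h2] at h1
    have h3 : (∑ x ∈ univ.erase (1 : Fˣ), e (x : F)⁻¹ •
        (Pi.single (inl x) (1 : ℂ) : Fˣ ⊕ Fin 3 → ℂ)) ∈ W :=
      Submodule.sum_mem _ fun x hx => Submodule.smul_mem _ _ (hpt x (Finset.ne_of_mem_erase hx))
    have h5 := (Submodule.add_mem_iff_left _ hm).1 h1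
    have h6 := (Submodule.add_mem_iff_right _ h3).1 h5
    exact (Submodule.smul_mem_iff _ (he0 _)).1 h6
  rw [eq_top_iff]
  intro x _
  have hx : x = ∑ i, x i • (Pi.single i (1 : ℂ) : Fˣ ⊕ Fin 3 → ℂ) := by
    funext j
    rw [Finset.sum_apply, Finset.sum_eq_single j]
    · simp
    · intro i _ hi
      simp [hi.symm]
    · simp
  rw [hx]
  refine Submodule.sum_mem _ fun i _ => Submodule.smul_mem _ _ ?_
  rcases i with z | i
  · by_cases hz : z = 1
    · rw [hz]; exact h1W
    · exact hpt z hz
  · fin_cases i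
    · exact hp
    · exact hm
    · exact hv

/-- **Main theorem**: independence of the automorphism. -/
theorem indep (e : AddChar F ℂ) (hne : e ≠ 1) (hsq : ∀ x, e (x ^ 2) = e x) (he1 : e 1 = -1)
    (h3 : Fintype.card F % 3 = 2) (φ φ' : F ≃+* F)
    (hφ : ∀ x, e (φ x) = e x) (hφ' : ∀ x, e (φ' x) = e x)
    (hpi : ∀ f : Fˣ → ℂ, f ∘ uu φ = f ↔ f ∘ uu φ' = f) :
    ∑ x : Fˣ, e (x : F)⁻¹ * nu ((x : F) * φ x) = ∑ x : Fˣ, e (x : F)⁻¹ * nu ((x : F) * φ' x) := by
  obtain ⟨s, hs⟩ : ∃ s : ℂ, s = ((Real.sqrt (Fintype.card F) : ℝ) : ℂ) := ⟨_, rfl⟩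
  have hss : s * s = Fintype.card F := by
    rw [hs, ← Complex.ofReal_mul, Real.mul_self_sqrt (Nat.cast_nonneg _)]
    simp
  have hsr : (starRingEnd ℂ) s = s := by rw [hs, Complex.conj_ofReal]
  have he0 : ∀ x : F, e x ≠ 0 := by
    intro x hx
    have := e_self e x
    rw [hx] at this; simp at this
  rw [← trace_MA e s φ, ← trace_MA e s φ']
  have hPv : ∀ ψ : F ≃+* F, Pm (tau ψ) *ᵥ (Pi.single (inr 2) (1 : ℂ) : Fˣ ⊕ Fin 3 → ℂ) =
      Pi.single (inr 2) 1 := by
    intro ψ
    rw [Matrix.mulVec_single_one]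
    funext i
    show (if i = tau ψ (inr 2) then (1 : ℂ) else 0) = _
    have : tau ψ (inr 2) = inr 2 := rfl
    rw [this, Pi.single_apply]
  have hAB : MA e s * MB e s = MB e s * MA e s := by
    rw [MA_MB e hne hsq h3 s hss, MB_MA e hne hsq h3 s hss]
  have hKA : ∀ z : Fˣ, (z : F) ≠ 1 → KZ e s z * MA e s = MA e s * KZ e s z := fun z hz =>
    KM_comm e hne hsq he1 h3 s hss z hz
  have hKB : ∀ z : Fˣ, (z : F) ≠ 1 → KZ e s z * MB e s = MB e s * KZ e s z := by
    intro z hz
    have h1 := congrArg Matrix.conjTranspose (hKA z hz)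
    rw [Matrix.conjTranspose_mul, Matrix.conjTranspose_mul, MA_conjTranspose e s hsr,
      KZ_conjTranspose e hsq he1 s z hsr, Matrix.smul_mul, Matrix.mul_smul] at h1
    exact (smul_right_injective _ (neg_ne_zero.2 (he0 _)) h1).symm
  have hKAll : ∀ j, KF e s j * MA e s = MA e s * KF e s j := by
    intro j
    rcases j with z | b
    · show (if (z : F) = 1 then 0 else KZ e s z) * MA e s =
        MA e s * (if (z : F) = 1 then 0 else KZ e s z)
      split_ifs with h
      · simp
      · exact hKA z h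
    · cases b with
      | true =>
        show (MA e s + MB e s) * MA e s = MA e s * (MA e s + MB e s)
        rw [add_mul, mul_add, hAB]
      | false =>
        show (MA e s - MB e s) * MA e s = MA e s * (MA e s - MB e s)
        rw [sub_mul, mul_sub, hAB]
  have hKBll : ∀ j, KF e s j * MB e s = MB e s * KF e s j := by
    intro j
    rcases j with z | b
    · show (if (z : F) = 1 then 0 else KZ e s z) * MB e s =
        MB e s * (if (z : F) = 1 then 0 else KZ e s z)
      split_ifs with h
      · simp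
      · exact hKB z h
    · cases b with
      | true =>
        show (MA e s + MB e s) * MB e s = MB e s * (MA e s + MB e s)
        rw [add_mul, mul_add, hAB]
      | false =>
        show (MA e s - MB e s) * MB e s = MB e s * (MA e s - MB e s)
        rw [sub_mul, mul_sub, hAB]
  have hKK : ∀ i j, KF e s i * KF e s j = KF e s j * KF e s i := by
    intro i j
    rcases j with w | b
    · rcases i with z | b
      · show (if (z : F) = 1 then 0 else KZ e s z) * (if (w : F) = 1 then 0 else KZ e s w) =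
          (if (w : F) = 1 then 0 else KZ e s w) * (if (z : F) = 1 then 0 else KZ e s z)
        by_cases hz : (z : F) = 1
        · rw [if_pos hz]; simp
        · by_cases hw : (w : F) = 1
          · rw [if_pos hw]; simp
          · rw [if_neg hz, if_neg hw]
            exact KK_comm e hne hsq he1 h3 s hss z w hz hw
      · cases b with
        | true =>
          show (MA e s + MB e s) * KF e s (inl w) = KF e s (inl w) * (MA e s + MB e s)
          rw [add_mul, mul_add, hKAll, hKBll]
        | false =>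
          show (MA e s - MB e s) * KF e s (inl w) = KF e s (inl w) * (MA e s - MB e s)
          rw [sub_mul, mul_sub, hKAll, hKBll]
    · cases b with
      | true =>
        show KF e s i * (MA e s + MB e s) = (MA e s + MB e s) * KF e s i
        rw [add_mul, mul_add, hKAll, hKBll]
      | false =>
        show KF e s i * (MA e s - MB e s) = (MA e s - MB e s) * KF e s i
        rw [sub_mul, mul_sub, hKAll, hKBll]
  have hBA : (MB e s)ᴴ = MA e s := by
    rw [← MA_conjTranspose e s hsr, Matrix.conjTranspose_conjTranspose]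
  have hpi' : ∀ f : Fˣ ⊕ Bool → ℂ, f ∘ Sum.map (uu φ) id = f ↔ f ∘ Sum.map (uu φ') id = f := by
    have key : ∀ (ψ : F ≃+* F) (f : Fˣ ⊕ Bool → ℂ), f ∘ Sum.map (uu ψ) id = f ↔
        (f ∘ inl) ∘ uu ψ = f ∘ inl := by
      intro ψ f
      constructor
      · intro h
        funext x
        exact congrFun h (inl x)
      · intro h
        funext x
        rcases x with x | b
        · exact congrFun h x
        · rfl
    intro f
    rw [key φ f, key φ' f]
    exact hpi _
  refine trace_mul_eq (KF e s) (fun j => match j with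
      | inl z => if e (z : F)⁻¹ = 1 then Complex.I else 1
      | inr true => 1
      | inr false => Complex.I) ?_ ?_ hKK (MA e s) hKAll
    (Pi.single (inr 2) 1) (cyclicQ e s hss) _ _ (Sum.map (uu φ) id) (Sum.map (uu φ') id)
    (Pm_KF e s φ hφ) (Pm_KF e s φ' hφ') (hPv φ) (hPv φ') hpi'
  · intro j
    rcases j with z | b
    · show (if e (z : F)⁻¹ = 1 then Complex.I else 1) ≠ 0
      split_ifs
      · exact Complex.I_ne_zero
      · exact one_ne_zero
    · cases b with
      | true => exact one_ne_zero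
      | false => exact Complex.I_ne_zero
  · intro j
    rcases j with z | b
    · show ((if e (z : F)⁻¹ = 1 then Complex.I else 1) •
        (if (z : F) = 1 then 0 else KZ e s z)).IsHermitian
      by_cases hz : (z : F) = 1
      · rw [if_pos hz, smul_zero]
        exact Matrix.isHermitian_zero
      · rw [if_neg hz]
        rw [Matrix.IsHermitian, Matrix.conjTranspose_smul, KZ_conjTranspose e hsq he1 s z hsr,
          smul_smul]
        congr 1
        rcases e_pm e (z : F)⁻¹ with h | h
        · rw [h]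
          simp only [if_true]
          show (starRingEnd ℂ) Complex.I * -1 = _
          rw [Complex.conj_I]; ring
        · have h1 : ¬ ((-1 : ℂ) = 1) := by norm_num
          rw [h]
          simp [h1]
    · cases b with
      | true =>
        show ((1 : ℂ) • (MA e s + MB e s)).IsHermitian
        rw [one_smul, Matrix.IsHermitian, Matrix.conjTranspose_add, MA_conjTranspose e s hsr, hBA,
          add_comm]
      | false =>
        show ((Complex.I : ℂ) • (MA e s - MB e s)).IsHermitian
        rw [Matrix.IsHermitian, Matrix.conjTranspose_smul, Matrix.conjTranspose_sub,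
          MA_conjTranspose e s hsr, hBA]
        have h1 : star Complex.I = -Complex.I := Complex.conj_I
        rw [h1, neg_smul, ← smul_neg, neg_sub]

end Pool.Agent.Zk86.Q2
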