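import Mathlib
import Pool.Agent.Zk86.Q2.PF

/-! The number of solutions of `g ^ 2 + t g σ(g) + σ(g) ^ 2 = t ^ 2`. -/

set_option autoImplicit false
set_option linter.unusedSectionVars false

namespace Pool.Agent.Zk86.Q2

open Finset Polynomial Pool.Agent.R478.BES

section Arith

theorem gcd_main (n k : ℕ) (hk : Nat.Coprime k n) :
    (2 ^ (2 * n) - 1).gcd (2 ^ (2 * k) - 1) = 3 := by
  rw [Nat.pow_sub_one_gcd_pow_sub_one, Nat.gcd_mul_left, Nat.gcd_comm n k,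
    Nat.Coprime.gcd_eq_one hk]
  norm_num

theorem dvd_plus (k : ℕ) : 2 ^ k + 1 ∣ 2 ^ (2 * k) - 1 := by
  have h : 2 ^ (2 * k) - 1 = (2 ^ k + 1) * (2 ^ k - 1) := by
    rw [mul_comm 2 k, pow_mul, ← Nat.sq_sub_sq]
  rw [h]
  exact dvd_mul_right _ _

theorem dvd_minus (k : ℕ) : 2 ^ k - 1 ∣ 2 ^ (2 * k) - 1 := by
  have h : 2 ^ (2 * k) - 1 = (2 ^ k + 1) * (2 ^ k - 1) := by
    rw [mul_comm 2 k, pow_mul, ← Nat.sq_sub_sq]
  rw [h]
  exact dvd_mul_left _ _

theorem gcd_g1 (n k : ℕ) (hn : Odd n) (hk : Nat.Coprime k n) : (2 ^ n - 1).gcd (2 ^ k + 1) = 1 := by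
  have h1 : (2 ^ n - 1).gcd (2 ^ (2 * k) - 1) = 1 := by
    rw [Nat.pow_sub_one_gcd_pow_sub_one]
    have : n.gcd (2 * k) = 1 := by
      rw [Nat.gcd_comm]
      exact Nat.Coprime.mul_left (Nat.coprime_two_left.2 hn) hk
    rw [this]; norm_num
  exact Nat.Coprime.coprime_dvd_right (dvd_plus k) h1

theorem gcd_g2 (n k : ℕ) (hk : Nat.Coprime k n) : (2 ^ n - 1).gcd (2 ^ k - 1) = 1 := by
  rw [Nat.pow_sub_one_gcd_pow_sub_one, Nat.gcd_comm, Nat.Coprime.gcd_eq_one hk]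
  norm_num

theorem two_pow_mod (k : ℕ) : (Odd k → 2 ^ k % 3 = 2) ∧ (Even k → 2 ^ k % 3 = 1) := by
  constructor
  · rintro ⟨m, rfl⟩
    rw [pow_add, pow_mul]
    have : (2 ^ 2) ^ m % 3 = 1 := by
      rw [Nat.pow_mod]; norm_num
    omega
  · rintro ⟨m, rfl⟩
    rw [← two_mul, pow_mul, Nat.pow_mod]; norm_num

theorem gcd_three (M j : ℕ) (hM : 3 ∣ M) (hj : 3 ∣ j) (h : M.gcd j ∣ 3) : M.gcd j = 3 :=
  Nat.dvd_antisymm h (Nat.dvd_gcd hM hj)

theorem gcd_one (M j : ℕ) (hj : ¬ 3 ∣ j) (h : M.gcd j ∣ 3) : M.gcd j = 1 := by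
  rcases (Nat.dvd_prime Nat.prime_three).1 h with h1 | h1
  · exact h1
  · exact absurd (by rw [← h1]; exact Nat.gcd_dvd_right _ _) hj

theorem gcd_plus_dvd (n k : ℕ) (hk : Nat.Coprime k n) : (2 ^ n + 1).gcd (2 ^ k + 1) ∣ 3 := by
  rw [← gcd_main n k hk]
  exact Nat.gcd_dvd_gcd_of_dvd_left _ (dvd_plus n) |>.trans
    (Nat.gcd_dvd_gcd_of_dvd_right _ (dvd_plus k))

theorem gcd_minus_dvd (n k : ℕ) (hk : Nat.Coprime k n) : (2 ^ n + 1).gcd (2 ^ k - 1) ∣ 3 := by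
  rw [← gcd_main n k hk]
  exact Nat.gcd_dvd_gcd_of_dvd_left _ (dvd_plus n) |>.trans
    (Nat.gcd_dvd_gcd_of_dvd_right _ (dvd_minus k))

end Arith

section Link

variable {F : Type*} [Field F] [Fintype F] [DecidableEq F] [CharP F 2]

variable (e : AddChar F ℂ)

/-- `Dk` can be tested on any `c` with `c + c⁻¹ = g`. -/
theorem Dk_iff (j : ℕ) (g t : F) (c : (KA F)ˣ)
    (hc : (c : KA F) + (c : KA F)⁻¹ = algebraMap F (KA F) g) :
    Dk j g t ↔ ((c ^ j : (KA F)ˣ) : KA F) + ((c ^ j : (KA F)ˣ) : KA F)⁻¹ =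
      algebraMap F (KA F) t := by
  constructor
  · rintro ⟨d, hd1, hd2⟩
    rcases inv_pair d c (by rw [hd1, hc]) with h | h
    · rw [← h]; exact hd2
    · rw [h, inv_pow, Units.val_inv_eq_inv_val, inv_inv, add_comm] at hd2
      exact hd2
  · intro h
    exact ⟨c, hc, h⟩

theorem iter_frob (k : ℕ) (c : (KA F)ˣ) (g : F)
    (hc : (c : KA F) + (c : KA F)⁻¹ = algebraMap F (KA F) g) :
    ((c ^ 2 ^ k : (KA F)ˣ) : KA F) + ((c ^ 2 ^ k : (KA F)ˣ) : KA F)⁻¹ =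
      algebraMap F (KA F) (g ^ 2 ^ k) := by
  have : CharP (KA F) 2 := charP_of_injective_algebraMap (algebraMap F (KA F)).injective 2
  rw [map_pow, ← hc, add_pow_char_pow, Units.val_pow_eq_pow_val, inv_pow]

theorem rel_iff (k : ℕ) (g t : F) :
    (g ^ 2 + t * g * g ^ 2 ^ k + (g ^ 2 ^ k) ^ 2 = t ^ 2) ↔
      (Dk (2 ^ k + 1) g t ∨ Dk (2 ^ k - 1) g t) := by
  obtain ⟨c, hc⟩ := exists_c g
  have h1 := pf_roots g (g ^ 2 ^ k) c (c ^ 2 ^ k) hc (iter_frob k c g hc) t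
  rw [Dk_iff _ g t c hc, Dk_iff _ g t c hc]
  have e1 : (g ^ 2 + t * g * g ^ 2 ^ k + (g ^ 2 ^ k) ^ 2 = t ^ 2) ↔
      (t ^ 2 + g * g ^ 2 ^ k * t + g ^ 2 + (g ^ 2 ^ k) ^ 2 = 0) := by
    generalize g ^ 2 ^ k = g1
    constructor
    · intro h; grind
    · intro h; grind
  rw [e1, h1]
  have e2 : c * c ^ 2 ^ k = c ^ (2 ^ k + 1) := by rw [pow_succ']
  have e3 : (c * (c ^ 2 ^ k)⁻¹) = (c ^ (2 ^ k - 1))⁻¹ := by
    have h2 : c ^ 2 ^ k = c ^ (2 ^ k - 1) * c := by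
      rw [← pow_succ]
      congr 1
      have := Nat.one_le_two_pow (n := k)
      omega
    rw [h2, mul_inv]
    rw [mul_comm ((c ^ (2 ^ k - 1))⁻¹), mul_inv_cancel_left]
  rw [e2, e3, Units.val_inv_eq_inv_val, inv_inv]
  constructor
  · rintro (h | h)
    · exact Or.inl h.symm
    · right; rw [h, add_comm]
  · rintro (h | h)
    · exact Or.inl h.symm
    · right; rw [← h, add_comm]

theorem rel_excl (k : ℕ) (g t : F) (ht : t ≠ 0) :
    ¬ (Dk (2 ^ k + 1) g t ∧ Dk (2 ^ k - 1) g t) := by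
  have hchar : CharP (KA F) 2 := charP_of_injective_algebraMap (algebraMap F (KA F)).injective 2
  rintro ⟨h1, h2⟩
  obtain ⟨c, hc⟩ := exists_c g
  rw [Dk_iff _ g t c hc] at h1 h2
  have h3 : c ^ (2 ^ k + 1) = c ^ (2 ^ k - 1) ∨ c ^ (2 ^ k + 1) = (c ^ (2 ^ k - 1))⁻¹ :=
    inv_pair _ _ (by rw [h1, h2])
  have e0 : c ^ (2 ^ k + 1) = c ^ (2 ^ k - 1) * c ^ 2 := by
    rw [← pow_add]
    congr 1
    have := Nat.one_le_two_pow (n := k)
    omega
  have hc1 : c = 1 := by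
    rcases h3 with h3 | h3
    · rw [e0] at h3
      exact sq_one _ (mul_eq_left.1 h3)
    · have h4 : c ^ 2 ^ (k + 1) = 1 := by
        have h5 : c ^ (2 ^ k + 1) * c ^ (2 ^ k - 1) = 1 := by
          rw [h3]; exact inv_mul_cancel _
        rw [← pow_add] at h5
        rw [← h5]
        congr 1
        have := Nat.one_le_two_pow (n := k)
        rw [pow_succ]
        omega
      have h6 : ∀ (m : ℕ) (x : (KA F)ˣ), x ^ 2 ^ m = 1 → x = 1 := by
        intro m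
        induction m with
        | zero => intro x hx; simpa using hx
        | succ m ih =>
          intro x hx
          rw [pow_succ, pow_mul] at hx
          exact ih x (sq_one _ hx)
      exact h6 _ _ h4
  rw [hc1, one_pow, Units.val_one, inv_one, CharTwo.add_self_eq_zero] at h1
  exact ht ((map_eq_zero _).1 h1.symm)

theorem card_B (hne : e ≠ 1) (hsq : ∀ x, e (x ^ 2) = e x) (n k : ℕ)
    (hcard : Fintype.card F = 2 ^ n) (hn : Odd n) (hk : Nat.Coprime k n) (t : F) (ht : t ≠ 0) :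
    (univ.filter fun g : F => g ^ 2 + t * g * g ^ 2 ^ k + (g ^ 2 ^ k) ^ 2 = t ^ 2).card =
      1 + cub t := by
  classical
  have h3 : Fintype.card F % 3 = 2 := by rw [hcard]; exact (two_pow_mod n).1 hn
  have hM3 : 3 ∣ 2 ^ n + 1 := by rw [hcard] at h3; omega
  have hsplit : (univ.filter fun g : F => g ^ 2 + t * g * g ^ 2 ^ k + (g ^ 2 ^ k) ^ 2 = t ^ 2).card =
      (univ.filter fun g : F => Dk (2 ^ k + 1) g t).card +
        (univ.filter fun g : F => Dk (2 ^ k - 1) g t).card := by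
    rw [← Finset.card_union_of_disjoint]
    · congr 1
      ext g
      simp only [mem_filter, mem_univ, true_and, mem_union]
      exact rel_iff k g t
    · rw [Finset.disjoint_left]
      intro g hg1 hg2
      simp only [mem_filter, mem_univ, true_and] at hg1 hg2
      exact rel_excl k g t ht ⟨hg1, hg2⟩
  rw [hsplit]
  obtain ⟨w, hw⟩ := exists_c t
  rcases e_pm e t⁻¹ with he | he
  · have hm := split_true e hne hsq t ht he w hw
    have hw1 := w_ne_one false t ht ⟨w, hm⟩ hw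
    have hG : Nat.card (rootsOfUnity (ord F false) (KA F)) = 2 ^ n - 1 := by
      rw [card_roots, ← hcard]; rfl
    have c1 := card_D false (2 ^ k + 1) t ⟨w, hm⟩ hw1 hw
    have c2 := card_D false (2 ^ k - 1) t ⟨w, hm⟩ hw1 hw
    have c3 := cub_eq false t ⟨w, hm⟩ hw1 hw
    rw [rc_coprime _ (by rw [hG]; exact gcd_g1 n k hn hk)] at c1
    rw [rc_coprime _ (by rw [hG]; exact gcd_g2 n k hk)] at c2
    rw [rc_coprime _ (gcd_false h3)] at c3
    rw [c1, c2, c3]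
  · have hm := split_false e hne hsq t ht he w hw
    have hw1 := w_ne_one true t ht ⟨w, hm⟩ hw
    have hG : Nat.card (rootsOfUnity (ord F true) (KA F)) = 2 ^ n + 1 := by
      rw [card_roots, ← hcard]; rfl
    have c1 := card_D true (2 ^ k + 1) t ⟨w, hm⟩ hw1 hw
    have c2 := card_D true (2 ^ k - 1) t ⟨w, hm⟩ hw1 hw
    have c3 := cub_eq true t ⟨w, hm⟩ hw1 hw
    have hG3 : 3 ∣ Nat.card (rootsOfUnity (ord F true) (KA F)) := by rw [hG]; exact hM3
    have hkk := Nat.one_le_two_pow (n := k)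
    rcases Nat.even_or_odd k with hko | hko
    · have hmod := (two_pow_mod k).2 hko
      rw [rc_coprime _ (by
        rw [hG]; exact gcd_one _ _ (by omega) (gcd_plus_dvd n k hk))] at c1
      rw [rc_three _ hG3 (by
        rw [hG]; exact gcd_three _ _ hM3 (by omega) (gcd_minus_dvd n k hk))] at c2
      rw [c1, c2, c3]
    · have hmod := (two_pow_mod k).1 hko
      rw [rc_three _ hG3 (by
        rw [hG]; exact gcd_three _ _ hM3 (by omega) (gcd_plus_dvd n k hk))] at c1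
      rw [rc_coprime _ (by
        rw [hG]; exact gcd_one _ _ (by omega) (gcd_minus_dvd n k hk))] at c2
      rw [c1, c2, c3, add_comm]

end Link

end Pool.Agent.Zk86.Q2
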