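import Mathlib
import Pool.Agent.Zk86.Q2.Link
import Pool.Agent.Zk86.Q2.Sums
import Pool.Agent.Zk86.Q2.Orth

/-! The sum over `R_k` in terms of `nu`. -/

set_option autoImplicit false
set_option linter.unusedSectionVars false

namespace Pool.Agent.Zk86.Q2

open Finset Pool.Agent.R478.BES

section Link2

variable {F : Type*} [Field F] [Fintype F] [DecidableEq F] [CharP F 2]

variable (e : AddChar F ℂ)

theorem e_frob (hsq : ∀ x, e (x ^ 2) = e x) (k : ℕ) (x : F) : e (x ^ 2 ^ k) = e x := by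
  induction k with
  | zero => simp
  | succ k ih => rw [pow_succ, pow_mul, hsq, ih]

theorem frob_add (k : ℕ) (x y : F) : (x + y) ^ 2 ^ k = x ^ 2 ^ k + y ^ 2 ^ k :=
  add_pow_char_pow x y 2 k

theorem frob_inj (k : ℕ) {x y : F} (h : x ^ 2 ^ k = y ^ 2 ^ k) : x = y := by
  induction k with
  | zero => simpa using h
  | succ k ih =>
    rw [pow_succ, pow_mul, pow_mul] at h
    exact ih (sq_inj h)

theorem frob_bij (k : ℕ) : Function.Bijective (fun x : F => x ^ 2 ^ k) :=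
  Finite.injective_iff_bijective.1 (fun _ _ h => frob_inj k h)

theorem sum_add_zero (f : F → ℂ) : ∑ x : F, f x = f 0 + ∑ x : Fˣ, f x := by
  rw [← Finset.add_sum_erase _ _ (mem_univ (0 : F))]
  congr 1
  symm
  refine Finset.sum_bij (fun (y : Fˣ) _ => (y : F)) ?_ ?_ ?_ ?_
  · intro y _
    simp
  · intro y _ y' _ h
    exact Units.ext h
  · intro y hy
    simp only [mem_erase, mem_univ, and_true] at hy
    exact ⟨Units.mk0 y hy, mem_univ _, rfl⟩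
  · intro y _; rfl

theorem fixed_iff (n k : ℕ) (hcard : Fintype.card F = 2 ^ n) (hk : Nat.Coprime k n) (v : F) :
    v + v ^ 2 ^ k = 0 ↔ (v = 0 ∨ v = 1) := by
  constructor
  · intro h
    by_cases hv : v = 0
    · exact Or.inl hv
    · right
      have h1 : v ^ 2 ^ k = v := (CharTwo.add_eq_zero.1 h).symm
      have h2 : (Units.mk0 v hv) ^ (2 ^ k - 1) = 1 := by
        ext
        rw [Units.val_pow_eq_pow_val, Units.val_mk0, Units.val_one]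
        apply mul_right_cancel₀ hv
        rw [← pow_succ, one_mul]
        have := Nat.one_le_two_pow (n := k)
        rw [show 2 ^ k - 1 + 1 = 2 ^ k by omega, h1]
      have h3 : (Units.mk0 v hv) ^ (2 ^ n - 1) = 1 := by
        rw [← hcard, ← Fintype.card_units]
        exact pow_card_eq_one
      have h4 := pow_gcd_eq_one.2 ⟨h3, h2⟩
      rw [gcd_g2 n k hk, pow_one] at h4
      have h5 := congrArg Units.val h4
      simpa using h5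
  · rintro (rfl | rfl)
    · simp
    · rw [one_pow, CharTwo.add_self_eq_zero]

theorem norm_one (n k : ℕ) (hcard : Fintype.card F = 2 ^ n) (hn : Odd n) (hk : Nat.Coprime k n)
    (g : Fˣ) : (0 = 1 + (g : F) * (g : F) ^ 2 ^ k) ↔ g = 1 := by
  constructor
  · intro h
    have h1 : (g : F) ^ (2 ^ k + 1) = 1 := by
      rw [pow_succ']
      exact (CharTwo.add_eq_zero.1 h.symm).symm
    have h2 : g ^ (2 ^ k + 1) = 1 := by
      ext
      rw [Units.val_pow_eq_pow_val, h1, Units.val_one]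
    have h3 : g ^ (2 ^ n - 1) = 1 := by
      rw [← hcard, ← Fintype.card_units]
      exact pow_card_eq_one
    have h4 := pow_gcd_eq_one.2 ⟨h3, h2⟩
    rwa [gcd_g1 n k hn hk, pow_one] at h4
  · rintro rfl
    rw [Units.val_one, one_pow, one_mul, CharTwo.add_self_eq_zero]

/-- step A. -/
theorem stepA (hne : e ≠ 1) (hsq : ∀ x, e (x ^ 2) = e x) (k : ℕ) (r m : F) (hr : r ≠ 0)
    (hm : m ^ 2 = (r * r ^ 2 ^ k)⁻¹) :
    ∑ v : F, (if v + v ^ 2 ^ k = r then e ((v ^ 2 + v) ^ 2 ^ k / (r * r ^ 2 ^ k)) else 0) =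
      ∑ h : F, (if h + h ^ 2 ^ k = m + m ^ 2 then e (h * r) else 0) := by
  have hq : (Fintype.card F : ℂ) ≠ 0 := by
    exact_mod_cast Fintype.card_ne_zero
  apply mul_left_cancel₀ hq
  rw [Finset.mul_sum, Finset.mul_sum]
  have h1 : ∀ v : F, (Fintype.card F : ℂ) *
      (if v + v ^ 2 ^ k = r then e ((v ^ 2 + v) ^ 2 ^ k / (r * r ^ 2 ^ k)) else 0) =
      ∑ h : F, e (h * r) * e ((h + h ^ 2 ^ k + (m + m ^ 2)) * v ^ 2 ^ k) := by
    intro v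
    have h2 : ∀ h : F, e (h * r) * e ((h + h ^ 2 ^ k + (m + m ^ 2)) * v ^ 2 ^ k) =
        e ((v ^ 2 + v) ^ 2 ^ k / (r * r ^ 2 ^ k)) * e ((v + v ^ 2 ^ k + r) * h) := by
      intro h
      have e1 : e ((v ^ 2 + v) ^ 2 ^ k / (r * r ^ 2 ^ k)) = e ((m + m ^ 2) * v ^ 2 ^ k) := by
        have e2 : (v ^ 2 + v) ^ 2 ^ k / (r * r ^ 2 ^ k) = (m * v ^ 2 ^ k) ^ 2 + m ^ 2 * v ^ 2 ^ k := by
          rw [frob_add, ← pow_mul, mul_comm 2, pow_mul, div_eq_mul_inv, ← hm]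
          ring
        have e3 : (m + m ^ 2) * v ^ 2 ^ k = m * v ^ 2 ^ k + m ^ 2 * v ^ 2 ^ k := by ring
        rw [e2, e3, AddChar.map_add_eq_mul, AddChar.map_add_eq_mul, hsq]
      have e4 : e (v * h) = e (h ^ 2 ^ k * v ^ 2 ^ k) := by
        rw [← e_frob e hsq k (v * h), mul_pow, mul_comm]
      have e5 : (h + h ^ 2 ^ k + (m + m ^ 2)) * v ^ 2 ^ k =
          h * v ^ 2 ^ k + h ^ 2 ^ k * v ^ 2 ^ k + (m + m ^ 2) * v ^ 2 ^ k := by ring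
      have e6 : (v + v ^ 2 ^ k + r) * h = v * h + h * v ^ 2 ^ k + h * r := by ring
      rw [e1, e5, e6, AddChar.map_add_eq_mul, AddChar.map_add_eq_mul, AddChar.map_add_eq_mul,
        AddChar.map_add_eq_mul e (v * h), e4]
      ring
    rw [Finset.sum_congr rfl fun h _ => h2 h, ← Finset.mul_sum, sum_e e hne]
    have h3 : (v + v ^ 2 ^ k + r = 0) ↔ (v + v ^ 2 ^ k = r) := CharTwo.add_eq_zero
    simp only [h3]
    split_ifs <;> ring
  rw [Finset.sum_congr rfl fun v _ => h1 v, Finset.sum_comm]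
  refine Finset.sum_congr rfl fun h _ => ?_
  rw [← Finset.mul_sum]
  have h4 : ∑ v : F, e ((h + h ^ 2 ^ k + (m + m ^ 2)) * v ^ 2 ^ k) =
      ∑ u : F, e ((h + h ^ 2 ^ k + (m + m ^ 2)) * u) :=
    Function.Bijective.sum_comp (frob_bij k) (fun u : F => e ((h + h ^ 2 ^ k + (m + m ^ 2)) * u))
  rw [h4, sum_e e hne]
  have h5 : (h + h ^ 2 ^ k + (m + m ^ 2) = 0) ↔ (h + h ^ 2 ^ k = m + m ^ 2) :=
    CharTwo.add_eq_zero
  simp only [h5]
  split_ifs <;> ring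

/-- step B. -/
theorem stepB (hne : e ≠ 1) (hsq : ∀ x, e (x ^ 2) = e x) (n k : ℕ)
    (hcard : Fintype.card F = 2 ^ n) (hk : Nat.Coprime k n) :
    ∑ v : Fˣ, e ((((v : F) ^ 2 ^ k + 1) * (v : F) ^ 2 ^ k) /
      ((v : F) ^ 2 ^ k + v) ^ (2 ^ k + 1)) =
    1 + ∑ g : Fˣ, ∑ ρ : F, (if ρ * ((g : F) ^ 2 ^ k) ^ 2 + ρ ^ 2 ^ k * (g : F) ^ 2 =
      1 + (g : F) * (g : F) ^ 2 ^ k then e ρ else 0) := by
  have h1 : ∑ v : F, e (((v ^ 2 ^ k + 1) * v ^ 2 ^ k) / (v ^ 2 ^ k + v) ^ (2 ^ k + 1)) =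
      ∑ r : F, ∑ v : F, (if v + v ^ 2 ^ k = r then
        e ((v ^ 2 + v) ^ 2 ^ k / (r * r ^ 2 ^ k)) else 0) := by
    rw [Finset.sum_comm]
    refine Finset.sum_congr rfl fun v _ => ?_
    rw [Finset.sum_ite_eq, if_pos (mem_univ _)]
    congr 1
    have h2 : (v ^ 2 + v) ^ 2 ^ k = (v ^ 2 ^ k + 1) * v ^ 2 ^ k := by
      rw [frob_add, ← pow_mul, mul_comm 2, pow_mul]
      ring
    rw [h2, add_comm v (v ^ 2 ^ k), pow_succ']
  rw [sum_add_zero, sum_add_zero (fun r => ∑ v : F, (if v + v ^ 2 ^ k = r then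
        e ((v ^ 2 + v) ^ 2 ^ k / (r * r ^ 2 ^ k)) else 0))] at h1
  have h2 : e ((((0 : F) ^ 2 ^ k + 1) * 0 ^ 2 ^ k) / (0 ^ 2 ^ k + 0) ^ (2 ^ k + 1)) = 1 := by
    have : ((0 : F) ^ 2 ^ k) = 0 := zero_pow (by positivity)
    rw [this]
    simp
  have h3 : ∑ v : F, (if v + v ^ 2 ^ k = 0 then
        e ((v ^ 2 + v) ^ 2 ^ k / (0 * 0 ^ 2 ^ k)) else 0) = 2 := by
    have h4 : ∀ v : F, (if v + v ^ 2 ^ k = 0 then
        e ((v ^ 2 + v) ^ 2 ^ k / (0 * 0 ^ 2 ^ k)) else 0) =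
        (if v = 0 then (1 : ℂ) else 0) + (if v = 1 then (1 : ℂ) else 0) := by
      intro v
      simp only [fixed_iff n k hcard hk v, zero_mul, div_zero, AddChar.map_zero_eq_one]
      by_cases h0 : v = 0
      · subst h0; simp
      · by_cases h1 : v = 1
        · subst h1; simp
        · simp [h0, h1]
    rw [Finset.sum_congr rfl fun v _ => h4 v, Finset.sum_add_distrib]
    simp only [Finset.sum_ite_eq', mem_univ, if_true]
    norm_num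
  rw [h2, h3] at h1
  have h5 : ∑ r : Fˣ, ∑ v : F, (if v + v ^ 2 ^ k = (r : F) then
        e ((v ^ 2 + v) ^ 2 ^ k / ((r : F) * (r : F) ^ 2 ^ k)) else 0) =
      ∑ g : Fˣ, ∑ ρ : F, (if ρ * ((g : F) ^ 2 ^ k) ^ 2 + ρ ^ 2 ^ k * (g : F) ^ 2 =
        1 + (g : F) * (g : F) ^ 2 ^ k then e ρ else 0) := by
    have hb : Function.Bijective (fun g : Fˣ => g ^ 2) := by
      apply Finite.injective_iff_bijective.1
      intro x y hxy
      ext
      apply sq_inj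
      have := congrArg Units.val hxy
      simpa using this
    symm
    refine Fintype.sum_bijective (fun g : Fˣ => g ^ 2) hb _ _ fun g => ?_
    have hg : (g : F) ≠ 0 := g.ne_zero
    have hg1 : (g : F) ^ 2 ^ k ≠ 0 := pow_ne_zero _ hg
    have hgp : (((g : F) ^ 2) ^ 2 ^ k) = ((g : F) ^ 2 ^ k) ^ 2 := by
      rw [← pow_mul, mul_comm 2, pow_mul]
    rw [Units.val_pow_eq_pow_val, stepA e hne hsq k ((g : F) ^ 2) ((g : F) * (g : F) ^ 2 ^ k)⁻¹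
      (pow_ne_zero 2 hg) (by rw [hgp, ← mul_pow, inv_pow])]
    have hg2 : (g : F) ^ 2 ≠ 0 := pow_ne_zero 2 hg
    symm
    refine Fintype.sum_equiv (Equiv.mulRight₀ ((g : F) ^ 2) hg2) _ _ fun h => ?_
    simp only [Equiv.mulRight₀_apply]
    have h6 : (h + h ^ 2 ^ k = ((g : F) * (g : F) ^ 2 ^ k)⁻¹ + (((g : F) * (g : F) ^ 2 ^ k)⁻¹) ^ 2) ↔
        (h * (g : F) ^ 2 * ((g : F) ^ 2 ^ k) ^ 2 + (h * (g : F) ^ 2) ^ 2 ^ k * (g : F) ^ 2 =
          1 + (g : F) * (g : F) ^ 2 ^ k) := by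
      rw [mul_pow h, hgp]
      generalize (g : F) ^ 2 ^ k = g1 at *
      have h7 : (h * (g : F) ^ 2 * g1 ^ 2 + h ^ 2 ^ k * g1 ^ 2 * (g : F) ^ 2) =
          (h + h ^ 2 ^ k) * ((g : F) * g1) ^ 2 := by ring
      have h8 : 1 + (g : F) * g1 = (((g : F) * g1)⁻¹ + (((g : F) * g1)⁻¹) ^ 2) * ((g : F) * g1) ^ 2 := by
        field_simp
        ring
      rw [h7, h8]
      exact (mul_left_inj' (pow_ne_zero 2 (mul_ne_zero hg hg1))).symm
    simp only [h6]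
  rw [h5] at h1
  linear_combination h1

/-- step D. -/
theorem stepD (hne : e ≠ 1) (hsq : ∀ x, e (x ^ 2) = e x) (n k : ℕ)
    (hcard : Fintype.card F = 2 ^ n) (hn : Odd n) (hk : Nat.Coprime k n) (s : F) (hs : s ≠ 0) :
    ∑ g : Fˣ, (if s ^ 2 * ((g : F) ^ 2 ^ k) ^ 2 + (s ^ 2) ^ 2 ^ k * (g : F) ^ 2 =
      1 + (g : F) * (g : F) ^ 2 ^ k then (1 : ℂ) else 0) = 2 + nu (s * s ^ 2 ^ k)⁻¹ := by
  have hs1 : s ^ 2 ^ k ≠ 0 := pow_ne_zero _ hs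
  have ht : (s * s ^ 2 ^ k)⁻¹ ≠ 0 := inv_ne_zero (mul_ne_zero hs hs1)
  have h1 := sum_add_zero (fun g : F => if s ^ 2 * (g ^ 2 ^ k) ^ 2 + (s ^ 2) ^ 2 ^ k * g ^ 2 =
      1 + g * g ^ 2 ^ k then (1 : ℂ) else 0)
  have h2 : (if s ^ 2 * ((0 : F) ^ 2 ^ k) ^ 2 + (s ^ 2) ^ 2 ^ k * (0 : F) ^ 2 =
      1 + (0 : F) * (0 : F) ^ 2 ^ k then (1 : ℂ) else 0) = 0 := by
    rw [if_neg]
    have : ((0 : F) ^ 2 ^ k) = 0 := zero_pow (by positivity)
    rw [this]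
    simp
  rw [h2, zero_add] at h1
  rw [← h1]
  have h3 : ∑ g : F, (if s ^ 2 * (g ^ 2 ^ k) ^ 2 + (s ^ 2) ^ 2 ^ k * g ^ 2 =
      1 + g * g ^ 2 ^ k then (1 : ℂ) else 0) =
      ∑ g : F, (if g ^ 2 + (s * s ^ 2 ^ k)⁻¹ * g * g ^ 2 ^ k + (g ^ 2 ^ k) ^ 2 =
        ((s * s ^ 2 ^ k)⁻¹) ^ 2 then (1 : ℂ) else 0) := by
    symm
    refine Fintype.sum_equiv (Equiv.mulLeft₀ s hs) _ _ fun g => ?_
    simp only [Equiv.mulLeft₀_apply]
    have h4 : (g ^ 2 + (s * s ^ 2 ^ k)⁻¹ * g * g ^ 2 ^ k + (g ^ 2 ^ k) ^ 2 =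
        ((s * s ^ 2 ^ k)⁻¹) ^ 2) ↔ (s ^ 2 * ((s * g) ^ 2 ^ k) ^ 2 + (s ^ 2) ^ 2 ^ k * (s * g) ^ 2 =
      1 + s * g * (s * g) ^ 2 ^ k) := by
      have hsp : (s ^ 2) ^ 2 ^ k = (s ^ 2 ^ k) ^ 2 := by
        rw [← pow_mul, mul_comm 2, pow_mul]
      rw [hsp, mul_pow s g]
      generalize s ^ 2 ^ k = s1 at *
      generalize g ^ 2 ^ k = g1 at *
      constructor
      · intro h
        field_simp at h
        grind
      · intro h
        field_simp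
        grind
    simp only [h4]
  rw [h3]
  have h5 := card_B e hne hsq n k hcard hn hk _ ht
  rw [Finset.sum_ite, Finset.sum_const_zero, add_zero, Finset.sum_const, nsmul_eq_mul, mul_one, h5]
  unfold nu
  push_cast
  ring

/-- **Link**: the sum over `R_k` in terms of `nu`. -/
theorem link (hne : e ≠ 1) (hsq : ∀ x, e (x ^ 2) = e x) (n k : ℕ)
    (hcard : Fintype.card F = 2 ^ n) (hn : Odd n) (hk : Nat.Coprime k n) :
    ∑ v : Fˣ, e ((((v : F) ^ 2 ^ k + 1) * (v : F) ^ 2 ^ k) /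
      ((v : F) ^ 2 ^ k + v) ^ (2 ^ k + 1)) =
    ∑ x : Fˣ, e (x : F)⁻¹ * nu ((x : F) * (x : F) ^ 2 ^ k) := by
  rw [stepB e hne hsq n k hcard hk, Finset.sum_comm, sum_add_zero]
  have h1 : ∀ ρ : F, ∑ g : Fˣ, (if ρ * ((g : F) ^ 2 ^ k) ^ 2 + ρ ^ 2 ^ k * (g : F) ^ 2 =
      1 + (g : F) * (g : F) ^ 2 ^ k then e ρ else 0) = e ρ *
      ∑ g : Fˣ, (if ρ * ((g : F) ^ 2 ^ k) ^ 2 + ρ ^ 2 ^ k * (g : F) ^ 2 =
      1 + (g : F) * (g : F) ^ 2 ^ k then (1 : ℂ) else 0) := by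
    intro ρ
    rw [Finset.mul_sum]
    refine Finset.sum_congr rfl fun g _ => ?_
    split_ifs <;> ring
  simp only [h1]
  have h2 : ∑ g : Fˣ, (if (0 : F) * ((g : F) ^ 2 ^ k) ^ 2 + (0 : F) ^ 2 ^ k * (g : F) ^ 2 =
      1 + (g : F) * (g : F) ^ 2 ^ k then (1 : ℂ) else 0) = 1 := by
    have h0 : ((0 : F) ^ 2 ^ k) = 0 := zero_pow (by positivity)
    simp only [h0, zero_mul, add_zero, norm_one n k hcard hn hk, Finset.sum_ite_eq', mem_univ,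
      if_true]
  rw [h2, AddChar.map_zero_eq_one]
  have h3 : ∑ ρ : Fˣ, e (ρ : F) *
      ∑ g : Fˣ, (if (ρ : F) * ((g : F) ^ 2 ^ k) ^ 2 + (ρ : F) ^ 2 ^ k * (g : F) ^ 2 =
      1 + (g : F) * (g : F) ^ 2 ^ k then (1 : ℂ) else 0) =
      ∑ ρ : Fˣ, e (ρ : F) * (2 + nu ((ρ : F)⁻¹ * ((ρ : F)⁻¹) ^ 2 ^ k)) := by
    refine Finset.sum_congr rfl fun ρ _ => ?_
    obtain ⟨s, hs⟩ := sq_surj (ρ : F)
    have hs0 : s ≠ 0 := by
      rintro rfl
      apply ρ.ne_zero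
      rw [hs]; ring
    rw [hs, stepD e hne hsq n k hcard hn hk s hs0]
    congr 2
    rw [← nu_sq]
    congr 1
    rw [inv_pow (s ^ 2), ← mul_inv, inv_pow]
    congr 1
    rw [mul_pow, ← pow_mul, ← pow_mul, mul_comm 2 (2 ^ k)]
  rw [h3]
  have h4 : ∑ ρ : Fˣ, e (ρ : F) * (2 + nu ((ρ : F)⁻¹ * ((ρ : F)⁻¹) ^ 2 ^ k)) =
      ∑ x : Fˣ, e (x : F)⁻¹ * (2 + nu ((x : F) * (x : F) ^ 2 ^ k)) := by
    refine Fintype.sum_equiv (Equiv.inv Fˣ) _ _ fun y => ?_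
    simp
  rw [h4]
  have h5 : ∀ x : Fˣ, e (x : F)⁻¹ * (2 + nu ((x : F) * (x : F) ^ 2 ^ k)) =
      2 * e (1 * (x : F)⁻¹) + e (x : F)⁻¹ * nu ((x : F) * (x : F) ^ 2 ^ k) := by
    intro x
    rw [one_mul]; ring
  rw [Finset.sum_congr rfl fun x _ => h5 x, Finset.sum_add_distrib, ← Finset.mul_sum,
    sum_units_inv e hne, if_neg one_ne_zero]
  ring

end Link2

end Pool.Agent.Zk86.Q2
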